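import Mathlib

set_option autoImplicit false

namespace Pool.Agent.H37

open MvPolynomial

set_option linter.unusedSectionVars false

variable {σ : Type} [DecidableEq σ]

/-- Nonnegative coefficients. -/
def NN (p : MvPolynomial σ ℝ) : Prop := ∀ m, 0 ≤ coeff m p

/-- No zero in the open right half space. -/
def HStable (p : MvPolynomial σ ℝ) : Prop :=
  ∀ z : σ → ℂ, (∀ i, 0 < (z i).re) → aeval z p ≠ 0

/-- The class of polynomials used in Gurvits' inequality. -/
structure Stab (n : ℕ) (p : MvPolynomial σ ℝ) : Prop where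
  nn : NN p
  hom : p.IsHomogeneous n
  st : p = 0 ∨ HStable p

/-- Set the variable `X j` to zero. -/
noncomputable def sub0 (j : σ) : MvPolynomial σ ℝ →ₐ[ℝ] MvPolynomial σ ℝ :=
  aeval (fun i => if i = j then 0 else X i)

/-- Extract the part of degree exactly one in `X j`. -/
noncomputable def E (j : σ) (p : MvPolynomial σ ℝ) : MvPolynomial σ ℝ := sub0 j (pderiv j p)

theorem sub0_monomial (j : σ) (m : σ →₀ ℕ) (c : ℝ) :
    sub0 j (monomial m c) = if m j = 0 then monomial m c else 0 := by
  unfold sub0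
  rw [aeval_monomial]
  split_ifs with h
  · rw [monomial_eq (s := m)]
    simp only [algebraMap_eq]
    congr 1
    apply Finset.prod_congr rfl
    intro i hi
    have : i ≠ j := by
      rintro rfl
      exact (Finsupp.mem_support_iff.1 hi) h
    simp [this]
  · have : (m.prod fun i k => (if i = j then (0 : MvPolynomial σ ℝ) else X i) ^ k) = 0 := by
      apply Finset.prod_eq_zero (Finsupp.mem_support_iff.2 h)
      simp [h]
    rw [this, mul_zero]

theorem coeff_sub0 (j : σ) (p : MvPolynomial σ ℝ) (m : σ →₀ ℕ) :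
    coeff m (sub0 j p) = if m j = 0 then coeff m p else 0 := by
  induction p using MvPolynomial.induction_on' with
  | add p q hp hq => rw [map_add, coeff_add, hp, hq, coeff_add]; split_ifs <;> simp
  | monomial n a =>
    rw [sub0_monomial]
    by_cases h : n = m
    · subst h
      by_cases h0 : n j = 0 <;> simp [h0]
    · by_cases h0 : n j = 0 <;> by_cases h1 : m j = 0 <;> simp [h0, h1, h]

theorem coeff_E (j : σ) (p : MvPolynomial σ ℝ) (m : σ →₀ ℕ) :
    coeff m (E j p) = if m j = 0 then coeff (m + Finsupp.single j 1) p else 0 := by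
  unfold E
  rw [coeff_sub0, coeff_pderiv]
  split_ifs with h
  · rw [h]; simp
  · rfl

theorem NN.pderiv {p : MvPolynomial σ ℝ} (h : NN p) (j : σ) : NN (pderiv j p) := by
  intro m
  rw [coeff_pderiv]
  exact mul_nonneg (h _) (by positivity)

theorem NN.E {p : MvPolynomial σ ℝ} (h : NN p) (j : σ) : NN (E j p) := by
  intro m
  rw [coeff_E]
  split_ifs
  · exact h _
  · exact le_rfl

theorem NN.mul {p q : MvPolynomial σ ℝ} (hp : NN p) (hq : NN q) : NN (p * q) := by
  classical
  intro m
  rw [coeff_mul]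
  exact Finset.sum_nonneg fun x _ => mul_nonneg (hp _) (hq _)

theorem NN.add {p q : MvPolynomial σ ℝ} (hp : NN p) (hq : NN q) : NN (p + q) := by
  intro m
  rw [coeff_add]
  exact add_nonneg (hp _) (hq _)

theorem NN.zero : NN (0 : MvPolynomial σ ℝ) := by
  intro m; simp

theorem NN.one : NN (1 : MvPolynomial σ ℝ) := by
  classical
  intro m
  rw [coeff_one]
  split_ifs <;> simp

theorem NN.C {c : ℝ} (hc : 0 ≤ c) : NN (C c : MvPolynomial σ ℝ) := by
  classical
  intro m
  rw [coeff_C]
  split_ifs <;> simp [hc]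

theorem NN.X (i : σ) : NN (X i : MvPolynomial σ ℝ) := by
  classical
  intro m
  rw [coeff_X]
  split_ifs <;> simp

theorem NN.sum {ι : Type} (s : Finset ι) {f : ι → MvPolynomial σ ℝ} (h : ∀ i ∈ s, NN (f i)) :
    NN (∑ i ∈ s, f i) := by
  intro m
  rw [coeff_sum]
  exact Finset.sum_nonneg fun i hi => h i hi m

theorem NN.prod {ι : Type} (s : Finset ι) {f : ι → MvPolynomial σ ℝ} (h : ∀ i ∈ s, NN (f i)) :
    NN (∏ i ∈ s, f i) := by
  classical
  induction s using Finset.induction_on with
  | empty => rw [Finset.prod_empty]; exact NN.one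
  | insert a s ha ih =>
    rw [Finset.prod_insert ha]
    exact (h a (Finset.mem_insert_self _ _)).mul
      (ih fun i hi => h i (Finset.mem_insert_of_mem hi))

theorem NN.eval_nonneg {p : MvPolynomial σ ℝ} (h : NN p) {x : σ → ℝ} (hx : ∀ i, 0 ≤ x i) :
    0 ≤ eval x p := by
  rw [eval_eq]
  exact Finset.sum_nonneg fun m _ => mul_nonneg (h m) (Finset.prod_nonneg fun i _ =>
    pow_nonneg (hx i) _)

theorem NN.eval_pos {p : MvPolynomial σ ℝ} (h : NN p) (h0 : p ≠ 0) {x : σ → ℝ}
    (hx : ∀ i, 0 < x i) : 0 < eval x p := by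
  obtain ⟨m, hm⟩ : ∃ m, coeff m p ≠ 0 := by
    by_contra hcon
    push Not at hcon
    exact h0 (MvPolynomial.ext _ _ (by simpa using hcon))
  rw [eval_eq]
  refine lt_of_lt_of_le ?_ (Finset.single_le_sum (f := fun d => coeff d p * ∏ i ∈ d.support,
    x i ^ d i) (fun d _ => mul_nonneg (h d) (Finset.prod_nonneg fun i _ =>
      pow_nonneg (hx i).le _)) (mem_support_iff.2 hm))
  exact mul_pos (lt_of_le_of_ne (h m) (Ne.symm hm)) (Finset.prod_pos fun i _ => pow_pos (hx i) _)

theorem hom_E {p : MvPolynomial σ ℝ} {n : ℕ} (h : p.IsHomogeneous n) (j : σ) :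
    (E j p).IsHomogeneous (n - 1) := by
  intro m hm
  rw [coeff_E] at hm
  split_ifs at hm with h0
  · have h1 := h hm
    rw [map_add] at h1
    have h2 : (Finsupp.weight (1 : σ → ℕ)) (Finsupp.single j 1) = 1 := by
      rw [Finsupp.weight_single]; rfl
    rw [h2] at h1
    exact Nat.eq_sub_of_add_eq h1
  · exact absurd rfl hm

end Pool.Agent.H37
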