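import Mathlib
import Pool.Agent.H37.StabBasic

set_option autoImplicit false
set_option linter.unusedSectionVars false

namespace Pool.Agent.H37

open MvPolynomial

variable {σ : Type} [DecidableEq σ]

/-- Restriction of a polynomial to a line parallel to a coordinate axis. -/
noncomputable def line {K : Type} [Field K] [Algebra ℝ K] (z : σ → K) (j : σ) :
    MvPolynomial σ ℝ →ₐ[ℝ] Polynomial K :=
  aeval (fun i => if i = j then Polynomial.X else Polynomial.C (z i))

theorem line_eval {K : Type} [Field K] [Algebra ℝ K] (z : σ → K) (j : σ) (p : MvPolynomial σ ℝ)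
    (t : K) : (line z j p).eval t = aeval (Function.update z j t) p := by
  induction p using MvPolynomial.induction_on with
  | C a => simp [line, Polynomial.algebraMap_apply]
  | add p q hp hq => rw [map_add, Polynomial.eval_add, hp, hq, map_add]
  | mul_X p i hp =>
    rw [map_mul, Polynomial.eval_mul, hp, map_mul]
    congr 1
    by_cases h : i = j
    · subst h; simp [line]
    · simp [line, h]

theorem line_eval_real (z : σ → ℝ) (j : σ) (p : MvPolynomial σ ℝ)
    (t : ℝ) : (line z j p).eval t = eval (Function.update z j t) p := by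
  rw [line_eval]
  exact congrFun (congrArg DFunLike.coe (coe_aeval_eq_eval (Function.update z j t))) p

theorem line_deriv {K : Type} [Field K] [Algebra ℝ K] (z : σ → K) (j : σ)
    (p : MvPolynomial σ ℝ) :
    Polynomial.derivative (line z j p) = line z j (pderiv j p) := by
  induction p using MvPolynomial.induction_on with
  | C a => simp [line, Polynomial.algebraMap_apply]
  | add p q hp hq => simp only [map_add, hp, hq]
  | mul_X p i hp =>
    rw [map_mul, Polynomial.derivative_mul, hp, pderiv_mul, map_add, map_mul, map_mul]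
    congr 1
    by_cases h : i = j
    · subst h; simp [line]
    · simp [line, h, pderiv_X_of_ne h]

theorem eval_E (j : σ) (p : MvPolynomial σ ℝ) (x : σ → ℝ) :
    eval x (E j p) = eval (Function.update x j 0) (pderiv j p) := by
  unfold E sub0
  induction (pderiv j p) using MvPolynomial.induction_on with
  | C a => simp
  | add p q hp hq => simp only [map_add, hp, hq]
  | mul_X p i hp =>
    rw [map_mul, map_mul, map_mul, hp]
    congr 1
    by_cases h : i = j
    · subst h; simp
    · simp [h]

theorem aeval_E (j : σ) (p : MvPolynomial σ ℝ) (x : σ → ℂ) :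
    aeval x (E j p) = aeval (Function.update x j 0) (pderiv j p) := by
  unfold E sub0
  induction (pderiv j p) using MvPolynomial.induction_on with
  | C a => simp
  | add p q hp hq => simp only [map_add, hp, hq]
  | mul_X p i hp =>
    rw [map_mul, map_mul, map_mul, hp]
    congr 1
    by_cases h : i = j
    · subst h; simp
    · simp [h]

theorem coeff_prod_aux {K : Type} [Field K] (z x : σ → K) (m : σ → ℕ) (s : Finset σ) :
    (∏ i ∈ s, (Polynomial.C (z i) + Polynomial.X * Polynomial.C (x i)) ^ m i).natDegree
      ≤ ∑ i ∈ s, m i ∧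
    (∏ i ∈ s, (Polynomial.C (z i) + Polynomial.X * Polynomial.C (x i)) ^ m i).coeff
      (∑ i ∈ s, m i) = ∏ i ∈ s, x i ^ m i := by
  have h1 : ∀ i, (Polynomial.C (z i) + Polynomial.X * Polynomial.C (x i)).natDegree ≤ 1 := by
    intro i
    have : Polynomial.C (z i) + Polynomial.X * Polynomial.C (x i) =
        Polynomial.C (x i) * Polynomial.X + Polynomial.C (z i) := by ring
    rw [this]
    exact Polynomial.natDegree_linear_le
  have h2 : ∀ i, ((Polynomial.C (z i) + Polynomial.X * Polynomial.C (x i)) ^ m i).natDegree
      ≤ m i := by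
    intro i
    exact (Polynomial.natDegree_pow_le_of_le (m i) (h1 i)).trans (by simp)
  have h3 : ∀ i, ((Polynomial.C (z i) + Polynomial.X * Polynomial.C (x i)) ^ m i).coeff (m i)
      = x i ^ m i := by
    intro i
    have h := Polynomial.coeff_pow_of_natDegree_le (m := m i) (h1 i)
    rw [mul_one] at h
    rw [h]
    simp
  induction s using Finset.induction_on with
  | empty => simp
  | insert a s ha ih =>
    rw [Finset.prod_insert ha, Finset.sum_insert ha, Finset.prod_insert ha]
    refine ⟨Polynomial.natDegree_mul_le_of_le (h2 a) ih.1, ?_⟩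
    rw [Polynomial.coeff_mul_add_eq_of_natDegree_le (h2 a) ih.1, h3, ih.2]

theorem coeff_top_aux {n : ℕ} {p : MvPolynomial σ ℝ} (hh : p.IsHomogeneous n)
    (z : σ → ℂ) (x : σ → ℝ) :
    (aeval (fun i => Polynomial.C (z i) + Polynomial.X * Polynomial.C ((x i : ℝ) : ℂ)) p :
      Polynomial ℂ).natDegree ≤ n ∧
    (aeval (fun i => Polynomial.C (z i) + Polynomial.X * Polynomial.C ((x i : ℝ) : ℂ)) p :
      Polynomial ℂ).coeff n = ((eval x p : ℝ) : ℂ) := by
  have hdeg : ∀ m ∈ p.support, ∑ i ∈ m.support, m i = n := fun m hm =>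
    (hh.degree_eq_sum_deg_support hm).symm
  have key : ∀ m ∈ p.support,
      (algebraMap ℝ (Polynomial ℂ) (coeff m p) *
        ∏ i ∈ m.support, (Polynomial.C (z i) + Polynomial.X * Polynomial.C ((x i : ℝ) : ℂ)) ^ m i
          ).natDegree ≤ n ∧
      (algebraMap ℝ (Polynomial ℂ) (coeff m p) *
        ∏ i ∈ m.support, (Polynomial.C (z i) + Polynomial.X * Polynomial.C ((x i : ℝ) : ℂ)) ^ m i
          ).coeff n = ((coeff m p * ∏ i ∈ m.support, x i ^ m i : ℝ) : ℂ) := by
    intro m hm
    obtain ⟨h1, h2⟩ := coeff_prod_aux z (fun i => ((x i : ℝ) : ℂ)) (fun i => m i) m.support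
    rw [hdeg m hm] at h1 h2
    have h3 : algebraMap ℝ (Polynomial ℂ) (coeff m p) = Polynomial.C ((coeff m p : ℝ) : ℂ) := rfl
    rw [h3]
    refine ⟨(Polynomial.natDegree_C_mul_le _ _).trans h1, ?_⟩
    rw [Polynomial.coeff_C_mul, h2]
    push_cast
    rfl
  rw [aeval_def, eval₂_eq, eval_eq]
  constructor
  · exact Polynomial.natDegree_sum_le_of_forall_le _ _ fun m hm => (key m hm).1
  · rw [Polynomial.finsetSum_coeff]
    push_cast
    refine Finset.sum_congr rfl fun m hm => ?_
    rw [(key m hm).2]
    push_cast
    rfl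

theorem aeval_line_eval (z x : σ → ℂ) (p : MvPolynomial σ ℝ) (t : ℂ) :
    (aeval (fun i => Polynomial.C (z i) + Polynomial.X * Polynomial.C (x i)) p :
      Polynomial ℂ).eval t = aeval (fun i => z i + t * x i) p := by
  induction p using MvPolynomial.induction_on with
  | C a => simp [Polynomial.algebraMap_apply]
  | add p q hp hq => rw [map_add, Polynomial.eval_add, hp, hq, map_add]
  | mul_X p i hp =>
    rw [map_mul, Polynomial.eval_mul, hp, map_mul]
    congr 1
    simp only [Polynomial.eval_add, Polynomial.eval_mul, Polynomial.eval_C, Polynomial.eval_X,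
      aeval_X]

/-- The basic inequality `|p(z)| ≥ p(Re z)` in the open right half space. -/
theorem S_open {n : ℕ} {p : MvPolynomial σ ℝ} (hn : NN p) (hh : p.IsHomogeneous n)
    (hs : HStable p) (z : σ → ℂ) (hz : ∀ i, 0 < (z i).re) :
    eval (fun i => (z i).re) p ≤ ‖aeval z p‖ := by
  have hp0 : p ≠ 0 := by
    rintro rfl
    exact hs z hz (by simp)
  set f : Polynomial ℂ :=
    aeval (fun i => Polynomial.C (z i) + Polynomial.X * Polynomial.C (((z i).re : ℝ) : ℂ)) p
    with hf
  obtain ⟨h1, h2⟩ := coeff_top_aux hh z (fun i => (z i).re)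
  rw [← hf] at h1 h2
  have hpos : 0 < eval (fun i => (z i).re) p := hn.eval_pos hp0 hz
  have hc : f.coeff n ≠ 0 := by
    rw [h2]
    exact_mod_cast hpos.ne'
  have hdeg : f.natDegree = n := le_antisymm h1 (Polynomial.le_natDegree_of_ne_zero hc)
  have hlc : f.leadingCoeff = ((eval (fun i => (z i).re) p : ℝ) : ℂ) := by
    rw [Polynomial.leadingCoeff, hdeg, h2]
  have hf0 : f.eval 0 = aeval z p := by
    rw [hf, aeval_line_eval]
    simp
  have hroots : ∀ a ∈ f.roots, 1 ≤ ‖a‖ := by
    intro a ha
    have ha' : f.eval a = 0 := (Polynomial.mem_roots'.1 ha).2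
    rw [hf, aeval_line_eval] at ha'
    by_contra hcon
    push Not at hcon
    refine hs _ ?_ ha'
    intro i
    have h3 : (z i + a * (((z i).re : ℝ) : ℂ)).re = (z i).re * (1 + a.re) := by
      simp; ring
    rw [h3]
    refine mul_pos (hz i) ?_
    have h4 := Complex.abs_re_le_norm a
    have h5 := abs_le.1 h4
    linarith [h5.1]
  have hsplit := (IsAlgClosed.splits f).eq_prod_roots
  have heval : aeval z p = f.leadingCoeff * (f.roots.map (fun a => 0 - a)).prod := by
    rw [← hf0]
    conv_lhs => rw [hsplit]
    rw [Polynomial.eval_mul, Polynomial.eval_C, Polynomial.eval_multiset_prod, Multiset.map_map]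
    congr 3
    ext a
    simp
  rw [heval, norm_mul, hlc, Complex.norm_real, Real.norm_of_nonneg hpos.le]
  have hprod : 1 ≤ ‖(f.roots.map (fun a => 0 - a)).prod‖ := by
    have : ∀ s : Multiset ℂ, (∀ a ∈ s, 1 ≤ ‖a‖) → 1 ≤ ‖(s.map (fun a => 0 - a)).prod‖ := by
      intro s
      induction s using Multiset.induction_on with
      | empty => intro _; simp
      | cons a s ih =>
        intro h
        rw [Multiset.map_cons, Multiset.prod_cons, norm_mul]
        have h1 := h a (Multiset.mem_cons_self _ _)
        have h2 := ih fun b hb => h b (Multiset.mem_cons_of_mem hb)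
        have h3 : ‖0 - a‖ = ‖a‖ := by simp
        rw [h3]
        exact one_le_mul_of_one_le_of_one_le h1 h2
    exact this _ hroots
  exact le_mul_of_one_le_right hpos.le hprod

theorem aeval_ofReal (p : MvPolynomial σ ℝ) (x : σ → ℝ) :
    aeval (fun i => ((x i : ℝ) : ℂ)) p = ((eval x p : ℝ) : ℂ) := by
  induction p using MvPolynomial.induction_on with
  | C a => simp
  | add p q hp hq => rw [map_add, hp, hq, map_add]; push_cast; rfl
  | mul_X p i hp => rw [map_mul, hp, map_mul]; simp

/-- The derivative of a stable polynomial has no zero in the open right half space. -/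
theorem HStable.pderiv {n : ℕ} {p : MvPolynomial σ ℝ} (hn : NN p) (hh : p.IsHomogeneous n)
    (hs : HStable p) (j : σ) (hD : pderiv j p ≠ 0) : HStable (pderiv j p) := by
  intro z hz hzero
  set f : Polynomial ℂ := line z j p with hf
  have hder : f.derivative.eval (z j) = 0 := by
    rw [hf, line_deriv, line_eval, Function.update_eq_self]
    exact hzero
  by_cases hdeg : 0 < f.degree
  · have h1 := Polynomial.rootSet_derivative_subset_convexHull_rootSet hdeg
    have hfd : f.derivative ≠ 0 := by
      intro h0
      have := Polynomial.derivative_eq_zero.1 h0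
      rw [Polynomial.natDegree_eq_zero_iff_degree_le_zero] at this
      exact absurd hdeg (not_lt.2 this)
    have h2 : z j ∈ f.derivative.rootSet ℂ := by
      rw [Polynomial.mem_rootSet]
      exact ⟨hfd, by simpa using hder⟩
    have h3 := h1 h2
    have hsub : f.rootSet ℂ ⊆ {w : ℂ | w.re ≤ 0} := by
      intro w hw
      rw [Polynomial.mem_rootSet] at hw
      have hw2 : f.eval w = 0 := by simpa using hw.2
      rw [hf, line_eval] at hw2
      by_contra hcon
      simp only [Set.mem_ofPred_eq, not_le] at hcon
      refine hs _ ?_ hw2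
      intro i
      by_cases h : i = j
      · subst h; simpa using hcon
      · simpa [h] using hz i
    have hconv : Convex ℝ {w : ℂ | w.re ≤ 0} := by
      have := convex_halfSpace_le (𝕜 := ℝ) (f := fun w : ℂ => w.re)
        ⟨fun a b => by simp, fun c a => by simp⟩ 0
      exact this
    have h4 := (convexHull_min hsub hconv) h3
    simp only [Set.mem_ofPred_eq] at h4
    exact absurd (hz j) (not_lt.2 h4)
  · -- `f` is constant
    have hconst : f = Polynomial.C (f.coeff 0) :=
      Polynomial.eq_C_of_degree_le_zero (not_lt.1 hdeg)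
    set x : σ → ℝ := fun i => (z i).re with hx
    set r : Polynomial ℝ := line x j p with hr
    have hbound : ∀ t : ℝ, 0 < t → r.eval t ≤ ‖f.coeff 0‖ := by
      intro t ht
      have h1 : f.eval ((t : ℝ) : ℂ) = f.coeff 0 := by
        rw [hconst]; simp
      rw [← h1, hf, line_eval z j p, hr, line_eval_real]
      have h2 := S_open hn hh hs (Function.update z j (t : ℂ)) (by
        intro i
        by_cases h : i = j
        · subst h; simpa using ht
        · simpa [h] using hz i)
      refine le_trans (le_of_eq ?_) h2
      congr 2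
      ext i
      by_cases h : i = j
      · subst h; simp
      · simp [h, hx]
    have hrpos : ∀ t : ℝ, 0 < t → 0 < r.eval t := by
      intro t ht
      rw [hr, line_eval_real]
      refine hn.eval_pos (by rintro rfl; exact hD (by simp)) ?_
      intro i
      by_cases h : i = j
      · subst h; simpa using ht
      · simpa [h] using hz i
    have hrd : r.derivative.eval 1 ≠ 0 := by
      rw [hr, line_deriv, line_eval_real]
      refine ((hn.pderiv j).eval_pos hD ?_).ne'
      intro i
      by_cases h : i = j
      · subst h; simp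
      · simpa [h] using hz i
    have hrdeg : 0 < r.degree := by
      by_contra hcon
      have : r = Polynomial.C (r.coeff 0) := Polynomial.eq_C_of_degree_le_zero (not_lt.1 hcon)
      rw [this] at hrd
      simp at hrd
    rcases le_total 0 r.leadingCoeff with hlc | hlc
    · have htend := Polynomial.tendsto_atTop_of_leadingCoeff_nonneg r hrdeg hlc
      obtain ⟨t, ht1, ht2⟩ := ((htend.eventually_gt_atTop ‖f.coeff 0‖).and
        (Filter.eventually_gt_atTop 0)).exists
      exact absurd (hbound t ht2) (not_le.2 ht1)
    · have htend := Polynomial.tendsto_atBot_of_leadingCoeff_nonpos r hrdeg hlc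
      obtain ⟨t, ht1, ht2⟩ := ((htend.eventually_lt_atBot 0).and
        (Filter.eventually_gt_atTop 0)).exists
      exact absurd (hrpos t ht2) (not_lt.2 ht1.le)

/-- The basic inequality with one coordinate equal to zero. -/
theorem S_zero {n : ℕ} {p : MvPolynomial σ ℝ} (hn : NN p) (hh : p.IsHomogeneous n)
    (hs : HStable p) (z : σ → ℂ) (hz : ∀ i, 0 < (z i).re) (j : σ) :
    eval (Function.update (fun i => (z i).re) j 0) p ≤ ‖aeval (Function.update z j 0) p‖ := by
  have h1 : ∀ t : ℝ, 0 < t → (line (fun i => (z i).re) j p).eval t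
      ≤ ‖(line z j p).eval ((t : ℝ) : ℂ)‖ := by
    intro t ht
    have h2 := S_open hn hh hs (Function.update z j (t : ℂ)) (by
        intro i
        by_cases h : i = j
        · subst h; simpa using ht
        · simpa [h] using hz i)
    rw [line_eval_real, line_eval]
    refine le_trans (le_of_eq ?_) h2
    congr 2
    ext i
    by_cases h : i = j
    · subst h; simp
    · simp [h]
  have c1 : Filter.Tendsto (fun t : ℝ => (line (fun i => (z i).re) j p).eval t)
      (nhdsWithin 0 (Set.Ioi 0)) (nhds ((line (fun i => (z i).re) j p).eval 0)) :=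
    (Polynomial.continuous _).continuousAt.tendsto.mono_left nhdsWithin_le_nhds
  have c2 : Filter.Tendsto (fun t : ℝ => ‖(line z j p).eval ((t : ℝ) : ℂ)‖)
      (nhdsWithin 0 (Set.Ioi 0)) (nhds ‖(line z j p).eval ((0 : ℝ) : ℂ)‖) := by
    have : Continuous (fun t : ℝ => ‖(line z j p).eval ((t : ℝ) : ℂ)‖) :=
      ((Polynomial.continuous _).comp Complex.continuous_ofReal).norm
    exact this.continuousAt.tendsto.mono_left nhdsWithin_le_nhds
  have h3 := le_of_tendsto_of_tendsto c1 c2 (by
    filter_upwards [self_mem_nhdsWithin] with t ht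
    exact h1 t ht)
  rw [line_eval_real, line_eval] at h3
  simpa using h3

theorem Stab.E {n : ℕ} {p : MvPolynomial σ ℝ} (h : Stab n p) (j : σ) : Stab (n - 1) (E j p) := by
  refine ⟨h.nn.E j, hom_E h.hom j, ?_⟩
  by_cases h0 : Pool.Agent.H37.E j p = 0
  · exact Or.inl h0
  right
  have hp0 : p ≠ 0 := by
    rintro rfl
    exact h0 (by simp [Pool.Agent.H37.E])
  have hD : MvPolynomial.pderiv j p ≠ 0 := by
    intro hD
    exact h0 (by simp [Pool.Agent.H37.E, hD])
  have hs := h.st.resolve_left hp0
  have hDs := HStable.pderiv h.nn h.hom hs j hD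
  intro z hz hzero
  have h1 := S_zero (h.nn.pderiv j) (h.hom.pderiv) hDs z hz j
  rw [← aeval_E, hzero, ← eval_E] at h1
  have h2 := (h.nn.E j).eval_pos h0 hz
  simp at h1
  exact absurd h2 (not_lt.2 h1)

end Pool.Agent.H37
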