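import Mathlib
import Pool.Agent.H37.StabClosure

set_option autoImplicit false
set_option linter.unusedSectionVars false

namespace Pool.Agent.H37

open MvPolynomial

variable {σ : Type} [DecidableEq σ]

/-- Gurvits' constant. -/
noncomputable def Gc (d : ℕ) : ℝ := (((d : ℝ) - 1) / d) ^ (d - 1)

theorem Gc_pos {d : ℕ} (hd : 2 ≤ d) : 0 < Gc d := by
  have h : (2 : ℝ) ≤ d := by exact_mod_cast hd
  unfold Gc
  apply pow_pos
  apply div_pos <;> linarith

theorem Gc_le_one {d : ℕ} (hd : 2 ≤ d) : Gc d ≤ 1 := by
  have h : (2 : ℝ) ≤ d := by exact_mod_cast hd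
  unfold Gc
  apply pow_le_one₀
  · apply div_nonneg <;> linarith
  · rw [div_le_one (by linarith)]; linarith

/-- Value at `0` and first coefficient of a product of `1 + u X`. -/
theorem prod_coeffs (s : Multiset ℝ) :
    ((s.map (fun u => 1 + Polynomial.C u * Polynomial.X)).prod : Polynomial ℝ).coeff 0 = 1 ∧
    ((s.map (fun u => 1 + Polynomial.C u * Polynomial.X)).prod : Polynomial ℝ).coeff 1 = s.sum := by
  induction s using Multiset.induction_on with
  | empty => simp [Polynomial.coeff_one]
  | cons a s ih =>
    rw [Multiset.map_cons, Multiset.prod_cons, Multiset.sum_cons]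
    constructor
    · rw [Polynomial.mul_coeff_zero, ih.1]; simp
    · rw [Polynomial.coeff_mul]
      rw [show Finset.HasAntidiagonal.antidiagonal 1 = {((0 : ℕ), 1), (1, 0)} by rfl]
      rw [Finset.sum_insert (by simp), Finset.sum_singleton]
      simp only [ih.1, ih.2]
      simp [add_comm, Polynomial.coeff_one]

theorem prod_eval_le (s : Multiset ℝ) (hs : ∀ u ∈ s, 0 ≤ u) (x0 t : ℝ) (hx0 : 0 < x0)
    (ht : 0 ≤ t) :
    ((s.map (fun u => 1 + Polynomial.C u * Polynomial.X)).prod : Polynomial ℝ).eval t
      ≤ (1 + x0) ^ (Multiset.card s) *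
        Real.exp ((t * s.sum - Multiset.card s * x0) / (1 + x0)) := by
  induction s using Multiset.induction_on with
  | empty => simp
  | cons a s ih =>
    rw [Multiset.map_cons, Multiset.prod_cons, Multiset.sum_cons, Polynomial.eval_mul,
      Multiset.card_cons]
    have ha := hs a (Multiset.mem_cons_self _ _)
    have ih' := ih fun b hb => hs b (Multiset.mem_cons_of_mem hb)
    have h1 : (1 + Polynomial.C a * Polynomial.X : Polynomial ℝ).eval t = 1 + a * t := by simp
    rw [h1]
    have h2 : 1 + a * t ≤ (1 + x0) * Real.exp ((a * t - x0) / (1 + x0)) := by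
      have h3 := Real.add_one_le_exp ((a * t - x0) / (1 + x0))
      have h4 : 1 + a * t = (1 + x0) * ((a * t - x0) / (1 + x0) + 1) := by
        field_simp
        ring
      rw [h4]
      exact mul_le_mul_of_nonneg_left h3 (by linarith)
    have h5 : 0 ≤ 1 + a * t := by positivity
    have h6 : (0 : ℝ) ≤ (1 + x0) ^ (Multiset.card s) *
        Real.exp ((t * s.sum - Multiset.card s * x0) / (1 + x0)) := by positivity
    calc (1 + a * t) * _ ≤ (1 + a * t) * ((1 + x0) ^ (Multiset.card s) *
        Real.exp ((t * s.sum - Multiset.card s * x0) / (1 + x0))) :=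
          mul_le_mul_of_nonneg_left ih' h5
      _ ≤ ((1 + x0) * Real.exp ((a * t - x0) / (1 + x0))) * ((1 + x0) ^ (Multiset.card s) *
        Real.exp ((t * s.sum - Multiset.card s * x0) / (1 + x0))) :=
          mul_le_mul_of_nonneg_right h2 h6
      _ = (1 + x0) ^ (Multiset.card s + 1) * (Real.exp ((a * t - x0) / (1 + x0)) *
          Real.exp ((t * s.sum - Multiset.card s * x0) / (1 + x0))) := by ring
      _ = _ := by
        rw [← Real.exp_add]
        congr 2
        push_cast
        ring

/-- The univariate inequality for a product of linear factors. -/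
theorem univ_prod {d : ℕ} (hd : 2 ≤ d) (s : Multiset ℝ) (hs : ∀ u ∈ s, 0 ≤ u)
    (hcard : Multiset.card s ≤ d) (R0 κ : ℝ) (hR0 : 0 ≤ R0) (hκ : 0 ≤ κ)
    (h : ∀ t : ℝ, 0 < t → κ * t ≤
      R0 * ((s.map (fun u => 1 + Polynomial.C u * Polynomial.X)).prod : Polynomial ℝ).eval t) :
    Gc d * κ ≤ R0 * s.sum := by
  have hd' : (2 : ℝ) ≤ d := by exact_mod_cast hd
  have hsum : 0 ≤ s.sum := Multiset.sum_nonneg hs
  rcases hsum.eq_or_lt with h0 | hpos
  · -- all `u` vanish
    have hall : ∀ t : ℝ, 0 < t → κ * t ≤ R0 * Real.exp 1 := by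
      intro t ht
      refine (h t ht).trans ?_
      refine mul_le_mul_of_nonneg_left ?_ hR0
      -- use x0 small? every factor equals one
      have hz : ∀ u ∈ s, u = 0 := by
        intro u hu
        have h1 := Multiset.single_le_sum hs u hu
        linarith [hs u hu]
      have hone : ((s.map (fun u => 1 + Polynomial.C u * Polynomial.X)).prod :
          Polynomial ℝ).eval t = 1 := by
        have : s.map (fun u => (1 + Polynomial.C u * Polynomial.X : Polynomial ℝ))
            = s.map (fun _ => (1 : Polynomial ℝ)) :=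
          Multiset.map_congr rfl (fun u hu => by rw [hz u hu]; simp)
        rw [this]; simp
      rw [hone]
      exact Real.one_le_exp (by norm_num)
    have hκ0 : κ = 0 := by
      by_contra hne
      have hκpos : 0 < κ := lt_of_le_of_ne hκ (Ne.symm hne)
      have h1 := hall ((R0 * Real.exp 1 + 1) / κ) (by positivity)
      rw [mul_div_cancel₀ _ hne] at h1
      linarith
    rw [hκ0, ← h0]; simp
  · set x0 : ℝ := 1 / ((d : ℝ) - 1) with hx0
    have hx0pos : 0 < x0 := by
      rw [hx0]; apply div_pos one_pos; linarith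
    set t : ℝ := d * x0 / s.sum with ht
    have htpos : 0 < t := by positivity
    have h1 := h t htpos
    have h2 := prod_eval_le s hs x0 t hx0pos htpos.le
    have h3 : t * s.sum = d * x0 := by rw [ht]; field_simp
    rw [h3] at h2
    have h4 : (1 + x0) ^ (Multiset.card s) *
        Real.exp ((d * x0 - Multiset.card s * x0) / (1 + x0)) ≤ (1 + x0) ^ d := by
      obtain ⟨k, hk⟩ := Nat.exists_eq_add_of_le hcard
      have h5 : ((d : ℝ) * x0 - Multiset.card s * x0) / (1 + x0) = k * (x0 / (1 + x0)) := by
        have : (d : ℝ) = Multiset.card s + k := by exact_mod_cast hk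
        rw [this]; ring
      rw [h5, Real.exp_nat_mul]
      conv_rhs => rw [hk, pow_add]
      refine mul_le_mul_of_nonneg_left ?_ (by positivity)
      refine pow_le_pow_left₀ (Real.exp_nonneg _) ?_ k
      have h6 := Real.add_one_le_exp (-(x0 / (1 + x0)))
      have h7 : -(x0 / (1 + x0)) + 1 = 1 / (1 + x0) := by field_simp; ring
      rw [h7, Real.exp_neg] at h6
      have h8 : 0 < Real.exp (x0 / (1 + x0)) := Real.exp_pos _
      rw [one_div] at h6
      exact (inv_le_inv₀ (by positivity) h8).1 h6
    have h5 : κ * t ≤ R0 * (1 + x0) ^ d :=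
      h1.trans (mul_le_mul_of_nonneg_left (h2.trans h4) hR0)
    -- conclude
    have h6 : κ * (d * x0) ≤ R0 * s.sum * (1 + x0) ^ d := by
      have := mul_le_mul_of_nonneg_right h5 hpos.le
      calc κ * (d * x0) = κ * t * s.sum := by rw [mul_assoc, h3]
        _ ≤ R0 * (1 + x0) ^ d * s.sum := this
        _ = _ := by ring
    have h7 : 1 + x0 = (d : ℝ) / (d - 1) := by
      rw [hx0]; field_simp [show (d : ℝ) - 1 ≠ 0 by linarith]; ring
    have hd1 : (0 : ℝ) < d - 1 := by linarith
    have h8 : Gc d * (1 + x0) ^ d = d * x0 := by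
      unfold Gc
      obtain ⟨e, rfl⟩ : ∃ e, d = e + 1 := ⟨d - 1, by omega⟩
      rw [h7, pow_succ, hx0]
      simp only [Nat.add_sub_cancel]
      rw [← mul_assoc, ← mul_pow]
      have : (((e + 1 : ℕ) : ℝ) - 1) / ((e + 1 : ℕ) : ℝ) * (((e + 1 : ℕ) : ℝ) / (((e + 1 : ℕ) : ℝ) - 1)) = 1 := by
        field_simp
      rw [this, one_pow, one_mul]
      ring
    have h9 : 0 < (1 + x0) ^ d := by positivity
    have h10 : Gc d * κ * (1 + x0) ^ d ≤ R0 * s.sum * (1 + x0) ^ d := by
      calc Gc d * κ * (1 + x0) ^ d = κ * (Gc d * (1 + x0) ^ d) := by ring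
        _ = κ * (d * x0) := by rw [h8]
        _ ≤ _ := h6
    exact le_of_mul_le_mul_right h10 h9

/-- Factorisation of a real polynomial all of whose complex roots are real and nonpositive. -/
theorem factor_real (R : Polynomial ℝ) (hR : R.coeff 0 ≠ 0)
    (hroots : ∀ τ : ℂ, (R.map Complex.ofRealHom).eval τ = 0 → τ.im = 0 ∧ τ.re ≤ 0) :
    ∃ s : Multiset ℝ, (∀ u ∈ s, 0 ≤ u) ∧ Multiset.card s = R.natDegree ∧
      R = Polynomial.C (R.coeff 0) *
        (s.map (fun u => 1 + Polynomial.C u * Polynomial.X)).prod := by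
  set P : Polynomial ℂ := R.map Complex.ofRealHom with hP
  have hR0 : R ≠ 0 := by rintro rfl; simp at hR
  have hP0 : P ≠ 0 := by
    rw [hP]; exact (Polynomial.map_ne_zero_iff Complex.ofRealHom.injective).2 hR0
  have hsplit := (IsAlgClosed.splits P).eq_prod_roots
  have hcard : Multiset.card P.roots = R.natDegree := by
    rw [← (IsAlgClosed.splits P).natDegree_eq_card_roots, hP, Polynomial.natDegree_map]
  have hre : ∀ τ ∈ P.roots, τ.im = 0 ∧ τ.re < 0 := by
    intro τ hτ
    have h1 : P.eval τ = 0 := (Polynomial.mem_roots'.1 hτ).2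
    obtain ⟨h2, h3⟩ := hroots τ h1
    refine ⟨h2, lt_of_le_of_ne h3 ?_⟩
    intro h4
    have : τ = 0 := Complex.ext (by simpa using h4) (by simpa using h2)
    rw [this, ← Polynomial.coeff_zero_eq_eval_zero, hP, Polynomial.coeff_map] at h1
    exact hR (by simpa using h1)
  refine ⟨P.roots.map (fun τ => -(1 / τ.re)), ?_, by rw [Multiset.card_map, hcard], ?_⟩
  · intro u hu
    obtain ⟨τ, hτ, rfl⟩ := Multiset.mem_map.1 hu
    have := (hre τ hτ).2
    rw [neg_nonneg]
    exact div_nonpos_of_nonneg_of_nonpos zero_le_one this.le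
  · apply Polynomial.map_injective Complex.ofRealHom Complex.ofRealHom.injective
    rw [Polynomial.map_mul, Polynomial.map_multiset_prod, Multiset.map_map, Multiset.map_map,
      Polynomial.map_C, ← hP]
    -- every factor
    have key : ∀ s : Multiset ℂ, (∀ τ ∈ s, τ.im = 0 ∧ τ.re < 0) →
        (s.map (fun τ => Polynomial.X - Polynomial.C τ)).prod =
          Polynomial.C ((s.map (fun τ => -τ)).prod) *
          (s.map ((Polynomial.map Complex.ofRealHom ∘ fun u =>
            1 + Polynomial.C u * Polynomial.X) ∘ fun τ : ℂ => -(1 / τ.re))).prod := by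
      intro s
      induction s using Multiset.induction_on with
      | empty => intro _; simp
      | cons a s ih =>
        intro h
        have ha := h a (Multiset.mem_cons_self _ _)
        have ih' := ih fun b hb => h b (Multiset.mem_cons_of_mem hb)
        rw [Multiset.map_cons, Multiset.prod_cons, Multiset.map_cons, Multiset.prod_cons,
          Multiset.map_cons, Multiset.prod_cons, ih']
        have ha0 : (a.re : ℂ) ≠ 0 := by exact_mod_cast ha.2.ne
        have haa : a = (a.re : ℂ) := Complex.ext (by simp) (by simpa using ha.1)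
        have h1 : (Polynomial.X - Polynomial.C a : Polynomial ℂ) =
            Polynomial.C (-a) * ((Polynomial.map Complex.ofRealHom ∘ fun u =>
            1 + Polynomial.C u * Polynomial.X) ∘ fun τ : ℂ => -(1 / τ.re)) a := by
          simp only [Function.comp_apply, Polynomial.map_add, Polynomial.map_one,
            Polynomial.map_mul, Polynomial.map_C, Polynomial.map_X]
          rw [mul_add, mul_one, ← mul_assoc, ← Polynomial.C_mul]
          have h2 : -a * Complex.ofRealHom (-(1 / a.re)) = 1 := by
            rw [haa]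
            simp only [Complex.ofReal_re, Complex.ofRealHom_eq_coe]
            push_cast
            field_simp
          rw [h2]
          simp
          ring
        rw [h1, Polynomial.C_mul]
        ring
    have hk := key P.roots hre
    have h0 : Complex.ofRealHom (R.coeff 0) = P.leadingCoeff * (P.roots.map (fun τ => -τ)).prod := by
      have h1 : P.coeff 0 = Complex.ofRealHom (R.coeff 0) := by rw [hP, Polynomial.coeff_map]
      rw [← h1, Polynomial.coeff_zero_eq_eval_zero]
      conv_lhs => rw [hsplit]
      rw [Polynomial.eval_mul, Polynomial.eval_C, Polynomial.eval_multiset_prod, Multiset.map_map]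
      congr 3
      ext a
      simp
    rw [h0, Polynomial.C_mul, mul_assoc, ← hk, ← hsplit]

end Pool.Agent.H37
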