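import Mathlib
import Pool.Agent.H37.Gurvits

set_option autoImplicit false
set_option linter.unusedSectionVars false

namespace Pool.Agent.H37

open MvPolynomial

variable {σ : Type} [DecidableEq σ]

theorem line_natDegree_le {K : Type} [Field K] [Algebra ℝ K] (z : σ → K) (j : σ)
    (p : MvPolynomial σ ℝ) : (line z j p).natDegree ≤ degreeOf j p := by
  unfold line
  rw [aeval_def, eval₂_eq]
  refine Polynomial.natDegree_sum_le_of_forall_le _ _ fun m hm => ?_
  have h0 : m j ≤ degreeOf j p := by
    rw [degreeOf_eq_sup]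
    exact Finset.le_sup (f := fun m => m j) hm
  refine le_trans ?_ h0
  have h1 : algebraMap ℝ (Polynomial K) (coeff m p) = Polynomial.C (algebraMap ℝ K (coeff m p)) :=
    rfl
  rw [h1]
  refine (Polynomial.natDegree_C_mul_le _ _).trans ?_
  refine (Polynomial.natDegree_prod_le _ _).trans ?_
  have h2 : ∀ i ∈ m.support, ((if i = j then (Polynomial.X : Polynomial K)
      else Polynomial.C (z i)) ^ m i).natDegree ≤ if i = j then m j else 0 := by
    intro i _
    by_cases h : i = j
    · subst h; simp
    · simp only [h, if_false]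
      rw [← Polynomial.C_pow]
      simp
  refine (Finset.sum_le_sum h2).trans ?_
  rw [Finset.sum_ite_eq']
  split_ifs <;> simp

theorem line_map (x : σ → ℝ) (j : σ) (p : MvPolynomial σ ℝ) :
    (line x j p).map Complex.ofRealHom = line (fun i => ((x i : ℝ) : ℂ)) j p := by
  induction p using MvPolynomial.induction_on with
  | C a => simp [line, Polynomial.algebraMap_apply]
  | add p q hp hq => rw [map_add, Polynomial.map_add, hp, hq, map_add]
  | mul_X p i hp =>
    rw [map_mul, Polynomial.map_mul, hp, map_mul]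
    congr 1
    by_cases h : i = j
    · subst h; simp [line]
    · simp [line, h]

theorem aeval_scale {n : ℕ} {p : MvPolynomial σ ℝ} (hh : p.IsHomogeneous n) (c : ℂ)
    (z : σ → ℂ) : aeval (fun i => c * z i) p = c ^ n * aeval z p := by
  rw [aeval_def, aeval_def, eval₂_eq, eval₂_eq, Finset.mul_sum]
  refine Finset.sum_congr rfl fun m hm => ?_
  have hdeg : ∑ i ∈ m.support, m i = n := (hh.degree_eq_sum_deg_support hm).symm
  simp only [mul_pow]
  rw [Finset.prod_mul_distrib, Finset.prod_pow_eq_pow_sum, hdeg]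
  ring

theorem root_real {n : ℕ} {p : MvPolynomial σ ℝ} (hh : p.IsHomogeneous n) (hs : HStable p)
    (j : σ) (x : σ → ℝ) (hx : ∀ i, i ≠ j → 0 < x i) (τ : ℂ)
    (hτ : ((line x j p).map Complex.ofRealHom).eval τ = 0) : τ.im = 0 ∧ τ.re ≤ 0 := by
  by_contra hcon
  rw [line_map, line_eval] at hτ
  have hslit : τ ∈ Complex.slitPlane := by
    rw [Complex.mem_slitPlane_iff]
    by_contra h
    push Not at h
    exact hcon ⟨h.2, h.1⟩
  obtain ⟨harg, hτ0⟩ := Complex.mem_slitPlane_iff_arg.1 hslit
  set θ := τ.arg with hθ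
  have h1 : θ < Real.pi := lt_of_le_of_ne (Complex.arg_le_pi τ) harg
  have h2 : -Real.pi < θ := Complex.neg_pi_lt_arg τ
  have hcos : 0 < Real.cos (θ / 2) := by
    apply Real.cos_pos_of_mem_Ioo
    constructor <;> linarith
  set c : ℂ := Complex.exp (((-(θ / 2) : ℝ) : ℂ) * Complex.I) with hc
  have hcre : c.re = Real.cos (θ / 2) := by
    rw [hc, Complex.exp_ofReal_mul_I_re, Real.cos_neg]
  have hcτ : c * τ = (‖τ‖ : ℂ) * Complex.exp (((θ / 2 : ℝ) : ℂ) * Complex.I) := by
    conv_lhs => rw [← Complex.norm_mul_exp_arg_mul_I τ]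
    rw [hc, mul_left_comm, ← Complex.exp_add]
    congr 2
    rw [← hθ]
    push_cast
    ring
  have hcτre : 0 < (c * τ).re := by
    rw [hcτ, Complex.re_ofReal_mul, Complex.exp_ofReal_mul_I_re]
    exact mul_pos (norm_pos_iff.2 hτ0) hcos
  have h3 := aeval_scale hh c (Function.update (fun i => ((x i : ℝ) : ℂ)) j τ)
  rw [hτ, mul_zero] at h3
  refine hs _ ?_ h3
  intro i
  by_cases h : i = j
  · subst h
    simpa using hcτre
  · simp only [Function.update_of_ne h]
    rw [mul_comm, Complex.re_ofReal_mul, hcre]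
    exact mul_pos (hx i h) hcos

theorem eval_E_eq_coeff (j : σ) (p : MvPolynomial σ ℝ) (x : σ → ℝ) :
    eval x (E j p) = (line x j p).coeff 1 := by
  rw [eval_E, ← line_eval_real, ← line_deriv, ← Polynomial.coeff_zero_eq_eval_zero,
    Polynomial.coeff_derivative]
  simp

/-- One elimination step of Gurvits' inequality. -/
theorem gurvits_single {n d : ℕ} (hd : 2 ≤ d) {p : MvPolynomial σ ℝ} (h : Stab n p) (j : σ)
    (hdeg : degreeOf j p ≤ d) (x : σ → ℝ) (hx : ∀ i, i ≠ j → 0 < x i) (κ : ℝ) (hκ : 0 ≤ κ)
    (hb : ∀ t : ℝ, 0 < t → κ * t ≤ eval (Function.update x j t) p) :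
    Gc d * κ ≤ eval x (E j p) := by
  rw [eval_E_eq_coeff]
  set R := line x j p with hR
  have hb' : ∀ t : ℝ, 0 < t → κ * t ≤ R.eval t := by
    intro t ht
    rw [hR, line_eval_real]
    exact hb t ht
  by_cases hp : p = 0
  · have h1 := hb 1 one_pos
    rw [hp] at h1
    simp at h1
    have : κ = 0 := le_antisymm h1 hκ
    rw [this, hR, hp]; simp
  have hs := h.st.resolve_left hp
  by_cases h0 : R.coeff 0 = 0
  · have h1 : R = Polynomial.X * R.divX := by
      conv_lhs => rw [← Polynomial.divX_mul_X_add R, h0]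
      simp [mul_comm]
    have h2 : ∀ t : ℝ, 0 < t → κ ≤ R.divX.eval t := by
      intro t ht
      have h3 := hb' t ht
      rw [h1, Polynomial.eval_mul, Polynomial.eval_X, mul_comm κ t] at h3
      exact le_of_mul_le_mul_left h3 ht
    have h3 : κ ≤ R.divX.eval 0 := by
      have c1 : Filter.Tendsto (fun t : ℝ => R.divX.eval t)
          (nhdsWithin 0 (Set.Ioi 0)) (nhds (R.divX.eval 0)) :=
        (Polynomial.continuous _).continuousAt.tendsto.mono_left nhdsWithin_le_nhds
      refine ge_of_tendsto c1 ?_
      filter_upwards [self_mem_nhdsWithin] with t ht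
      exact h2 t ht
    rw [← Polynomial.coeff_zero_eq_eval_zero, Polynomial.coeff_divX] at h3
    calc Gc d * κ ≤ 1 * κ := mul_le_mul_of_nonneg_right (Gc_le_one hd) hκ
      _ = κ := one_mul κ
      _ ≤ _ := h3
  · obtain ⟨s, hs1, hs2, hs3⟩ := factor_real R h0 (fun τ hτ => root_real h.hom hs j x hx τ hτ)
    have hR0 : 0 ≤ R.coeff 0 := by
      rw [Polynomial.coeff_zero_eq_eval_zero, hR, line_eval_real]
      apply h.nn.eval_nonneg
      intro i
      by_cases hi : i = j
      · subst hi; simp
      · simpa [hi] using (hx i hi).le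
    have hcard : Multiset.card s ≤ d := by
      rw [hs2, hR]
      exact (line_natDegree_le x j p).trans hdeg
    have h1 := univ_prod hd s hs1 hcard (R.coeff 0) κ hR0 hκ (by
      intro t ht
      have h2 := hb' t ht
      rw [hs3, Polynomial.eval_mul, Polynomial.eval_C] at h2
      exact h2)
    have h2 : R.coeff 1 = R.coeff 0 * s.sum := by
      conv_lhs => rw [hs3]
      rw [Polynomial.coeff_C_mul, (prod_coeffs s).2]
    rw [h2]
    exact h1

/-- Eliminate all variables of a list (the head last). -/
noncomputable def Elist (l : List σ) (p : MvPolynomial σ ℝ) : MvPolynomial σ ℝ :=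
  l.foldr (fun j q => E j q) p

theorem Elist_cons (j : σ) (l : List σ) (p : MvPolynomial σ ℝ) :
    Elist (j :: l) p = E j (Elist l p) := rfl

theorem Elist_nil (p : MvPolynomial σ ℝ) : Elist [] p = p := rfl

theorem Elist_append (l l' : List σ) (p : MvPolynomial σ ℝ) :
    Elist (l ++ l') p = Elist l (Elist l' p) := by
  unfold Elist
  rw [List.foldr_append]

theorem Stab.Elist {n : ℕ} {p : MvPolynomial σ ℝ} (h : Stab n p) (l : List σ) :
    Stab (n - l.length) (Elist l p) := by
  induction l with
  | nil => simpa [Elist_nil] using h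
  | cons j l ih =>
    rw [Elist_cons, List.length_cons, ← Nat.sub_sub]
    exact ih.E j

theorem degreeOf_E (i j : σ) (p : MvPolynomial σ ℝ) : degreeOf i (E j p) ≤ degreeOf i p := by
  rw [degreeOf_le_iff]
  intro m hm
  rw [mem_support_iff, coeff_E] at hm
  split_ifs at hm with h0
  · have h1 : (m + Finsupp.single j 1 : σ →₀ ℕ) i ≤ degreeOf i p := by
      rw [degreeOf_eq_sup]
      exact Finset.le_sup (f := fun m : σ →₀ ℕ => m i) (mem_support_iff.2 hm)
    rw [Finsupp.add_apply] at h1
    omega
  · exact absurd rfl hm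

theorem degreeOf_Elist (i : σ) (l : List σ) (p : MvPolynomial σ ℝ) :
    degreeOf i (Elist l p) ≤ degreeOf i p := by
  induction l with
  | nil => exact le_rfl
  | cons j l ih => exact (degreeOf_E i j _).trans ih

/-- Gurvits' inequality for the elimination of a list of variables. -/
theorem gurvits_multi {d : ℕ} (hd : 2 ≤ d) (l : List σ) (hl : l.Nodup) :
    ∀ {n : ℕ} {p : MvPolynomial σ ℝ} (_ : Stab n p) (_ : ∀ j ∈ l, degreeOf j p ≤ d)
      (x : σ → ℝ) (_ : ∀ i, 0 < x i) (κ : ℝ) (_ : 0 ≤ κ)
      (_ : ∀ x' : σ → ℝ, (∀ i, 0 < x' i) → (∀ i, i ∉ l → x' i = x i) →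
        κ * (l.map x').prod ≤ eval x' p),
      Gc d ^ l.length * κ ≤ eval x (Elist l p) := by
  induction l with
  | nil =>
    intro n p _ _ x hx κ _ hb
    have := hb x hx (fun i _ => rfl)
    simpa [Elist_nil] using this
  | cons j l ih =>
    intro n p hp hdeg x hx κ hκ hb
    have hjl : j ∉ l := (List.nodup_cons.1 hl).1
    have hl' : l.Nodup := (List.nodup_cons.1 hl).2
    rw [Elist_cons, List.length_cons]
    have h1 := gurvits_single hd (hp.Elist l) j
      ((degreeOf_Elist j l p).trans (hdeg j (by simp))) x (fun i _ => hx i)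
      (Gc d ^ l.length * κ)
      (mul_nonneg (pow_nonneg (Gc_pos hd).le _) hκ) ?_
    · calc Gc d ^ (l.length + 1) * κ = Gc d * (Gc d ^ l.length * κ) := by ring
        _ ≤ _ := h1
    · intro t ht
      have h2 := ih hl' hp (fun i hi => hdeg i (by simp [hi])) (Function.update x j t)
        (by
          intro i
          by_cases hi : i = j
          · subst hi; simpa using ht
          · simpa [hi] using hx i) (κ * t) (mul_nonneg hκ ht.le) (by
          intro x' hx' hxx
          have hxj : x' j = t := by simpa using hxx j hjl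
          have h3 := hb x' hx' (by
            intro i hi
            rw [List.mem_cons, not_or] at hi
            have := hxx i hi.2
            simpa [hi.1] using this)
          rw [List.map_cons, List.prod_cons, hxj] at h3
          calc κ * t * (l.map x').prod = κ * (t * (l.map x').prod) := by ring
            _ ≤ _ := h3)
      calc Gc d ^ l.length * κ * t = Gc d ^ l.length * (κ * t) := by ring
        _ ≤ _ := h2

end Pool.Agent.H37
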