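import Mathlib
import Pool.Agent.H37.Gurvits2

set_option autoImplicit false
set_option linter.unusedSectionVars false

namespace Pool.Agent.H37

open MvPolynomial

variable {σ : Type} [DecidableEq σ] [Fintype σ] {ρ : Type}

/-- A linear form. -/
noncomputable def rowForm (a : σ → ℝ) : MvPolynomial σ ℝ := ∑ j, C (a j) * X j

/-- A product of linear forms. -/
noncomputable def prodForm (a : ρ → σ → ℝ) (s : Finset ρ) : MvPolynomial σ ℝ :=
  ∏ i ∈ s, rowForm (a i)

theorem rowForm_NN {a : σ → ℝ} (ha : ∀ j, 0 ≤ a j) : NN (rowForm a) :=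
  NN.sum _ fun j _ => (NN.C (ha j)).mul (NN.X j)

theorem rowForm_hom (a : σ → ℝ) : (rowForm a).IsHomogeneous 1 := by
  unfold rowForm
  exact IsHomogeneous.sum _ _ _ fun j _ => isHomogeneous_C_mul_X _ _

theorem rowForm_eval (a : σ → ℝ) (x : σ → ℝ) : eval x (rowForm a) = ∑ j, a j * x j := by
  simp [rowForm]

theorem rowForm_aeval (a : σ → ℝ) (z : σ → ℂ) :
    aeval z (rowForm a) = ∑ j, ((a j : ℝ) : ℂ) * z j := by
  simp [rowForm]

theorem rowForm_zero_or {a : σ → ℝ} (ha : ∀ j, 0 ≤ a j) (z : σ → ℂ)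
    (hz : ∀ i, 0 < (z i).re) (h0 : ∃ j, a j ≠ 0) : aeval z (rowForm a) ≠ 0 := by
  intro h
  rw [rowForm_aeval] at h
  have h1 : (∑ j, ((a j : ℝ) : ℂ) * z j).re = ∑ j, a j * (z j).re := by
    rw [Complex.re_sum]
    exact Finset.sum_congr rfl fun j _ => Complex.re_ofReal_mul _ _
  rw [h] at h1
  obtain ⟨j, hj⟩ := h0
  have h2 : 0 < ∑ j, a j * (z j).re := by
    apply Finset.sum_pos'
    · intro i _; exact mul_nonneg (ha i) (hz i).le
    · exact ⟨j, Finset.mem_univ _, mul_pos (lt_of_le_of_ne (ha j) (Ne.symm hj)) (hz j)⟩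
  rw [← h1] at h2
  simp at h2

theorem rowForm_eq_zero {a : σ → ℝ} (h0 : ¬ ∃ j, a j ≠ 0) : rowForm a = 0 := by
  push Not at h0
  unfold rowForm
  exact Finset.sum_eq_zero fun j _ => by rw [h0 j]; simp

theorem prodForm_stab {a : ρ → σ → ℝ} (ha : ∀ i j, 0 ≤ a i j) (s : Finset ρ) :
    Stab s.card (prodForm a s) := by
  refine ⟨NN.prod _ fun i _ => rowForm_NN (ha i), ?_, ?_⟩
  · have h := IsHomogeneous.prod s (fun i => rowForm (a i)) (fun _ => 1)
      (fun i _ => rowForm_hom (a i))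
    simpa [prodForm] using h
  · by_cases h : ∀ i ∈ s, ∃ j, a i j ≠ 0
    · right
      intro z hz
      unfold prodForm
      rw [map_prod]
      exact Finset.prod_ne_zero_iff.2 fun i hi => rowForm_zero_or (ha i) z hz (h i hi)
    · left
      push Not at h
      obtain ⟨i, hi, h⟩ := h
      exact Finset.prod_eq_zero hi (rowForm_eq_zero (by push Not; exact h))

theorem prodForm_eval (a : ρ → σ → ℝ) (s : Finset ρ) (x : σ → ℝ) :
    eval x (prodForm a s) = ∏ i ∈ s, ∑ j, a i j * x j := by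
  unfold prodForm
  rw [map_prod]
  exact Finset.prod_congr rfl fun i _ => rowForm_eval _ _

theorem rowForm_degreeOf (a : σ → ℝ) (j : σ) :
    degreeOf j (rowForm a) ≤ if a j = 0 then 0 else 1 := by
  unfold rowForm
  refine (degreeOf_sum_le _ _ _).trans ?_
  refine Finset.sup_le fun i _ => ?_
  by_cases h : i = j
  · subst h
    by_cases h0 : a i = 0
    · simp [h0]
    · simp only [h0, if_false]
      refine (degreeOf_C_mul_le _ _ _).trans ?_
      simp
  · refine (degreeOf_C_mul_le _ _ _).trans ?_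
    rw [degreeOf_X]
    simp [Ne.symm h]

open Classical in
theorem prodForm_degreeOf (a : ρ → σ → ℝ) (s : Finset ρ) (j : σ) :
    degreeOf j (prodForm a s) ≤ (s.filter (fun i => a i j ≠ 0)).card := by
  unfold prodForm
  refine (degreeOf_prod_le _ _ _).trans ?_
  rw [Finset.card_filter]
  refine Finset.sum_le_sum fun i _ => ?_
  refine (rowForm_degreeOf _ _).trans ?_
  by_cases h : a i j = 0 <;> simp [h]

end Pool.Agent.H37
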