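import Mathlib
import Pool.Agent.H37.ProdForm

set_option autoImplicit false
set_option linter.unusedSectionVars false

namespace Pool.Agent.H37

open MvPolynomial

variable {σ : Type} [DecidableEq σ]

/-- Iterated derivatives. -/
noncomputable def pdl {R : Type} [CommSemiring R] (l : List σ) (p : MvPolynomial σ R) :
    MvPolynomial σ R :=
  l.foldr (fun j q => pderiv j q) p

theorem pdl_nil {R : Type} [CommSemiring R] (p : MvPolynomial σ R) : pdl [] p = p := rfl

theorem pdl_cons {R : Type} [CommSemiring R] (j : σ) (l : List σ) (p : MvPolynomial σ R) :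
    pdl (j :: l) p = pderiv j (pdl l p) := rfl

theorem pderiv_comm' {R : Type} [CommSemiring R] (i j : σ) (p : MvPolynomial σ R) :
    pderiv i (pderiv j p) = pderiv j (pderiv i p) := by
  by_cases h : i = j
  · rw [h]
  · apply MvPolynomial.ext
    intro m
    simp only [coeff_pderiv]
    have h1 : m + Finsupp.single i 1 + Finsupp.single j 1 =
        m + Finsupp.single j 1 + Finsupp.single i 1 := by abel
    rw [h1]
    simp only [Finsupp.add_apply, Finsupp.single_apply]
    simp [h, Ne.symm h]
    ring

theorem pdl_pderiv {R : Type} [CommSemiring R] (i : σ) (l : List σ) (p : MvPolynomial σ R) :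
    pdl l (pderiv i p) = pderiv i (pdl l p) := by
  induction l with
  | nil => rfl
  | cons j l ih => rw [pdl_cons, pdl_cons, ih, pderiv_comm']

theorem pderiv_E {i j : σ} (h : i ≠ j) (p : MvPolynomial σ ℝ) :
    pderiv i (E j p) = E j (pderiv i p) := by
  apply MvPolynomial.ext
  intro m
  rw [coeff_pderiv, coeff_E, coeff_E, coeff_pderiv]
  have h1 : m + Finsupp.single i 1 + Finsupp.single j 1 =
      m + Finsupp.single j 1 + Finsupp.single i 1 := by abel
  rw [h1]
  simp only [Finsupp.add_apply, Finsupp.single_apply]
  by_cases hm : m j = 0 <;> simp [h, Ne.symm h, hm]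

theorem pderiv_Elist {i : σ} {l : List σ} (h : i ∉ l) (p : MvPolynomial σ ℝ) :
    pderiv i (Elist l p) = Elist l (pderiv i p) := by
  induction l with
  | nil => rfl
  | cons j l ih =>
    rw [List.mem_cons, not_or] at h
    rw [Elist_cons, Elist_cons, pderiv_E h.1, ih h.2]

/-- Value of an eliminated polynomial. -/
theorem eval_Elist {l : List σ} (hl : l.Nodup) (p : MvPolynomial σ ℝ) (x : σ → ℝ) :
    eval x (Elist l p) = eval (fun i => if i ∈ l then 0 else x i) (pdl l p) := by
  induction l generalizing p x with
  | nil => simp [Elist_nil, pdl_nil]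
  | cons j l ih =>
    have hjl : j ∉ l := (List.nodup_cons.1 hl).1
    have hl' : l.Nodup := (List.nodup_cons.1 hl).2
    rw [Elist_cons, eval_E, pderiv_Elist hjl, ih hl', pdl_cons, ← pdl_pderiv]
    congr 2
    ext i
    by_cases hi : i = j
    · subst hi; simp
    · simp [hi]

theorem pdl_add {R : Type} [CommSemiring R] (l : List σ) (p q : MvPolynomial σ R) :
    pdl l (p + q) = pdl l p + pdl l q := by
  induction l with
  | nil => rfl
  | cons j l ih => rw [pdl_cons, pdl_cons, pdl_cons, ih, map_add]

section AbsGurvits

variable {W : Type} [DecidableEq W] [Fintype W] {ρ : Type}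

/-- Substitute `1` for the variable `none`. -/
noncomputable def dehom : MvPolynomial (Option W) ℝ →ₐ[ℝ] MvPolynomial W ℝ :=
  aeval (fun o => match o with
    | none => 1
    | some w => X w)

theorem dehom_pderiv (w : W) (p : MvPolynomial (Option W) ℝ) :
    dehom (pderiv (some w) p) = pderiv w (dehom p) := by
  induction p using MvPolynomial.induction_on with
  | C a => simp [dehom]
  | add p q hp hq => simp only [map_add, hp, hq]
  | mul_X p i hp =>
    rw [pderiv_mul, map_add, map_mul, map_mul, map_mul, pderiv_mul, hp]
    congr 1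
    rcases i with _ | i
    · simp [dehom]
    · by_cases h : i = w
      · subst h; simp [dehom]
      · have h' : (some i : Option W) ≠ some w := fun h0 => h (Option.some_injective _ h0)
        rw [pderiv_X_of_ne h', map_zero, mul_zero]
        simp [dehom, pderiv_X_of_ne h]

theorem dehom_pdl (l : List W) (p : MvPolynomial (Option W) ℝ) :
    dehom (pdl (l.map some) p) = pdl l (dehom p) := by
  induction l with
  | nil => rfl
  | cons j l ih => rw [List.map_cons, pdl_cons, pdl_cons, dehom_pderiv, ih]

theorem eval_dehom (x : W → ℝ) (p : MvPolynomial (Option W) ℝ) :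
    eval x (dehom p) = eval (fun o => match o with
      | none => 1
      | some w => x w) p := by
  induction p using MvPolynomial.induction_on with
  | C a => simp [dehom]
  | add p q hp hq => simp only [map_add, hp, hq]
  | mul_X p i hp =>
    rw [map_mul, map_mul, map_mul, hp]
    congr 1
    rcases i with _ | i <;> simp [dehom]

/-- An affine form. -/
noncomputable def affForm (c : W → ℝ) (b : ℝ) : MvPolynomial W ℝ := ∑ a, C (c a) * X a + C b

theorem dehom_rowForm (c : W → ℝ) (b : ℝ) :
    dehom (rowForm (fun o : Option W => match o with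
      | none => b
      | some w => c w)) = affForm c b := by
  unfold rowForm affForm
  rw [map_sum, Fintype.sum_option]
  simp [dehom, add_comm]

theorem eval_affForm (c : W → ℝ) (b : ℝ) (x : W → ℝ) :
    eval x (affForm c b) = ∑ a, c a * x a + b := by
  simp [affForm]

open Classical in
/-- Gurvits' inequality for products of affine forms. -/
theorem abs_gurvits {d : ℕ} (hd : 2 ≤ d) (N : Finset ρ) (c : ρ → W → ℝ) (hc : ∀ i a, 0 ≤ c i a)
    (b : ρ → ℝ) (hb : ∀ i, 0 ≤ b i) (l : List W) (hl : l.Nodup) (hall : ∀ w, w ∈ l)
    (hdeg : ∀ a, (N.filter (fun i => c i a ≠ 0)).card ≤ d) (κ : ℝ) (hκ : 0 ≤ κ)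
    (h : ∀ x : W → ℝ, (∀ a, 0 < x a) →
      κ * (l.map x).prod ≤ ∏ i ∈ N, (∑ a, c i a * x a + b i)) :
    Gc d ^ l.length * κ ≤ eval 0 (pdl l (∏ i ∈ N, affForm (c i) (b i))) := by
  set a : ρ → Option W → ℝ := fun i o => match o with
    | none => b i
    | some w => c i w with ha
  have ha0 : ∀ i o, 0 ≤ a i o := by
    intro i o
    rcases o with _ | w
    · exact hb i
    · exact hc i w
  have hmul := gurvits_multi hd (l.map some) (hl.map (Option.some_injective _))
    (prodForm_stab ha0 N) (by
      intro j hj
      obtain ⟨w, _, rfl⟩ := List.mem_map.1 hj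
      exact (prodForm_degreeOf a N (some w)).trans (hdeg w)) (fun _ => 1) (fun _ => one_pos)
      κ hκ (by
      intro x' hx' hxx
      have h1 : x' none = 1 := hxx none (by simp)
      have h2 := h (fun w => x' (some w)) (fun w => hx' _)
      rw [prodForm_eval, List.map_map]
      refine h2.trans (le_of_eq ?_)
      refine Finset.prod_congr rfl fun i _ => ?_
      rw [Fintype.sum_option]
      simp [ha, h1, add_comm])
  rw [List.length_map] at hmul
  refine hmul.trans (le_of_eq ?_)
  rw [eval_Elist (hl.map (Option.some_injective _))]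
  have h3 : (∏ i ∈ N, affForm (c i) (b i)) = dehom (prodForm a N) := by
    unfold prodForm
    rw [map_prod]
    exact Finset.prod_congr rfl fun i _ => (dehom_rowForm (c i) (b i)).symm
  rw [h3, ← dehom_pdl, eval_dehom]
  congr 2
  ext o
  rcases o with _ | w
  · simp
  · simp [hall w]

end AbsGurvits

end Pool.Agent.H37
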