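import Mathlib
import Pool.Agent.H37.Pdl

set_option autoImplicit false
set_option linter.unusedSectionVars false

namespace Pool.Agent.H37

open MvPolynomial

variable {W : Type} [DecidableEq W]

/-! ### The change of variables -/

/-- `X ↦ S + iT`, `X' ↦ S - iT`. -/
noncomputable def theta : MvPolynomial (W ⊕ W) ℂ →ₐ[ℂ] MvPolynomial (W ⊕ W) ℂ :=
  aeval (fun o => match o with
    | Sum.inl a => X (Sum.inl a) + C Complex.I * X (Sum.inr a)
    | Sum.inr a => X (Sum.inl a) - C Complex.I * X (Sum.inr a))

theorem theta_inl (a : W) : theta (X (Sum.inl a) : MvPolynomial (W ⊕ W) ℂ) =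
    X (Sum.inl a) + C Complex.I * X (Sum.inr a) := by simp [theta]

theorem theta_inr (a : W) : theta (X (Sum.inr a) : MvPolynomial (W ⊕ W) ℂ) =
    X (Sum.inl a) - C Complex.I * X (Sum.inr a) := by simp [theta]

theorem theta_C (c : ℂ) : theta (C c : MvPolynomial (W ⊕ W) ℂ) = C c := by
  simp [theta]

theorem pderiv_theta_inl (a : W) (F : MvPolynomial (W ⊕ W) ℂ) :
    pderiv (Sum.inl a) (theta F) =
      theta (pderiv (Sum.inl a) F + pderiv (Sum.inr a) F) := by
  induction F using MvPolynomial.induction_on with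
  | C c => simp [theta_C]
  | add p q hp hq => simp only [map_add, hp, hq]; abel
  | mul_X p i hp =>
    rw [map_mul, pderiv_mul, hp, pderiv_mul, pderiv_mul]
    simp only [map_add, map_mul]
    have h1 : pderiv (Sum.inl a) (theta (X i : MvPolynomial (W ⊕ W) ℂ)) =
        theta (pderiv (Sum.inl a) (X i)) + theta (pderiv (Sum.inr a) (X i)) := by
      rcases i with i | i
      · rw [theta_inl]
        by_cases h : i = a
        · subst h
          simp [pderiv_X]
        · have h' : (Sum.inl i : W ⊕ W) ≠ Sum.inl a := fun h0 => h (Sum.inl_injective h0)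
          simp [pderiv_X, h, Ne.symm h]
      · rw [theta_inr]
        by_cases h : i = a
        · subst h
          simp [pderiv_X]
        · simp [pderiv_X, h, Ne.symm h]
    rw [h1]
    ring

theorem pderiv_theta_inr (a : W) (F : MvPolynomial (W ⊕ W) ℂ) :
    pderiv (Sum.inr a) (theta F) =
      C Complex.I * theta (pderiv (Sum.inl a) F - pderiv (Sum.inr a) F) := by
  induction F using MvPolynomial.induction_on with
  | C c => simp [theta_C]
  | add p q hp hq => simp only [map_add, hp, hq, map_sub]; ring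
  | mul_X p i hp =>
    rw [map_mul, pderiv_mul, hp, pderiv_mul, pderiv_mul]
    simp only [map_add, map_mul, map_sub]
    have h1 : pderiv (Sum.inr a) (theta (X i : MvPolynomial (W ⊕ W) ℂ)) =
        C Complex.I * (theta (pderiv (Sum.inl a) (X i)) - theta (pderiv (Sum.inr a) (X i))) := by
      rcases i with i | i
      · rw [theta_inl]
        by_cases h : i = a
        · subst h
          simp [pderiv_X]
        · simp [pderiv_X, h, Ne.symm h]
      · rw [theta_inr]
        by_cases h : i = a
        · subst h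
          simp [pderiv_X]
        · simp [pderiv_X, h, Ne.symm h]
    rw [h1]
    ring

/-- The Laplacian in the variables `S_a, T_a`. -/
noncomputable def Lap {R : Type} [CommRing R] (a : W) (p : MvPolynomial (W ⊕ W) R) :
    MvPolynomial (W ⊕ W) R :=
  pderiv (Sum.inl a) (pderiv (Sum.inl a) p) + pderiv (Sum.inr a) (pderiv (Sum.inr a) p)

theorem Lap_theta (a : W) (F : MvPolynomial (W ⊕ W) ℂ) :
    Lap a (theta F) = C 4 * theta (pderiv (Sum.inl a) (pderiv (Sum.inr a) F)) := by
  unfold Lap
  rw [pderiv_theta_inl, pderiv_theta_inl, pderiv_theta_inr, pderiv_C_mul, pderiv_theta_inr,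
    ← mul_assoc, ← C_mul, Complex.I_mul_I]
  simp only [map_add, map_sub]
  rw [pderiv_comm' (Sum.inr a) (Sum.inl a) F]
  have h4 : (C 4 : MvPolynomial (W ⊕ W) ℂ) = 4 := map_ofNat C 4
  have h1 : (C (-1) : MvPolynomial (W ⊕ W) ℂ) = -1 := by simp
  rw [h4, h1]
  ring

noncomputable def LapL {R : Type} [CommRing R] (l : List W) (p : MvPolynomial (W ⊕ W) R) :
    MvPolynomial (W ⊕ W) R :=
  l.foldr (fun a q => Lap a q) p

theorem LapL_cons {R : Type} [CommRing R] (a : W) (l : List W) (p : MvPolynomial (W ⊕ W) R) :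
    LapL (a :: l) p = Lap a (LapL l p) := rfl

/-- The doubled list of variables. -/
def dbl (l : List W) : List (W ⊕ W) := l.flatMap (fun a => [Sum.inl a, Sum.inr a])

theorem dbl_cons (a : W) (l : List W) : dbl (a :: l) = Sum.inl a :: Sum.inr a :: dbl l := rfl

theorem Lap_C_mul {R : Type} [CommRing R] (a : W) (c : R) (p : MvPolynomial (W ⊕ W) R) :
    Lap a (C c * p) = C c * Lap a p := by
  unfold Lap
  rw [pderiv_C_mul, pderiv_C_mul, pderiv_C_mul, pderiv_C_mul, mul_add]

theorem LapL_theta (l : List W) (F : MvPolynomial (W ⊕ W) ℂ) :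
    LapL l (theta F) = C ((4 : ℂ) ^ l.length) * theta (pdl (dbl l) F) := by
  induction l with
  | nil => simp [LapL, dbl, pdl]
  | cons a l ih =>
    rw [LapL_cons, ih, Lap_C_mul, Lap_theta, dbl_cons, pdl_cons, pdl_cons, List.length_cons,
      pow_succ, ← mul_assoc, ← C_mul]

theorem eval_zero_theta (F : MvPolynomial (W ⊕ W) ℂ) : eval 0 (theta F) = eval 0 F := by
  induction F using MvPolynomial.induction_on with
  | C c => simp [theta_C]
  | add p q hp hq => simp only [map_add, hp, hq]
  | mul_X p i hp =>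
    rw [map_mul, map_mul, map_mul, hp]
    congr 1
    rcases i with i | i
    · rw [theta_inl]; simp
    · rw [theta_inr]; simp

theorem Lap_map (a : W) (p : MvPolynomial (W ⊕ W) ℝ) :
    Lap a (map Complex.ofRealHom p) = map Complex.ofRealHom (Lap a p) := by
  unfold Lap
  rw [pderiv_map, pderiv_map, pderiv_map, pderiv_map, map_add]

theorem LapL_map (l : List W) (p : MvPolynomial (W ⊕ W) ℝ) :
    LapL l (map Complex.ofRealHom p) = map Complex.ofRealHom (LapL l p) := by
  induction l with
  | nil => rfl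
  | cons a l ih => rw [LapL_cons, ih, Lap_map, LapL_cons]

theorem pdl_map (l : List (W ⊕ W)) (p : MvPolynomial (W ⊕ W) ℝ) :
    pdl l (map Complex.ofRealHom p) = map Complex.ofRealHom (pdl l p) := by
  induction l with
  | nil => rfl
  | cons a l ih => rw [pdl_cons, ih, pderiv_map, pdl_cons]

theorem eval_zero_map (p : MvPolynomial (W ⊕ W) ℝ) :
    eval 0 (map Complex.ofRealHom p) = ((eval 0 p : ℝ) : ℂ) := by
  induction p using MvPolynomial.induction_on with
  | C c => simp
  | add p q hp hq => simp only [map_add, hp, hq]; push_cast; rfl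
  | mul_X p i hp => simp only [map_mul, map_X, eval_X, Pi.zero_apply, mul_zero]; simp

/-- Transfer between the two forms of the coefficient functional. -/
theorem transfer (l : List W) (F H : MvPolynomial (W ⊕ W) ℝ)
    (h : theta (map Complex.ofRealHom F) = map Complex.ofRealHom H) :
    eval 0 (LapL l H) = (4 : ℝ) ^ l.length * eval 0 (pdl (dbl l) F) := by
  have h1 := LapL_theta l (map Complex.ofRealHom F)
  rw [h, LapL_map, pdl_map] at h1
  have h2 := congrArg (eval (0 : W ⊕ W → ℂ)) h1
  rw [eval_zero_map, map_mul, eval_C, eval_zero_theta, eval_zero_map] at h2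
  have h3 : ((eval 0 (LapL l H) : ℝ) : ℂ) =
      (((4 : ℝ) ^ l.length * eval 0 (pdl (dbl l) F) : ℝ) : ℂ) := by
    rw [h2]; push_cast; rfl
  exact_mod_cast h3

/-! ### Nonnegativity -/

theorem Lap_NN {p : MvPolynomial (W ⊕ W) ℝ} (h : NN p) (a : W) : NN (Lap a p) :=
  ((h.pderiv _).pderiv _).add ((h.pderiv _).pderiv _)

theorem LapL_NN {p : MvPolynomial (W ⊕ W) ℝ} (h : NN p) (l : List W) : NN (LapL l p) := by
  induction l with
  | nil => exact h
  | cons a l ih => exact Lap_NN ih a

theorem Lap_sub {R : Type} [CommRing R] (a : W) (p q : MvPolynomial (W ⊕ W) R) :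
    Lap a (p - q) = Lap a p - Lap a q := by
  unfold Lap
  simp only [map_sub]
  ring

theorem LapL_sub {R : Type} [CommRing R] (l : List W) (p q : MvPolynomial (W ⊕ W) R) :
    LapL l (p - q) = LapL l p - LapL l q := by
  induction l with
  | nil => rfl
  | cons a l ih => rw [LapL_cons, ih, Lap_sub, LapL_cons, LapL_cons]

theorem LapL_C_mul {R : Type} [CommRing R] (l : List W) (c : R) (p : MvPolynomial (W ⊕ W) R) :
    LapL l (C c * p) = C c * LapL l p := by
  induction l with
  | nil => rfl
  | cons a l ih => rw [LapL_cons, ih, Lap_C_mul, LapL_cons]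

theorem Lap_mul_sq {a b : W} (h : a ≠ b) (q : MvPolynomial (W ⊕ W) ℝ) :
    Lap b (X (Sum.inr a) ^ 2 * q) = X (Sum.inr a) ^ 2 * Lap b q := by
  have h1 : (Sum.inr a : W ⊕ W) ≠ Sum.inr b := fun h0 => h (Sum.inr_injective h0)
  have h2 : pderiv (Sum.inr b) (X (Sum.inr a) ^ 2 : MvPolynomial (W ⊕ W) ℝ) = 0 := by
    rw [pderiv_pow, pderiv_X_of_ne h1, mul_zero]
  have h3 : pderiv (Sum.inl b) (X (Sum.inr a) ^ 2 : MvPolynomial (W ⊕ W) ℝ) = 0 := by
    rw [pderiv_pow, pderiv_X_of_ne (by simp), mul_zero]
  unfold Lap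
  simp only [pderiv_mul, h2, h3, zero_mul, zero_add]
  ring

theorem LapL_mul_sq {a : W} {l : List W} (h : a ∉ l) (q : MvPolynomial (W ⊕ W) ℝ) :
    LapL l (X (Sum.inr a) ^ 2 * q) = X (Sum.inr a) ^ 2 * LapL l q := by
  induction l with
  | nil => rfl
  | cons b l ih =>
    rw [List.mem_cons, not_or] at h
    rw [LapL_cons, ih h.2, Lap_mul_sq h.1, LapL_cons]

theorem LapL_squares (l : List W) (hl : l.Nodup) :
    LapL l ((l.map (fun a => (X (Sum.inr a) ^ 2 : MvPolynomial (W ⊕ W) ℝ))).prod)
      = C ((2 : ℝ) ^ l.length) := by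
  induction l with
  | nil => simp [LapL]
  | cons a l ih =>
    rw [List.map_cons, List.prod_cons, LapL_cons, LapL_mul_sq (List.nodup_cons.1 hl).1,
      ih (List.nodup_cons.1 hl).2, List.length_cons]
    unfold Lap
    have h1 : pderiv (Sum.inl a) (X (Sum.inr a) ^ 2 : MvPolynomial (W ⊕ W) ℝ) = 0 := by
      rw [pderiv_pow, pderiv_X_of_ne (by simp), mul_zero]
    have h2 : pderiv (Sum.inr a) (X (Sum.inr a) ^ 2 : MvPolynomial (W ⊕ W) ℝ) =
        C 2 * X (Sum.inr a) := by
      rw [pderiv_pow, pderiv_X_self, mul_one, show (C 2 : MvPolynomial (W ⊕ W) ℝ) = 2 from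
        map_ofNat C 2]
      norm_num
    simp only [pderiv_mul, h1, h2, pderiv_C, pderiv_X_self, zero_mul, mul_zero, add_zero,
      map_zero, zero_add, mul_one]
    rw [← C_mul, pow_succ, mul_comm]

/-! ### Products of polynomials in separate variables -/

theorem pdl_dbl_rename (l : List W) (f g : MvPolynomial W ℝ) :
    pdl (dbl l) (rename Sum.inl f * rename Sum.inr g) =
      rename Sum.inl (pdl l f) * rename Sum.inr (pdl l g) := by
  have h0 : ∀ (a : W) (p : MvPolynomial W ℝ),
      pderiv (Sum.inr a) (rename Sum.inl p : MvPolynomial (W ⊕ W) ℝ) = 0 := by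
    intro a p
    induction p using MvPolynomial.induction_on with
    | C c => simp
    | add p q hp hq => simp only [map_add, hp, hq, add_zero]
    | mul_X p i hp => rw [map_mul, pderiv_mul, hp, rename_X, pderiv_X_of_ne (by simp)]; simp
  have h0' : ∀ (a : W) (p : MvPolynomial W ℝ),
      pderiv (Sum.inl a) (rename Sum.inr p : MvPolynomial (W ⊕ W) ℝ) = 0 := by
    intro a p
    induction p using MvPolynomial.induction_on with
    | C c => simp
    | add p q hp hq => simp only [map_add, hp, hq, add_zero]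
    | mul_X p i hp => rw [map_mul, pderiv_mul, hp, rename_X, pderiv_X_of_ne (by simp)]; simp
  induction l with
  | nil => rfl
  | cons a l ih =>
    rw [dbl_cons, pdl_cons, pdl_cons, ih, pderiv_mul, h0, zero_mul, zero_add,
      pderiv_rename Sum.inr_injective, pderiv_mul, h0', mul_zero, add_zero,
      pderiv_rename Sum.inl_injective, pdl_cons, pdl_cons]

theorem eval_zero_rename {V : Type} (f : W → V) (p : MvPolynomial W ℝ) :
    eval 0 (rename f p) = eval 0 p := by
  rw [eval_rename]
  rfl

end Pool.Agent.H37
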