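import Mathlib
import Pool.Agent.H37.Lift

set_option autoImplicit false
set_option linter.unusedSectionVars false

namespace Pool.Agent.H37

open MvPolynomial

section general

variable {W : Type} [DecidableEq W] [Fintype W]

/-- Affine form in the doubled variables. -/
noncomputable def aff2 (α β : W → ℝ) (b : ℝ) : MvPolynomial (W ⊕ W) ℝ :=
  ∑ a, C (α a) * X (Sum.inl a) + ∑ a, C (β a) * X (Sum.inr a) + C b

/-- The quadratic form obtained after the change of variables. -/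
noncomputable def Kf (p q : W → ℝ) (b : ℝ) : MvPolynomial (W ⊕ W) ℝ :=
  (∑ a, C (p a) * X (Sum.inl a) + C b) ^ 2 + (∑ a, C (q a) * X (Sum.inr a)) ^ 2

theorem theta_aff2 (α β : W → ℝ) (b : ℝ) :
    theta (map Complex.ofRealHom (aff2 α β b)) =
      map Complex.ofRealHom (∑ a, C (α a + β a) * X (Sum.inl a) + C b) +
        C Complex.I * map Complex.ofRealHom (∑ a, C (α a - β a) * X (Sum.inr a)) := by
  unfold aff2
  simp only [map_add, map_sum, map_mul, map_C, map_X, theta_C, theta_inl, theta_inr,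
    Complex.ofRealHom_eq_coe, Complex.ofReal_add, Complex.ofReal_sub]
  rw [Finset.mul_sum]
  have h : ∀ a : W, (C ((α a : ℝ) : ℂ) * (X (Sum.inl a) + C Complex.I * X (Sum.inr a)) +
      C ((β a : ℝ) : ℂ) * (X (Sum.inl a) - C Complex.I * X (Sum.inr a)) :
        MvPolynomial (W ⊕ W) ℂ) =
      (C ((α a : ℝ) : ℂ) + C ((β a : ℝ) : ℂ)) * X (Sum.inl a) +
      C Complex.I * (C (((α a : ℝ) : ℂ) - ((β a : ℝ) : ℂ)) * X (Sum.inr a)) := by
    intro a
    rw [C_sub]
    ring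
  have h2 := Finset.sum_congr (rfl : (Finset.univ : Finset W) = Finset.univ) (fun a _ => h a)
  rw [Finset.sum_add_distrib, Finset.sum_add_distrib] at h2
  rw [h2]
  ring

theorem theta_pair (α β : W → ℝ) (b : ℝ) :
    theta (map Complex.ofRealHom (aff2 α β b * aff2 β α b)) =
      map Complex.ofRealHom (Kf (fun a => α a + β a) (fun a => α a - β a) b) := by
  rw [map_mul, map_mul, theta_aff2, theta_aff2]
  have h1 : (∑ a, C (β a + α a) * X (Sum.inl a) : MvPolynomial (W ⊕ W) ℝ) =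
      ∑ a, C (α a + β a) * X (Sum.inl a) :=
    Finset.sum_congr rfl fun a _ => by rw [add_comm]
  have h2 : (∑ a, C (β a - α a) * X (Sum.inr a) : MvPolynomial (W ⊕ W) ℝ) =
      -∑ a, C (α a - β a) * X (Sum.inr a) := by
    rw [← Finset.sum_neg_distrib]
    exact Finset.sum_congr rfl fun a _ => by rw [← neg_sub, C_neg, neg_mul]
  rw [h1, h2]
  unfold Kf
  rw [map_neg, map_add (map Complex.ofRealHom) (_ ^ 2), map_pow, map_pow]
  have h3 : (C Complex.I : MvPolynomial (W ⊕ W) ℂ) * C Complex.I = -1 := by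
    rw [← C_mul, Complex.I_mul_I]; simp
  set P := map Complex.ofRealHom
    (∑ a, C (α a + β a) * X (Sum.inl a) + C b : MvPolynomial (W ⊕ W) ℝ)
  set Q := map Complex.ofRealHom
    (∑ a, C (α a - β a) * X (Sum.inr a) : MvPolynomial (W ⊕ W) ℝ)
  calc (P + C Complex.I * Q) * (P + C Complex.I * -Q) =
      P ^ 2 - (C Complex.I * C Complex.I) * Q ^ 2 := by ring
    _ = P ^ 2 + Q ^ 2 := by rw [h3]; ring

theorem aff2_inl (c : W → ℝ) (b : ℝ) :
    aff2 c (fun _ => 0) b = rename Sum.inl (affForm c b) := by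
  unfold aff2 affForm
  simp [map_sum]

theorem aff2_inr (c : W → ℝ) (b : ℝ) :
    aff2 (fun _ => 0) c b = rename Sum.inr (affForm c b) := by
  unfold aff2 affForm
  simp [map_sum]

theorem lin_NN {V : Type} [DecidableEq V] {c : W → ℝ} (hc : ∀ a, 0 ≤ c a) (f : W → V) :
    NN (∑ a, C (c a) * X (f a) : MvPolynomial V ℝ) :=
  NN.sum _ fun a _ => (NN.C (hc a)).mul (NN.X _)

theorem Kf_NN {p q : W → ℝ} (hp : ∀ a, 0 ≤ p a) (hq : ∀ a, 0 ≤ q a) {b : ℝ} (hb : 0 ≤ b) :
    NN (Kf p q b) := by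
  unfold Kf
  rw [pow_two, pow_two]
  have h1 : NN (∑ a, C (p a) * X (Sum.inl a) + C b : MvPolynomial (W ⊕ W) ℝ) :=
    (lin_NN hp _).add (NN.C hb)
  exact (h1.mul h1).add ((lin_NN hq _).mul (lin_NN hq _))

theorem NN.sub_trans {V : Type} [DecidableEq V] {p q r : MvPolynomial V ℝ} (h1 : NN (p - q)) (h2 : NN (q - r)) :
    NN (p - r) := by
  have := h1.add h2
  simpa using this

/-- Coefficientwise domination of products. -/
theorem NN.mul_sub {V : Type} [DecidableEq V] {p q p' q' : MvPolynomial V ℝ} (hp : NN p') (hq : NN q)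
    (h1 : NN (p - p')) (h2 : NN (q - q')) : NN (p * q - p' * q') := by
  have h : p * q - p' * q' = (p - p') * q + p' * (q - q') := by ring
  rw [h]
  exact (h1.mul hq).add (hp.mul h2)

theorem NN.prod_sub {V ι : Type} [DecidableEq V] [DecidableEq ι] (s : Finset ι) {f g : ι → MvPolynomial V ℝ}
    (hf : ∀ i ∈ s, NN (f i)) (hg : ∀ i ∈ s, NN (g i)) (h : ∀ i ∈ s, NN (f i - g i)) :
    NN (∏ i ∈ s, f i - ∏ i ∈ s, g i) := by
  induction s using Finset.induction_on with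
  | empty => rw [Finset.prod_empty, Finset.prod_empty, sub_self]; exact NN.zero
  | insert a s ha ih =>
    rw [Finset.prod_insert ha, Finset.prod_insert ha]
    exact NN.mul_sub (hg a (Finset.mem_insert_self _ _))
      (NN.prod s fun i hi => hf i (Finset.mem_insert_of_mem hi))
      (h a (Finset.mem_insert_self _ _))
      (ih (fun i hi => hf i (Finset.mem_insert_of_mem hi))
        (fun i hi => hg i (Finset.mem_insert_of_mem hi))
        (fun i hi => h i (Finset.mem_insert_of_mem hi)))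

theorem Kf_ge_const {p q : W → ℝ} (hp : ∀ a, 0 ≤ p a) (hq : ∀ a, 0 ≤ q a) {b : ℝ}
    (hb : 0 ≤ b) : NN (Kf p q b - C (b ^ 2)) := by
  have h : Kf p q b - C (b ^ 2) =
      (∑ a, C (p a) * X (Sum.inl a)) * (∑ a, C (p a) * X (Sum.inl a)) +
      C (2 * b) * (∑ a, C (p a) * X (Sum.inl a)) +
      (∑ a, C (q a) * X (Sum.inr a)) * (∑ a, C (q a) * X (Sum.inr a)) := by
    unfold Kf
    rw [C_pow, C_mul, show (C 2 : MvPolynomial (W ⊕ W) ℝ) = 2 from map_ofNat C 2]
    ring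
  rw [h]
  exact (((lin_NN hp _).mul (lin_NN hp _)).add ((NN.C (by positivity)).mul (lin_NN hp _))).add
    ((lin_NN hq _).mul (lin_NN hq _))

theorem lin_ge_two {V : Type} [DecidableEq V] {q : W → ℝ} (hq : ∀ a, 0 ≤ q a) (f : W → V) {a a' : W}
    (ha : a ≠ a') :
    NN ((∑ k, C (q k) * X (f k) : MvPolynomial V ℝ) -
      (C (q a) * X (f a) + C (q a') * X (f a'))) := by
  have h1 : ({a, a'} : Finset W) ⊆ Finset.univ := Finset.subset_univ _
  have h2 : (∑ k, C (q k) * X (f k) : MvPolynomial V ℝ) =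
      ∑ k ∈ Finset.univ \ {a, a'}, C (q k) * X (f k) + ∑ k ∈ {a, a'}, C (q k) * X (f k) :=
    (Finset.sum_sdiff h1).symm
  rw [h2, Finset.sum_pair ha, add_sub_cancel_right]
  exact NN.sum _ fun k _ => (NN.C (hq k)).mul (NN.X _)

theorem Kf_ge_two {p q : W → ℝ} (hp : ∀ a, 0 ≤ p a) (hq : ∀ a, 0 ≤ q a) {b : ℝ}
    (hb : 0 ≤ b) {a a' : W} (ha : a ≠ a') :
    NN (Kf p q b - C (2 * q a * q a') * (X (Sum.inr a) * X (Sum.inr a'))) := by
  set M : MvPolynomial (W ⊕ W) ℝ := ∑ k, C (q k) * X (Sum.inr k) with hM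
  set m : MvPolynomial (W ⊕ W) ℝ := C (q a) * X (Sum.inr a) + C (q a') * X (Sum.inr a') with hm
  have hmNN : NN m := ((NN.C (hq a)).mul (NN.X _)).add ((NN.C (hq a')).mul (NN.X _))
  have hMNN : NN M := lin_NN hq _
  have h1 : NN (M * M - m * m) := NN.mul_sub hmNN hMNN (lin_ge_two hq _ ha) (lin_ge_two hq _ ha)
  have h2 : Kf p q b - C (2 * q a * q a') * (X (Sum.inr a) * X (Sum.inr a')) =
      (∑ a, C (p a) * X (Sum.inl a) + C b) * (∑ a, C (p a) * X (Sum.inl a) + C b) +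
      (M * M - m * m) + ((C (q a) * X (Sum.inr a)) * (C (q a) * X (Sum.inr a)) +
        (C (q a') * X (Sum.inr a')) * (C (q a') * X (Sum.inr a'))) := by
    unfold Kf
    rw [← hM, hm, C_mul, C_mul, show (C 2 : MvPolynomial (W ⊕ W) ℝ) = 2 from map_ofNat C 2]
    ring
  rw [h2]
  have h3 : NN (∑ a, C (p a) * X (Sum.inl a) + C b : MvPolynomial (W ⊕ W) ℝ) :=
    (lin_NN hp _).add (NN.C hb)
  have h4 : ∀ a, NN (C (q a) * X (Sum.inr a) : MvPolynomial (W ⊕ W) ℝ) :=
    fun a => (NN.C (hq a)).mul (NN.X _)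
  exact ((h3.mul h3).add h1).add (((h4 a).mul (h4 a)).add ((h4 a').mul (h4 a')))

/-- The gain in the row where the lift crosses. -/
theorem Kf_diff {c : W → ℝ} (hc : ∀ a, 0 ≤ c a) {b : ℝ} {a a' : W} (ha : a ≠ a') :
    NN (Kf c c b - Kf c (fun k => if k = a then -c k else c k) b -
      C (4 * c a * c a') * (X (Sum.inr a) * X (Sum.inr a'))) := by
  set M : MvPolynomial (W ⊕ W) ℝ := ∑ k, C (c k) * X (Sum.inr k) with hM
  have hM' : (∑ k, C (if k = a then -c k else c k) * X (Sum.inr k) :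
      MvPolynomial (W ⊕ W) ℝ) = M - C (2 * c a) * X (Sum.inr a) := by
    have h1 : (C (2 * c a) * X (Sum.inr a) : MvPolynomial (W ⊕ W) ℝ) =
        ∑ k, (if k = a then C (2 * c k) * X (Sum.inr k) else 0) := by
      rw [Finset.sum_ite_eq']; simp
    rw [h1, hM, ← Finset.sum_sub_distrib]
    refine Finset.sum_congr rfl fun k _ => ?_
    by_cases h : k = a
    · simp only [h, if_true]
      rw [← sub_mul, ← C_sub, show c a - 2 * c a = -c a by ring]
    · simp [h]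
  have h2 : Kf c c b - Kf c (fun k => if k = a then -c k else c k) b -
      C (4 * c a * c a') * (X (Sum.inr a) * X (Sum.inr a')) =
      C (4 * c a) * X (Sum.inr a) *
        (M - (C (c a) * X (Sum.inr a) + C (c a') * X (Sum.inr a'))) := by
    unfold Kf
    rw [← hM, hM']
    simp only [C_mul]
    rw [show (C 2 : MvPolynomial (W ⊕ W) ℝ) = 2 from map_ofNat C 2,
      show (C 4 : MvPolynomial (W ⊕ W) ℝ) = 4 from map_ofNat C 4]
    ring
  rw [h2]
  exact ((NN.C (by have := hc a; positivity)).mul (NN.X _)).mul (lin_ge_two hc _ ha)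

theorem eval_zero_NN {V : Type} [DecidableEq V] {p : MvPolynomial V ℝ} (h : NN p) : 0 ≤ eval 0 p := by
  exact h.eval_nonneg (fun _ => le_rfl)

end general

section cycle

variable {n : ℕ} {ρ : Type} [DecidableEq ρ]

/-- The crossing part of the matrix: a single entry. -/
def Bm (c : ρ → Fin (n + 2) → ℝ) (u : Fin (n + 2) → ρ) (i : ρ) (a : Fin (n + 2)) : ℝ :=
  if i = u 0 ∧ a = 0 then c i a else 0

theorem fin_ne_succ (a : Fin (n + 2)) : a ≠ a + 1 := by
  intro h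
  have h1 : a + 0 = a + 1 := by rw [add_zero]; exact h
  exact Fin.zero_ne_one (add_left_cancel h1)

/-- The comparison monomials. -/
noncomputable def Qm (γ : ℝ) (a : Fin (n + 2)) : MvPolynomial (Fin (n + 2) ⊕ Fin (n + 2)) ℝ :=
  C (2 * γ * γ) * (X (Sum.inr a) * X (Sum.inr (a + 1)))

theorem Qm_NN (γ : ℝ) (a : Fin (n + 2)) : NN (Qm γ a) :=
  (NN.C (by have := mul_self_nonneg γ; nlinarith)).mul ((NN.X _).mul (NN.X _))

theorem Qm_prod (γ : ℝ) : ∏ a : Fin (n + 2), Qm γ a =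
    C ((2 * γ * γ) ^ (n + 2)) * (((List.finRange (n + 2)).map (fun a => (X (Sum.inr a) ^ 2 :
          MvPolynomial (Fin (n + 2) ⊕ Fin (n + 2)) ℝ))).prod) := by
  unfold Qm
  rw [Finset.prod_mul_distrib, Finset.prod_const, Finset.card_univ, Fintype.card_fin,
    Finset.prod_mul_distrib, C_pow, ← Fin.prod_univ_def]
  congr 1
  have k2 : ∏ a : Fin (n + 2), (X (Sum.inr (a + 1)) :
      MvPolynomial (Fin (n + 2) ⊕ Fin (n + 2)) ℝ) = ∏ a : Fin (n + 2), X (Sum.inr a) :=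
    Equiv.prod_comp (Equiv.addRight (1 : Fin (n + 2))) (fun a => X (Sum.inr a))
  rw [k2, ← Finset.prod_mul_distrib]
  exact Finset.prod_congr rfl fun a _ => by ring

theorem erase_split (N : Finset ρ) (u : Fin (n + 2) → ρ) (hu : Function.Injective u)
    (huN : ∀ a, u a ∈ N) {M : Type} [CommMonoid M] (f : ρ → M) :
    ∏ i ∈ N.erase (u 0), f i = (∏ a ∈ Finset.univ.erase (0 : Fin (n + 2)), f (u a)) *
        ∏ i ∈ N \ Finset.univ.image u, f i := by
  have hset : N.erase (u 0) = (Finset.univ.erase 0).image u ∪ (N \ Finset.univ.image u) := by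
    ext i
    simp only [Finset.mem_erase, Finset.mem_union, Finset.mem_image, Finset.mem_sdiff,
      Finset.mem_univ, true_and]
    constructor
    · rintro ⟨hi0, hiN⟩
      by_cases h : ∃ a, u a = i
      · obtain ⟨a, rfl⟩ := h
        left
        exact ⟨a, ⟨by rintro rfl; exact hi0 rfl, trivial⟩, rfl⟩
      · right
        exact ⟨hiN, by simpa using h⟩
    · rintro (⟨a, ⟨ha, _⟩, rfl⟩ | ⟨hiN, h⟩)
      · exact ⟨fun h => ha (hu h), huN a⟩
      · exact ⟨fun h' => h ⟨0, h'.symm⟩, hiN⟩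
  have hdisj : Disjoint ((Finset.univ.erase 0).image u) (N \ Finset.univ.image u) := by
    rw [Finset.disjoint_left]
    intro i hi hi'
    obtain ⟨a, _, rfl⟩ := Finset.mem_image.1 hi
    exact (Finset.mem_sdiff.1 hi').2 (Finset.mem_image.2 ⟨a, Finset.mem_univ _, rfl⟩)
  rw [hset, Finset.prod_union hdisj, Finset.prod_image (fun a _ a' _ h => hu h)]

/-- The modified matrix after crossing. -/
def em (c : ρ → Fin (n + 2) → ℝ) (u : Fin (n + 2) → ρ) (i : ρ) (a : Fin (n + 2)) : ℝ :=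
  c i a - 2 * Bm c u i a

theorem em_of_ne (c : ρ → Fin (n + 2) → ℝ) (u : Fin (n + 2) → ρ) {i : ρ} (hi : i ≠ u 0) :
    em c u i = c i := by
  ext a
  simp [em, Bm, hi]

theorem em_zero (c : ρ → Fin (n + 2) → ℝ) (u : Fin (n + 2) → ρ) :
    em c u (u 0) = fun k => if k = 0 then -c (u 0) k else c (u 0) k := by
  ext k
  by_cases hk : k = 0
  · simp [em, Bm, hk]; ring
  · simp [em, Bm, hk]

theorem lift_NN (N : Finset ρ) (c : ρ → Fin (n + 2) → ℝ) (hc : ∀ i a, 0 ≤ c i a)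
    (b : ρ → ℝ) (hb : ∀ i, 0 ≤ b i) (u : Fin (n + 2) → ρ) (hu : Function.Injective u)
    (huN : ∀ a, u a ∈ N) (γ : ℝ) (h1 : ∀ a, c (u a) a = γ)
    (h2 : ∀ a, c (u a) (a + 1) = γ) :
    NN (∏ i ∈ N, Kf (c i) (c i) (b i) - ∏ i ∈ N, Kf (c i) (em c u i) (b i) -
      C 2 * ((∏ a, Qm γ a) * ∏ i ∈ N \ Finset.univ.image u, C (b i ^ 2))) := by
  have hsplit1 : ∏ i ∈ N, Kf (c i) (c i) (b i) = Kf (c (u 0)) (c (u 0)) (b (u 0)) *
      ∏ i ∈ N.erase (u 0), Kf (c i) (c i) (b i) :=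
    (Finset.mul_prod_erase N (fun i => Kf (c i) (c i) (b i)) (huN 0)).symm
  have hsplit2 : ∏ i ∈ N, Kf (c i) (em c u i) (b i) =
      Kf (c (u 0)) (em c u (u 0)) (b (u 0)) *
      ∏ i ∈ N.erase (u 0), Kf (c i) (c i) (b i) := by
    have e0 : ∏ i ∈ N.erase (u 0), Kf (c i) (em c u i) (b i) =
        ∏ i ∈ N.erase (u 0), Kf (c i) (c i) (b i) :=
      Finset.prod_congr rfl fun i hi => by rw [em_of_ne c u (Finset.ne_of_mem_erase hi)]
    rw [← e0]
    exact (Finset.mul_prod_erase N (fun i => Kf (c i) (em c u i) (b i)) (huN 0)).symm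
  have hCNN : ∀ i, NN (C (b i ^ 2) : MvPolynomial (Fin (n + 2) ⊕ Fin (n + 2)) ℝ) :=
    fun i => NN.C (by positivity)
  have g1 : NN (∏ a ∈ Finset.univ.erase (0 : Fin (n + 2)), Kf (c (u a)) (c (u a)) (b (u a)) -
      ∏ a ∈ Finset.univ.erase (0 : Fin (n + 2)), Qm γ a) := by
    refine NN.prod_sub _ (fun a _ => Kf_NN (hc _) (hc _) (hb _)) (fun a _ => Qm_NN γ a) ?_
    intro a _
    have := Kf_ge_two (hc (u a)) (hc (u a)) (hb (u a)) (fin_ne_succ a)
    rw [h1, h2] at this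
    exact this
  have g2 : NN (∏ i ∈ N \ Finset.univ.image u, Kf (c i) (c i) (b i) -
      ∏ i ∈ N \ Finset.univ.image u, C (b i ^ 2)) :=
    NN.prod_sub _ (fun i _ => Kf_NN (hc _) (hc _) (hb _)) (fun i _ => hCNN i)
      (fun i _ => Kf_ge_const (hc i) (hc i) (hb i))
  have g3 : NN (∏ i ∈ N.erase (u 0), Kf (c i) (c i) (b i) -
      (∏ a ∈ Finset.univ.erase (0 : Fin (n + 2)), Qm γ a) *
        ∏ i ∈ N \ Finset.univ.image u, C (b i ^ 2)) := by
    rw [erase_split N u hu huN]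
    exact NN.mul_sub (NN.prod _ fun a _ => Qm_NN γ a)
      (NN.prod _ fun i _ => Kf_NN (hc _) (hc _) (hb _)) g1 g2
  have g4 : NN (Kf (c (u 0)) (c (u 0)) (b (u 0)) - Kf (c (u 0)) (em c u (u 0)) (b (u 0)) -
      C 2 * Qm γ 0) := by
    rw [em_zero]
    have := Kf_diff (hc (u 0)) (b := b (u 0)) (fin_ne_succ (0 : Fin (n + 2)))
    have e1 : c (u 0) (0 + 1) = γ := h2 0
    rw [h1, e1] at this
    have e2 : (C 2 * Qm γ 0 : MvPolynomial (Fin (n + 2) ⊕ Fin (n + 2)) ℝ) =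
        C (4 * γ * γ) * (X (Sum.inr 0) * X (Sum.inr (0 + 1))) := by
      unfold Qm
      rw [← mul_assoc, ← C_mul, show 2 * (2 * γ * γ) = 4 * γ * γ by ring]
    rw [e2]
    exact this
  have g5 : ∏ i ∈ N, Kf (c i) (c i) (b i) - ∏ i ∈ N, Kf (c i) (em c u i) (b i) =
      (Kf (c (u 0)) (c (u 0)) (b (u 0)) - Kf (c (u 0)) (em c u (u 0)) (b (u 0))) *
      ∏ i ∈ N.erase (u 0), Kf (c i) (c i) (b i) := by
    rw [hsplit1, hsplit2, sub_mul]
  have g6 : C 2 * ((∏ a, Qm γ a) * ∏ i ∈ N \ Finset.univ.image u, C (b i ^ 2)) =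
      (C 2 * Qm γ 0) * ((∏ a ∈ Finset.univ.erase (0 : Fin (n + 2)), Qm γ a) *
        ∏ i ∈ N \ Finset.univ.image u, C (b i ^ 2)) := by
    rw [← Finset.mul_prod_erase Finset.univ (Qm γ) (Finset.mem_univ 0), mul_assoc, mul_assoc]
  rw [g5, g6]
  refine NN.mul_sub ((NN.C (by norm_num)).mul (Qm_NN γ 0)) ?_ g4 g3
  exact NN.prod _ fun i _ => Kf_NN (hc _) (hc _) (hb _)

theorem lift_t1 (N : Finset ρ) (c : ρ → Fin (n + 2) → ℝ) (b : ρ → ℝ) :
    theta (map Complex.ofRealHom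
      (∏ i ∈ N, (aff2 (c i) (fun _ => 0) (b i) * aff2 (fun _ => 0) (c i) (b i)))) =
      map Complex.ofRealHom (∏ i ∈ N, Kf (c i) (c i) (b i)) := by
  rw [map_prod, map_prod, map_prod]
  refine Finset.prod_congr rfl fun i _ => ?_
  have e3 := theta_pair (c i) (fun _ => 0) (b i)
  simp only [add_zero, sub_zero] at e3
  exact e3

theorem lift_t2 (N : Finset ρ) (c : ρ → Fin (n + 2) → ℝ) (b : ρ → ℝ) (u : Fin (n + 2) → ρ) :
    theta (map Complex.ofRealHom (∏ i ∈ N,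
      (aff2 (fun a => c i a - Bm c u i a) (Bm c u i) (b i) *
        aff2 (Bm c u i) (fun a => c i a - Bm c u i a) (b i)))) =
      map Complex.ofRealHom (∏ i ∈ N, Kf (c i) (em c u i) (b i)) := by
  rw [map_prod, map_prod, map_prod]
  refine Finset.prod_congr rfl fun i _ => ?_
  have e1 : (fun a => c i a - Bm c u i a + Bm c u i a) = c i := by
    ext a; ring
  have e2 : (fun a => c i a - Bm c u i a - Bm c u i a) = em c u i := by
    ext a
    simp only [em]
    ring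
  have e3 := theta_pair (fun a => c i a - Bm c u i a) (Bm c u i) (b i)
  rw [e1, e2] at e3
  exact e3

theorem lift_sq (N : Finset ρ) (c : ρ → Fin (n + 2) → ℝ) (b : ρ → ℝ)
    (l : List (Fin (n + 2))) :
    eval 0 (pdl (dbl l)
      (∏ i ∈ N, (aff2 (c i) (fun _ => 0) (b i) * aff2 (fun _ => 0) (c i) (b i)))) =
      (eval 0 (pdl l (∏ i ∈ N, affForm (c i) (b i)))) ^ 2 := by
  have h3 : (∏ i ∈ N, (aff2 (c i) (fun _ => 0) (b i) * aff2 (fun _ => 0) (c i) (b i))) =
      rename Sum.inl (∏ i ∈ N, affForm (c i) (b i)) *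
      rename Sum.inr (∏ i ∈ N, affForm (c i) (b i)) := by
    rw [map_prod, map_prod, ← Finset.prod_mul_distrib]
    refine Finset.prod_congr rfl fun i _ => ?_
    rw [aff2_inl, aff2_inr]
  rw [h3, pdl_dbl_rename, map_mul, eval_zero_rename, eval_zero_rename, pow_two]

theorem lift_loss (N : Finset ρ) (c : ρ → Fin (n + 2) → ℝ) (hc : ∀ i a, 0 ≤ c i a)
    (b : ρ → ℝ) (hb : ∀ i, 0 ≤ b i) (u : Fin (n + 2) → ρ) (hu : Function.Injective u)
    (huN : ∀ a, u a ∈ N) (γ : ℝ) (h1 : ∀ a, c (u a) a = γ)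
    (h2 : ∀ a, c (u a) (a + 1) = γ) :
    eval 0 (pdl (dbl (List.finRange (n + 2))) (∏ i ∈ N,
      (aff2 (fun a => c i a - Bm c u i a) (Bm c u i) (b i) *
        aff2 (Bm c u i) (fun a => c i a - Bm c u i a) (b i)))) +
      2 * γ ^ (2 * (n + 2)) * ∏ i ∈ N \ Finset.univ.image u, b i ^ 2 ≤
    (eval 0 (pdl (List.finRange (n + 2)) (∏ i ∈ N, affForm (c i) (b i)))) ^ 2 := by
  have T1 := transfer (List.finRange (n + 2)) _ _ (lift_t1 N c b)
  have T2 := transfer (List.finRange (n + 2)) _ _ (lift_t2 N c b u)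
  rw [lift_sq, List.length_finRange] at T1
  rw [List.length_finRange] at T2
  have hfin := eval_zero_NN (LapL_NN (lift_NN N c hc b hb u hu huN γ h1 h2)
    (List.finRange (n + 2)))
  rw [LapL_sub, LapL_sub, map_sub, map_sub, T1, T2] at hfin
  have hQprod : C 2 * ((∏ a, Qm γ a) * ∏ i ∈ N \ Finset.univ.image u, C (b i ^ 2)) =
      C (2 * (2 * γ * γ) ^ (n + 2) * ∏ i ∈ N \ Finset.univ.image u, b i ^ 2) *
        (((List.finRange (n + 2)).map (fun a => (X (Sum.inr a) ^ 2 :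
          MvPolynomial (Fin (n + 2) ⊕ Fin (n + 2)) ℝ))).prod) := by
    rw [Qm_prod, ← map_prod, C_mul, C_mul]
    ring
  rw [hQprod, LapL_C_mul, LapL_squares _ (List.nodup_finRange _), map_mul, eval_C, eval_C,
    List.length_finRange] at hfin
  have h4 : (0 : ℝ) < 4 ^ (n + 2) := by positivity
  have h5 : 2 * (2 * γ * γ) ^ (n + 2) * (∏ i ∈ N \ Finset.univ.image u, b i ^ 2) *
      2 ^ (n + 2) = 4 ^ (n + 2) * (2 * γ ^ (2 * (n + 2)) *
        ∏ i ∈ N \ Finset.univ.image u, b i ^ 2) := by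
    rw [show 2 * γ * γ = 2 * γ ^ 2 by ring, mul_pow, ← pow_mul, show (4 : ℝ) = 2 * 2 by norm_num,
      mul_pow]
    ring
  rw [h5, ← mul_sub, ← mul_sub] at hfin
  have h6 := nonneg_of_mul_nonneg_right hfin h4
  linarith

end cycle

end Pool.Agent.H37
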