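import Mathlib
import Pool.Agent.H37.LiftIneq

set_option autoImplicit false
set_option linter.unusedSectionVars false

namespace Pool.Agent.H37

open MvPolynomial

theorem exp_gap {t : ℝ} (ht : 1 ≤ |t|) : 1 + t + 1 / 4 ≤ Real.exp t := by
  rcases le_abs.1 ht with h | h
  · have := Real.quadratic_le_exp_of_nonneg (by linarith : 0 ≤ t)
    nlinarith
  · by_cases h2 : -2 ≤ t
    · have h3 := Real.add_one_le_exp (t / 2)
      have h4 : Real.exp t = Real.exp (t / 2) ^ 2 := by
        rw [pow_two, ← Real.exp_add]; congr 1; ring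
      rw [h4]
      have h5 : 0 ≤ t / 2 + 1 := by linarith
      have h6 : (t / 2 + 1) ^ 2 ≤ Real.exp (t / 2) ^ 2 := pow_le_pow_left₀ h5 h3 2
      nlinarith
    · push Not at h2
      have := Real.exp_pos t
      linarith

section rows

variable {ι : Type} [Fintype ι]

theorem row_ge (w ξ : ι → ℝ) (hw : ∀ i, 0 ≤ w i) (hsum : ∑ i, w i = 1) :
    Real.exp (∑ i, w i * ξ i) ≤ ∑ i, w i * Real.exp (ξ i) := by
  set μ := ∑ i, w i * ξ i with hμ
  have h1 : ∀ i, w i * (Real.exp μ * (1 + (ξ i - μ))) ≤ w i * Real.exp (ξ i) := by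
    intro i
    refine mul_le_mul_of_nonneg_left ?_ (hw i)
    have h2 := Real.add_one_le_exp (ξ i - μ)
    have h3 : Real.exp (ξ i) = Real.exp μ * Real.exp (ξ i - μ) := by
      rw [← Real.exp_add]; congr 1; ring
    rw [h3]
    exact mul_le_mul_of_nonneg_left (by linarith) (Real.exp_nonneg _)
  refine le_trans (le_of_eq ?_) (Finset.sum_le_sum fun i _ => h1 i)
  have h4 : ∀ i, w i * (Real.exp μ * (1 + (ξ i - μ))) =
      Real.exp μ * (w i) + Real.exp μ * (w i * ξ i) - Real.exp μ * μ * w i := by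
    intro i; ring
  simp only [h4]
  rw [Finset.sum_sub_distrib, Finset.sum_add_distrib, ← Finset.mul_sum, ← Finset.mul_sum,
    ← Finset.mul_sum, hsum, ← hμ]
  ring

theorem row_gap (w ξ : ι → ℝ) (hw : ∀ i, 0 ≤ w i) (hsum : ∑ i, w i = 1) (k : ι)
    (hk : 1 ≤ |ξ k - ∑ i, w i * ξ i|) :
    Real.exp (∑ i, w i * ξ i) * (1 + w k / 4) ≤ ∑ i, w i * Real.exp (ξ i) := by
  classical
  set μ := ∑ i, w i * ξ i with hμ
  have h1 : ∀ i, w i * (Real.exp μ * (1 + (ξ i - μ) + if i = k then 1 / 4 else 0)) ≤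
      w i * Real.exp (ξ i) := by
    intro i
    refine mul_le_mul_of_nonneg_left ?_ (hw i)
    have h3 : Real.exp (ξ i) = Real.exp μ * Real.exp (ξ i - μ) := by
      rw [← Real.exp_add]; congr 1; ring
    rw [h3]
    refine mul_le_mul_of_nonneg_left ?_ (Real.exp_nonneg _)
    by_cases h : i = k
    · subst h
      simpa using exp_gap hk
    · have h2 := Real.add_one_le_exp (ξ i - μ)
      simp only [h, if_false]
      linarith
  refine le_trans (le_of_eq ?_) (Finset.sum_le_sum fun i _ => h1 i)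
  have h4 : ∀ i, w i * (Real.exp μ * (1 + (ξ i - μ) + if i = k then 1 / 4 else 0)) =
      Real.exp μ * (w i) + Real.exp μ * (w i * ξ i) - Real.exp μ * μ * w i +
      (if i = k then Real.exp μ * (w i / 4) else 0) := by
    intro i
    split_ifs <;> ring
  simp only [h4]
  rw [Finset.sum_add_distrib, Finset.sum_sub_distrib, Finset.sum_add_distrib, ← Finset.mul_sum,
    ← Finset.mul_sum, ← Finset.mul_sum, hsum, ← hμ, Finset.sum_ite_eq']
  simp
  ring

end rows

variable {n : ℕ} {ρ : Type} [DecidableEq ρ]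

/-- The hypotheses on a local piece of a regular bipartite graph around a cycle. -/
structure Gadget (d : ℕ) (N : Finset ρ) (c : ρ → Fin (n + 2) → ℝ) (u : Fin (n + 2) → ρ) :
    Prop where
  cval : ∀ i a, c i a = 0 ∨ c i a = 1 / d
  col : ∀ a, ∑ i ∈ N, c i a = 1
  row : ∀ i, ∑ a, c i a ≤ 1
  uinj : Function.Injective u
  umem : ∀ a, u a ∈ N
  c1 : ∀ a, c (u a) a = 1 / d
  c2 : ∀ a, c (u a) (a + 1) = 1 / d
  deg : ∀ i ∈ N, i ∉ Finset.univ.image u → (1 : ℝ) / d ≤ 1 - ∑ a, c i a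
  conn : ∀ i ∈ N, ∃ a, c i a ≠ 0

namespace Gadget

variable {d : ℕ} {N : Finset ρ} {c : ρ → Fin (n + 2) → ℝ} {u : Fin (n + 2) → ρ}

theorem nonneg (h : Gadget d N c u) (i : ρ) (a : Fin (n + 2)) : 0 ≤ c i a := by
  rcases h.cval i a with h1 | h1 <;> rw [h1]
  positivity

theorem colcard (h : Gadget d N c u) (hd : 2 ≤ d) (a : Fin (n + 2)) :
    (N.filter (fun i => c i a ≠ 0)).card ≤ d := by
  have h1 := h.col a
  rw [← Finset.sum_filter_ne_zero] at h1
  have h2 : ∑ i ∈ N.filter (fun i => c i a ≠ 0), c i a =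
      ∑ i ∈ N.filter (fun i => c i a ≠ 0), (1 / (d : ℝ)) :=
    Finset.sum_congr rfl fun i hi =>
      (h.cval i a).resolve_left (Finset.mem_filter.1 hi).2
  rw [h2, Finset.sum_const, nsmul_eq_mul] at h1
  have hd0 : (0 : ℝ) < d := by
    have : (2 : ℝ) ≤ d := by exact_mod_cast hd
    linarith
  have h3 : ((N.filter (fun i => c i a ≠ 0)).card : ℝ) = d := by
    field_simp at h1
    exact h1
  exact (by exact_mod_cast h3.le)

/-- Weights of a row, indexed by the columns and one extra index. -/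
def wt (c : ρ → Fin (n + 2) → ℝ) (i : ρ) : Option (Fin (n + 2)) → ℝ
  | none => 1 - ∑ a, c i a
  | some a => c i a

theorem wt_nonneg (h : Gadget d N c u) (i : ρ) (o : Option (Fin (n + 2))) : 0 ≤ wt c i o := by
  rcases o with _ | a
  · have := h.row i
    simp only [wt]; linarith
  · exact h.nonneg i a

theorem wt_sum (i : ρ) : ∑ o, wt c i o = 1 := by
  rw [Fintype.sum_option]
  simp [wt]

/-- logarithms -/
noncomputable def lg (x : Fin (n + 2) → ℝ) (y : ℝ) : Option (Fin (n + 2)) → ℝ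
  | none => Real.log y
  | some a => Real.log (x a)

theorem row_eq {x : Fin (n + 2) → ℝ} {y : ℝ} (hx : ∀ a, 0 < x a) (hy : 0 < y) (i : ρ) :
    ∑ o, wt c i o * Real.exp (lg x y o) = ∑ a, c i a * x a + (1 - ∑ a, c i a) * y := by
  rw [Fintype.sum_option]
  simp only [wt, lg]
  rw [Real.exp_log hy, add_comm]
  congr 1
  exact Finset.sum_congr rfl fun a _ => by rw [Real.exp_log (hx a)]

theorem mean_eq (x : Fin (n + 2) → ℝ) (y : ℝ) (i : ρ) :
    ∑ o, wt c i o * lg x y o = ∑ a, c i a * Real.log (x a) +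
      (1 - ∑ a, c i a) * Real.log y := by
  rw [Fintype.sum_option]
  simp only [wt, lg]
  rw [add_comm]

theorem sum_mean (h : Gadget d N c u) (x : Fin (n + 2) → ℝ) (y : ρ → ℝ) :
    ∑ i ∈ N, ∑ o, wt c i o * lg x (y i) o = ∑ a, Real.log (x a) +
      ∑ i ∈ N, (1 - ∑ a, c i a) * Real.log (y i) := by
  simp only [mean_eq]
  rw [Finset.sum_add_distrib, Finset.sum_comm]
  congr 1
  refine Finset.sum_congr rfl fun a _ => ?_
  rw [← Finset.sum_mul, h.col, one_mul]

/-- The product of row means. -/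
theorem prod_mean (h : Gadget d N c u) {x : Fin (n + 2) → ℝ} (hx : ∀ a, 0 < x a) (y : ρ → ℝ) :
    ∏ i ∈ N, Real.exp (∑ o, wt c i o * lg x (y i) o) =
      (∏ a, x a) * Real.exp (∑ i ∈ N, (1 - ∑ a, c i a) * Real.log (y i)) := by
  rw [← Real.exp_sum, h.sum_mean, Real.exp_add, Real.exp_sum]
  congr 1
  exact Finset.prod_congr rfl fun a _ => Real.exp_log (hx a)

/-- If some row is unbalanced there is a gain. -/
theorem case_gap (h : Gadget d N c u) {x : Fin (n + 2) → ℝ} (hx : ∀ a, 0 < x a)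
    {y : ρ → ℝ} (hy : ∀ i, 0 < y i) {i0 : ρ} (hi0 : i0 ∈ N) (k : Option (Fin (n + 2)))
    (hk : (1 : ℝ) / d ≤ wt c i0 k)
    (hdev : 1 ≤ |lg x (y i0) k - ∑ o, wt c i0 o * lg x (y i0) o|) :
    (1 + 1 / (4 * d)) * Real.exp (∑ i ∈ N, (1 - ∑ a, c i a) * Real.log (y i)) * ∏ a, x a ≤
      ∏ i ∈ N, (∑ a, c i a * x a + (1 - ∑ a, c i a) * y i) := by
  have h1 : ∀ i ∈ N, Real.exp (∑ o, wt c i o * lg x (y i) o) *
      (if i = i0 then (1 + 1 / (4 * (d : ℝ))) else 1) ≤
      ∑ a, c i a * x a + (1 - ∑ a, c i a) * y i := by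
    intro i _
    rw [← row_eq hx (hy i) i]
    by_cases hi : i = i0
    · subst hi
      simp only [if_true]
      refine le_trans ?_ (row_gap (wt c i) (lg x (y i)) (h.wt_nonneg i) (wt_sum i) k hdev)
      refine mul_le_mul_of_nonneg_left ?_ (Real.exp_nonneg _)
      have : 1 / (4 * (d : ℝ)) = (1 / d) / 4 := by
        rw [one_div, one_div, mul_inv]; ring
      rw [this]
      linarith
    · simp only [hi, if_false, mul_one]
      exact row_ge (wt c i) (lg x (y i)) (h.wt_nonneg i) (wt_sum i)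
  refine le_trans (le_of_eq ?_) (Finset.prod_le_prod (fun i _ => ?_) h1)
  · rw [Finset.prod_mul_distrib, h.prod_mean hx, Finset.prod_ite_eq']
    simp only [hi0, if_true]
    ring
  · split_ifs <;> positivity

end Gadget

end Pool.Agent.H37
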