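import Mathlib
import Pool.Agent.H37.Local

set_option autoImplicit false
set_option linter.unusedSectionVars false

namespace Pool.Agent.H37

open MvPolynomial

variable {n : ℕ} {ρ : Type} [DecidableEq ρ]

theorem mem_dbl {W : Type} [DecidableEq W] (l : List W) (hall : ∀ w, w ∈ l) (o : W ⊕ W) : o ∈ dbl l := by
  unfold dbl
  rw [List.mem_flatMap]
  rcases o with a | a
  · exact ⟨a, hall a, by simp⟩
  · exact ⟨a, hall a, by simp⟩

theorem dbl_length {W : Type} [DecidableEq W] (l : List W) : (dbl l).length = 2 * l.length := by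
  induction l with
  | nil => rfl
  | cons a l ih => rw [dbl_cons, List.length_cons, List.length_cons, ih, List.length_cons]; ring

theorem mem_dbl_iff {W : Type} [DecidableEq W] (l : List W) (a : W) :
    (Sum.inl a ∈ dbl l ↔ a ∈ l) ∧ (Sum.inr a ∈ dbl l ↔ a ∈ l) := by
  unfold dbl
  simp [List.mem_flatMap]

theorem dbl_nodup {W : Type} [DecidableEq W] (l : List W) (hl : l.Nodup) : (dbl l).Nodup := by
  induction l with
  | nil => exact List.nodup_nil
  | cons a l ih =>
    rw [List.nodup_cons] at hl
    rw [dbl_cons, List.nodup_cons, List.nodup_cons, List.mem_cons, (mem_dbl_iff l a).1,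
      (mem_dbl_iff l a).2]
    exact ⟨by simp [hl.1], hl.1, ih hl.2⟩

theorem dbl_prod {W : Type} [DecidableEq W] (l : List W) (x : W ⊕ W → ℝ) :
    ((dbl l).map x).prod = (l.map (fun a => x (Sum.inl a) * x (Sum.inr a))).prod := by
  induction l with
  | nil => rfl
  | cons a l ih =>
    rw [dbl_cons, List.map_cons, List.map_cons, List.prod_cons, List.prod_cons, ih,
      List.map_cons, List.prod_cons]
    ring

namespace Gadget

variable {d : ℕ} {N : Finset ρ} {c : ρ → Fin (n + 2) → ℝ} {u : Fin (n + 2) → ρ}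

/-- Rows of the lifted gadget. -/
def cl (c : ρ → Fin (n + 2) → ℝ) (u : Fin (n + 2) → ρ) (x : ρ × Bool) :
    Fin (n + 2) ⊕ Fin (n + 2) → ℝ
  | Sum.inl a => if x.2 then Bm c u x.1 a else c x.1 a - Bm c u x.1 a
  | Sum.inr a => if x.2 then c x.1 a - Bm c u x.1 a else Bm c u x.1 a

theorem Bm_nonneg (h : Gadget d N c u) (i : ρ) (a : Fin (n + 2)) : 0 ≤ Bm c u i a := by
  unfold Bm
  split_ifs
  · exact h.nonneg i a
  · exact le_rfl

theorem Bm_le (h : Gadget d N c u) (i : ρ) (a : Fin (n + 2)) : Bm c u i a ≤ c i a := by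
  unfold Bm
  split_ifs
  · exact le_rfl
  · exact h.nonneg i a

theorem Bm_or (i : ρ) (a : Fin (n + 2)) : Bm c u i a = 0 ∨ c i a - Bm c u i a = 0 := by
  unfold Bm
  split_ifs
  · right; ring
  · left; rfl

theorem cl_nonneg (h : Gadget d N c u) (x : ρ × Bool) (o : Fin (n + 2) ⊕ Fin (n + 2)) :
    0 ≤ cl c u x o := by
  have h1 := h.Bm_nonneg x.1
  have h2 := h.Bm_le x.1
  rcases o with a | a <;> unfold cl <;> simp only <;> split_ifs
  · exact h1 a
  · linarith [h2 a]
  · linarith [h2 a]
  · exact h1 a

theorem cl_supp (x : ρ × Bool) (a : Fin (n + 2)) :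
    (cl c u x (Sum.inl a) ≠ 0 → c x.1 a ≠ 0) ∧ (cl c u x (Sum.inr a) ≠ 0 → c x.1 a ≠ 0) := by
  unfold cl Bm
  constructor
  · simp only
    split_ifs <;> simp_all
  · simp only
    split_ifs <;> simp_all

theorem cl_inj (i : ρ) (o : Fin (n + 2) ⊕ Fin (n + 2)) :
    cl c u (i, false) o = 0 ∨ cl c u (i, true) o = 0 := by
  rcases o with a | a
  · unfold cl
    simp only [if_true, Bool.false_eq_true, if_false]
    exact (Bm_or i a).symm
  · unfold cl
    simp only [if_true, Bool.false_eq_true, if_false]
    exact Bm_or i a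

open Classical in
theorem cl_deg (h : Gadget d N c u) (hd : 2 ≤ d) (o : Fin (n + 2) ⊕ Fin (n + 2)) :
    ((N ×ˢ (Finset.univ : Finset Bool)).filter (fun x => cl c u x o ≠ 0)).card ≤ d := by
  obtain ⟨a, ha⟩ : ∃ a, ∀ x, cl c u x o ≠ 0 → c x.1 a ≠ 0 := by
    rcases o with a | a
    · exact ⟨a, fun x => (cl_supp x a).1⟩
    · exact ⟨a, fun x => (cl_supp x a).2⟩
  refine le_trans (Finset.card_le_card_of_injOn (t := N.filter (fun i => c i a ≠ 0))
    (fun x => x.1) ?_ ?_) (h.colcard hd a)
  · intro x hx
    rw [Finset.mem_coe, Finset.mem_filter, Finset.mem_product] at hx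
    rw [Finset.mem_coe, Finset.mem_filter]
    exact ⟨hx.1.1, ha x hx.2⟩
  · rintro ⟨i, e⟩ hx ⟨i', e'⟩ hx' hii
    rw [Finset.mem_coe, Finset.mem_filter] at hx hx'
    simp only at hii
    subst hii
    have h1 := cl_inj (c := c) (u := u) i o
    rcases e with _ | _ <;> rcases e' with _ | _
    · rfl
    · rcases h1 with h1 | h1
      · exact absurd h1 hx.2
      · exact absurd h1 hx'.2
    · rcases h1 with h1 | h1
      · exact absurd h1 hx'.2
      · exact absurd h1 hx.2
    · rfl

/-- Lower bound for the lifted gadget. -/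
theorem lifted_ge (h : Gadget d N c u) (hd : 2 ≤ d) {y : ρ → ℝ} (hy : ∀ i, 0 < y i) :
    Gc d ^ (2 * (n + 2)) * Real.exp (2 * ∑ i ∈ N, (1 - ∑ a, c i a) * Real.log (y i)) ≤
    eval 0 (pdl (dbl (List.finRange (n + 2))) (∏ i ∈ N,
      (aff2 (fun a => c i a - Bm c u i a) (Bm c u i) ((1 - ∑ a, c i a) * y i) *
        aff2 (Bm c u i) (fun a => c i a - Bm c u i a) ((1 - ∑ a, c i a) * y i)))) := by
  classical
  have hU : ∀ i, 0 ≤ (1 - ∑ a, c i a) := fun i => by linarith [h.row i]
  have key := abs_gurvits hd (N ×ˢ (Finset.univ : Finset Bool)) (cl c u) h.cl_nonneg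
    (fun x => (1 - ∑ a, c x.1 a) * y x.1) (fun x => mul_nonneg (hU _) (hy _).le)
    (dbl (List.finRange (n + 2))) (dbl_nodup _ (List.nodup_finRange _))
    (mem_dbl _ (fun w => List.mem_finRange w)) (h.cl_deg hd)
    (Real.exp (2 * ∑ i ∈ N, (1 - ∑ a, c i a) * Real.log (y i))) (Real.exp_nonneg _) (by
      intro x hx
      -- each row
      have hrow : ∀ z : ρ × Bool,
          Real.exp (∑ o, cl c u z o * Real.log (x o) + (1 - ∑ a, c z.1 a) * Real.log (y z.1)) ≤
          ∑ o, cl c u z o * x o + (1 - ∑ a, c z.1 a) * y z.1 := by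
        intro z
        have hs : ∑ o, cl c u z o = ∑ a, c z.1 a := by
          rw [Fintype.sum_sum_type, ← Finset.sum_add_distrib]
          refine Finset.sum_congr rfl fun a _ => ?_
          unfold cl
          simp only
          split_ifs <;> ring
        have h1 := row_ge (ι := Option (Fin (n + 2) ⊕ Fin (n + 2)))
          (fun o => match o with
            | none => 1 - ∑ a, c z.1 a
            | some o => cl c u z o)
          (fun o => match o with
            | none => Real.log (y z.1)
            | some o => Real.log (x o))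
          (by
            intro o
            rcases o with _ | o
            · exact hU _
            · exact h.cl_nonneg z o)
          (by rw [Fintype.sum_option, hs]; ring)
        rw [Fintype.sum_option, Fintype.sum_option] at h1
        simp only at h1
        rw [Real.exp_log (hy _)] at h1
        have h2 : ∑ o, cl c u z o * Real.exp (Real.log (x o)) = ∑ o, cl c u z o * x o :=
          Finset.sum_congr rfl fun o _ => by rw [Real.exp_log (hx o)]
        rw [h2] at h1
        rw [add_comm, add_comm (∑ o, cl c u z o * x o)]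
        exact h1
      refine le_trans (le_of_eq ?_) (Finset.prod_le_prod (fun z _ => Real.exp_nonneg _)
        (fun z _ => hrow z))
      rw [← Real.exp_sum, Finset.sum_product, dbl_prod]
      have h3 : ∀ i ∈ N, ∑ e : Bool, (∑ o, cl c u (i, e) o * Real.log (x o) +
          (1 - ∑ a, c i a) * Real.log (y i)) =
          ∑ a, c i a * (Real.log (x (Sum.inl a)) + Real.log (x (Sum.inr a))) +
          2 * ((1 - ∑ a, c i a) * Real.log (y i)) := by
        intro i _
        rw [Fintype.sum_bool, Fintype.sum_sum_type, Fintype.sum_sum_type]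
        simp only [cl, if_true, Bool.false_eq_true, if_false]
        have h4 : ∑ a, c i a * (Real.log (x (Sum.inl a)) + Real.log (x (Sum.inr a))) =
            ∑ a, Bm c u i a * Real.log (x (Sum.inl a)) +
            ∑ a, (c i a - Bm c u i a) * Real.log (x (Sum.inr a)) +
            (∑ a, (c i a - Bm c u i a) * Real.log (x (Sum.inl a)) +
              ∑ a, Bm c u i a * Real.log (x (Sum.inr a))) := by
          rw [← Finset.sum_add_distrib, ← Finset.sum_add_distrib, ← Finset.sum_add_distrib]
          exact Finset.sum_congr rfl fun a _ => by ring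
        rw [h4]
        ring
      rw [Finset.sum_congr rfl h3, Finset.sum_add_distrib, ← Finset.mul_sum, Finset.sum_comm]
      have h5 : ∑ a, ∑ i ∈ N, c i a * (Real.log (x (Sum.inl a)) + Real.log (x (Sum.inr a))) =
          ∑ a, (Real.log (x (Sum.inl a)) + Real.log (x (Sum.inr a))) :=
        Finset.sum_congr rfl fun a _ => by rw [← Finset.sum_mul, h.col, one_mul]
      rw [h5, Real.exp_add, Real.exp_sum, ← Fin.prod_univ_def, mul_comm]
      congr 1
      exact Finset.prod_congr rfl fun a _ => by
        rw [Real.exp_add, Real.exp_log (hx _), Real.exp_log (hx _)])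
  rw [dbl_length, List.length_finRange] at key
  refine key.trans (le_of_eq ?_)
  congr 2
  rw [Finset.prod_product]
  refine Finset.prod_congr rfl fun i _ => ?_
  rw [Fintype.prod_bool, mul_comm]
  congr 1
  · unfold affForm aff2
    rw [Fintype.sum_sum_type]
    simp [cl]
  · unfold affForm aff2
    rw [Fintype.sum_sum_type]
    simp [cl]

end Gadget

end Pool.Agent.H37
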