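import Mathlib
import Pool.Agent.H37.Local2

set_option autoImplicit false
set_option linter.unusedSectionVars false

namespace Pool.Agent.H37

open MvPolynomial

theorem pdl_NN {W : Type} [DecidableEq W] {p : MvPolynomial W ℝ} (h : NN p) (l : List W) :
    NN (pdl l p) := by
  induction l with
  | nil => exact h
  | cons a l ih => exact ih.pderiv a

theorem affForm_NN {W : Type} [DecidableEq W] [Fintype W] {c : W → ℝ} (hc : ∀ a, 0 ≤ c a)
    {b : ℝ} (hb : 0 ≤ b) : NN (affForm c b) :=
  (NN.sum _ fun a _ => (NN.C (hc a)).mul (NN.X a)).add (NN.C hb)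

variable {n : ℕ} {ρ : Type} [DecidableEq ρ]

namespace Gadget

variable {d : ℕ} {N : Finset ρ} {c : ρ → Fin (n + 2) → ℝ} {u : Fin (n + 2) → ρ}

theorem U_ge (h : Gadget d N c u) (hd : 2 ≤ d) (i : ρ) (hU : 0 < 1 - ∑ a, c i a) :
    (1 : ℝ) / d ≤ 1 - ∑ a, c i a := by
  have hd0 : (0 : ℝ) < d := by
    have : (2 : ℝ) ≤ d := by exact_mod_cast hd
    linarith
  have h1 : ∑ a, c i a = ((Finset.univ.filter (fun a => c i a ≠ 0)).card : ℝ) / d := by
    rw [← Finset.sum_filter_ne_zero]
    have h2 : ∑ a ∈ Finset.univ.filter (fun a => c i a ≠ 0), c i a =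
        ∑ a ∈ Finset.univ.filter (fun a => c i a ≠ 0), (1 / (d : ℝ)) :=
      Finset.sum_congr rfl fun a ha =>
        (h.cval i a).resolve_left (Finset.mem_filter.1 ha).2
    rw [h2, Finset.sum_const, nsmul_eq_mul]
    ring
  rw [h1] at hU ⊢
  set w := (Finset.univ.filter (fun a => c i a ≠ 0)).card
  have h3 : (w : ℝ) < d := by
    have : (w : ℝ) / d < 1 := by linarith
    rwa [div_lt_one hd0] at this
  have h4 : w + 1 ≤ d := by
    have : w < d := by exact_mod_cast h3
    omega
  have h5 : (w : ℝ) + 1 ≤ d := by exact_mod_cast h4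
  rw [div_le_iff₀ hd0, sub_mul, one_mul, div_mul_cancel₀ _ hd0.ne']
  linarith

theorem spread (h : Gadget d N c u) (hd : 2 ≤ d) {x : Fin (n + 2) → ℝ} (hx : ∀ a, 0 < x a)
    {y : ρ → ℝ} (hy : ∀ i, 0 < y i)
    (hlt : ∏ i ∈ N, (∑ a, c i a * x a + (1 - ∑ a, c i a) * y i) <
      (1 + 1 / (4 * d)) * Real.exp (∑ i ∈ N, (1 - ∑ a, c i a) * Real.log (y i)) * ∏ a, x a)
    (i : ρ) (hi : i ∈ N) (hU : 0 < 1 - ∑ a, c i a) :
    |Real.log (y i) - Real.log (x 0)| ≤ 2 * (n + 2) := by
  have key : ∀ i ∈ N, ∀ k, (1 : ℝ) / d ≤ wt c i k →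
      |lg x (y i) k - ∑ o, wt c i o * lg x (y i) o| < 1 := by
    intro i hi k hk
    by_contra hcon
    push Not at hcon
    exact absurd (h.case_gap hx hy hi k hk hcon) (not_le.2 hlt)
  have hstep : ∀ a : Fin (n + 2), |Real.log (x (a + 1)) - Real.log (x a)| ≤ 2 := by
    intro a
    have h1 := key (u a) (h.umem a) (some a) (by simp [wt, h.c1])
    have h2 := key (u a) (h.umem a) (some (a + 1)) (by simp [wt, h.c2])
    simp only [lg] at h1 h2
    rw [abs_lt] at h1 h2
    rw [abs_le]
    constructor <;> linarith [h1.1, h1.2, h2.1, h2.2]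
  have hall : ∀ a : Fin (n + 2), |Real.log (x a) - Real.log (x 0)| ≤ 2 * (a.val : ℝ) := by
    intro a
    induction a using Fin.induction with
    | zero => simp
    | succ j ih =>
      have h1 := hstep j.castSucc
      rw [Fin.coeSucc_eq_succ] at h1
      rw [Fin.val_castSucc] at ih
      rw [Fin.val_succ]
      push_cast
      rw [abs_le] at *
      constructor <;> linarith [h1.1, h1.2, ih.1, ih.2]
  obtain ⟨a, ha⟩ := h.conn i hi
  have ha' := (h.cval i a).resolve_left ha
  have h1 := key i hi (some a) (by simp [wt, ha'])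
  have h2 := key i hi none (by simpa [wt] using h.U_ge hd i hU)
  have h3 := hall a
  have h4 : (a.val : ℝ) ≤ n + 1 := by
    have := a.isLt
    have : a.val ≤ n + 1 := by omega
    exact_mod_cast this
  simp only [lg] at h1 h2
  rw [abs_lt] at h1 h2
  rw [abs_le] at h3 ⊢
  constructor <;> linarith [h1.1, h1.2, h2.1, h2.2, h3.1, h3.2]

theorem card_le (h : Gadget d N c u) (hd : 2 ≤ d) : N.card ≤ d * (n + 2) := by
  have h1 : N ⊆ Finset.univ.biUnion (fun a => N.filter (fun i => c i a ≠ 0)) := by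
    intro i hi
    obtain ⟨a, ha⟩ := h.conn i hi
    exact Finset.mem_biUnion.2 ⟨a, Finset.mem_univ _, Finset.mem_filter.2 ⟨hi, ha⟩⟩
  refine (Finset.card_le_card h1).trans ?_
  refine Finset.card_biUnion_le.trans ?_
  refine (Finset.sum_le_sum fun a _ => h.colcard hd a).trans ?_
  rw [Finset.sum_const, Finset.card_univ, Fintype.card_fin, smul_eq_mul, mul_comm]

theorem sum_U (h : Gadget d N c u) :
    ∑ i ∈ N, (1 - ∑ a, c i a) = ((N \ Finset.univ.image u).card : ℝ) := by
  have hsub : Finset.univ.image u ⊆ N := by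
    intro i hi
    obtain ⟨a, _, rfl⟩ := Finset.mem_image.1 hi
    exact h.umem a
  rw [Finset.sum_sub_distrib, Finset.sum_comm, Finset.sum_congr rfl (fun a _ => h.col a),
    Finset.card_sdiff_of_subset hsub, Finset.card_image_of_injective _ h.uinj,
    Nat.cast_sub ?_]
  · simp
  · have := Finset.card_le_card hsub
    rwa [Finset.card_image_of_injective _ h.uinj] at this

end Gadget

/-- The gain constant of the local inequality. -/
noncomputable def eta (d n : ℕ) : ℝ :=
  2 * (1 / (d : ℝ)) ^ (2 * (n + 2)) *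
    Real.exp (-((8 * (n + 2) + 2 * Real.log d) * (d * (n + 2))))

theorem eta_pos {d n : ℕ} (hd : 2 ≤ d) : 0 < eta d n := by
  have hd0 : (0 : ℝ) < d := by
    have : (2 : ℝ) ≤ d := by exact_mod_cast hd
    linarith
  unfold eta
  positivity

theorem eta_le {d n : ℕ} (hd : 2 ≤ d) : eta d n ≤ 2 := by
  have hd1 : (1 : ℝ) ≤ d := by
    have : (2 : ℝ) ≤ d := by exact_mod_cast hd
    linarith
  unfold eta
  have h1 : (1 / (d : ℝ)) ^ (2 * (n + 2)) ≤ 1 := by
    apply pow_le_one₀
    · positivity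
    · rw [div_le_one (by linarith)]; exact hd1
  have h2 : Real.exp (-((8 * (n + 2) + 2 * Real.log d) * (d * (n + 2)))) ≤ 1 := by
    rw [Real.exp_le_one_iff, neg_nonpos]
    have := Real.log_nonneg hd1
    positivity
  have h3 : 0 ≤ Real.exp (-((8 * (n + 2) + 2 * Real.log d) * (d * (n + 2)))) :=
    Real.exp_nonneg _
  calc 2 * (1 / (d : ℝ)) ^ (2 * (n + 2)) *
    Real.exp (-((8 * (n + 2) + 2 * Real.log d) * (d * (n + 2)))) ≤ 2 * 1 * 1 := by
        apply mul_le_mul _ h2 h3 (by norm_num)
        linarith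
    _ = 2 := by norm_num

noncomputable def delta (d n : ℕ) : ℝ := min (1 / (4 * d)) (eta d n / 3)

theorem delta_pos {d n : ℕ} (hd : 2 ≤ d) : 0 < delta d n := by
  have hd0 : (0 : ℝ) < d := by
    have : (2 : ℝ) ≤ d := by exact_mod_cast hd
    linarith
  have := eta_pos (n := n) hd
  unfold delta
  apply lt_min <;> positivity

/-- The local inequality: strict gain over the Bethe bound around a cycle. -/
theorem local_main {d : ℕ} (hd : 2 ≤ d) {N : Finset ρ} {c : ρ → Fin (n + 2) → ℝ}
    {u : Fin (n + 2) → ρ} (h : Gadget d N c u) {y : ρ → ℝ} (hy : ∀ i, 0 < y i) :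
    Gc d ^ (n + 2) * (1 + delta d n) *
      Real.exp (∑ i ∈ N, (1 - ∑ a, c i a) * Real.log (y i)) ≤
    eval 0 (pdl (List.finRange (n + 2))
      (∏ i ∈ N, affForm (c i) ((1 - ∑ a, c i a) * y i))) := by
  classical
  have hd2 : (2 : ℝ) ≤ d := by exact_mod_cast hd
  have hd0 : (0 : ℝ) < d := by linarith
  have hU : ∀ i, 0 ≤ (1 - ∑ a, c i a) := fun i => by linarith [h.row i]
  set L := ∑ i ∈ N, (1 - ∑ a, c i a) * Real.log (y i) with hL
  set g := eval 0 (pdl (List.finRange (n + 2))
      (∏ i ∈ N, affForm (c i) ((1 - ∑ a, c i a) * y i))) with hg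
  have hG := Gc_pos hd
  by_cases hcase : ∀ x : Fin (n + 2) → ℝ, (∀ a, 0 < x a) →
      (1 + 1 / (4 * d)) * Real.exp L * ∏ a, x a ≤
        ∏ i ∈ N, (∑ a, c i a * x a + (1 - ∑ a, c i a) * y i)
  · have key := abs_gurvits hd N c h.nonneg (fun i => (1 - ∑ a, c i a) * y i)
      (fun i => mul_nonneg (hU i) (hy i).le) (List.finRange (n + 2)) (List.nodup_finRange _)
      (fun w => List.mem_finRange w) (h.colcard hd) ((1 + 1 / (4 * d)) * Real.exp L)
      (by positivity) (by
        intro x hx
        rw [← Fin.prod_univ_def]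
        exact hcase x hx)
    rw [List.length_finRange] at key
    refine le_trans ?_ key
    rw [mul_assoc]
    refine mul_le_mul_of_nonneg_left ?_ (by positivity)
    refine mul_le_mul_of_nonneg_right ?_ (Real.exp_nonneg _)
    have : delta d n ≤ 1 / (4 * d) := min_le_left _ _
    linarith
  · push Not at hcase
    obtain ⟨x, hx, hlt⟩ := hcase
    have hsp := h.spread hd hx hy hlt
    set s := Real.log (x 0) with hs
    set M := (N \ Finset.univ.image u).card with hM
    have hloss := lift_loss N c h.nonneg (fun i => (1 - ∑ a, c i a) * y i)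
      (fun i => mul_nonneg (hU i) (hy i).le) u h.uinj h.umem (1 / d) h.c1 h.c2
    have hlift := h.lifted_ge hd hy
    rw [← hL] at hlift
    rw [← hg] at hloss
    -- bound for the loss
    have hLM : L ≤ M * (s + 2 * (n + 2)) := by
      have h1 : ∀ i ∈ N, (1 - ∑ a, c i a) * Real.log (y i) ≤
          (1 - ∑ a, c i a) * (s + 2 * (n + 2)) := by
        intro i hi
        rcases (hU i).eq_or_lt with h0 | hpos
        · rw [← h0]; simp
        · refine mul_le_mul_of_nonneg_left ?_ (hU i)
          have := (abs_le.1 (hsp i hi hpos)).2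
          linarith
      calc L ≤ ∑ i ∈ N, (1 - ∑ a, c i a) * (s + 2 * (n + 2)) := Finset.sum_le_sum h1
        _ = M * (s + 2 * (n + 2)) := by rw [← Finset.sum_mul, h.sum_U]
    have hprod : Real.exp (M * (2 * (s - 2 * (n + 2) - Real.log d))) ≤
        ∏ i ∈ N \ Finset.univ.image u, ((1 - ∑ a, c i a) * y i) ^ 2 := by
      rw [Real.exp_nat_mul, hM, ← Finset.prod_const]
      refine Finset.prod_le_prod (fun i _ => Real.exp_nonneg _) fun i hi => ?_
      obtain ⟨hiN, hiU⟩ := Finset.mem_sdiff.1 hi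
      have h1 := h.deg i hiN hiU
      have h2 : 0 < 1 - ∑ a, c i a := lt_of_lt_of_le (by positivity) h1
      have h3 := (abs_le.1 (hsp i hiN h2)).1
      have h4 : Real.exp (s - 2 * (n + 2) - Real.log d) ≤ (1 - ∑ a, c i a) * y i := by
        rw [Real.exp_sub, Real.exp_log hd0, div_eq_mul_inv, mul_comm, ← one_div]
        refine mul_le_mul h1 ?_ (Real.exp_nonneg _) h2.le
        rw [← Real.exp_log (hy i)]
        exact Real.exp_le_exp.2 (by linarith)
      have h5 : Real.exp (2 * (s - 2 * (n + 2) - Real.log d)) =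
          Real.exp (s - 2 * (n + 2) - Real.log d) ^ 2 := by
        rw [pow_two, ← Real.exp_add]; congr 1; ring
      rw [h5]
      exact pow_le_pow_left₀ (Real.exp_nonneg _) h4 2
    have hMle : (M : ℝ) ≤ d * (n + 2) := by
      have h1 : M ≤ d * (n + 2) := (Finset.card_le_card Finset.sdiff_subset).trans (h.card_le hd)
      exact_mod_cast h1
    have hlogd : 0 ≤ Real.log d := Real.log_nonneg (by linarith)
    have hexp : Real.exp (2 * L) *
        Real.exp (-((8 * (n + 2) + 2 * Real.log d) * (d * (n + 2)))) ≤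
        Real.exp (M * (2 * (s - 2 * (n + 2) - Real.log d))) := by
      rw [← Real.exp_add]
      refine Real.exp_le_exp.2 ?_
      have h1 : (8 * ((n : ℝ) + 2) + 2 * Real.log d) * M ≤
          (8 * ((n : ℝ) + 2) + 2 * Real.log d) * (d * (n + 2)) :=
        mul_le_mul_of_nonneg_left hMle (by positivity)
      nlinarith [h1, hLM]
    have hsq : (Gc d ^ (n + 2) * (1 + delta d n) * Real.exp L) ^ 2 ≤ g ^ 2 := by
      have e1 : Real.exp (2 * L) = Real.exp L ^ 2 := by
        rw [pow_two, ← Real.exp_add]; congr 1; ring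
      have e2 : (Gc d ^ (n + 2)) ^ 2 = Gc d ^ (2 * (n + 2)) := by
        rw [← pow_mul, mul_comm]
      have hδ : delta d n ≤ eta d n / 3 := min_le_right _ _
      have hδ0 := delta_pos (n := n) hd
      have hη0 := eta_pos (n := n) hd
      have hη2 := eta_le (n := n) hd
      have e3 : (1 + delta d n) ^ 2 ≤ 1 + eta d n := by nlinarith
      have hG1 : Gc d ^ (2 * (n + 2)) ≤ 1 := pow_le_one₀ hG.le (Gc_le_one hd)
      have e4 : eta d n * Real.exp (2 * L) ≤ 2 * (1 / (d : ℝ)) ^ (2 * (n + 2)) *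
          ∏ i ∈ N \ Finset.univ.image u, ((1 - ∑ a, c i a) * y i) ^ 2 := by
        unfold eta
        rw [mul_assoc _ _ (Real.exp (2 * L)), mul_comm _ (Real.exp (2 * L))]
        exact mul_le_mul_of_nonneg_left (hexp.trans hprod) (by positivity)
      calc (Gc d ^ (n + 2) * (1 + delta d n) * Real.exp L) ^ 2
          = Gc d ^ (2 * (n + 2)) * Real.exp (2 * L) * (1 + delta d n) ^ 2 := by
            rw [e1, ← e2]; ring
        _ ≤ Gc d ^ (2 * (n + 2)) * Real.exp (2 * L) * (1 + eta d n) :=
            mul_le_mul_of_nonneg_left e3 (by positivity)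
        _ = Gc d ^ (2 * (n + 2)) * Real.exp (2 * L) +
            Gc d ^ (2 * (n + 2)) * (eta d n * Real.exp (2 * L)) := by ring
        _ ≤ Gc d ^ (2 * (n + 2)) * Real.exp (2 * L) + 1 * (eta d n * Real.exp (2 * L)) := by
            have := mul_le_mul_of_nonneg_right hG1
              (by positivity : 0 ≤ eta d n * Real.exp (2 * L))
            linarith
        _ ≤ g ^ 2 := by
            rw [one_mul]
            linarith [hloss, hlift, e4]
    have hg0 : 0 ≤ g := by
      rw [hg]
      exact eval_zero_NN (pdl_NN (NN.prod _ fun i _ =>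
        affForm_NN (h.nonneg i) (mul_nonneg (hU i) (hy i).le)) _)
    have hleft : 0 ≤ Gc d ^ (n + 2) * (1 + delta d n) * Real.exp L := by
      have := delta_pos (n := n) hd
      positivity
    exact (pow_le_pow_iff_left₀ hleft hg0 two_ne_zero).1 hsq

end Pool.Agent.H37
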