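import Mathlib
import Pool.Agent.H37.Local3

set_option autoImplicit false
set_option linter.unusedSectionVars false

namespace Pool.Agent.H37

open MvPolynomial

variable {V : Type} [DecidableEq V]

/-- The variable `j` does not occur. -/
def NoVar (j : V) (p : MvPolynomial V ℝ) : Prop := ∀ m : V →₀ ℕ, m j ≠ 0 → coeff m p = 0

theorem NoVar.pderiv {j : V} {p : MvPolynomial V ℝ} (h : NoVar j p) :
    MvPolynomial.pderiv j p = 0 := by
  apply MvPolynomial.ext
  intro m
  rw [coeff_pderiv, h _ (by simp), zero_mul, coeff_zero]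

theorem NoVar.sub0 {j : V} {p : MvPolynomial V ℝ} (h : NoVar j p) : sub0 j p = p := by
  apply MvPolynomial.ext
  intro m
  rw [coeff_sub0]
  split_ifs with h0
  · rfl
  · exact (h m h0).symm

theorem NoVar.mul {j : V} {p q : MvPolynomial V ℝ} (hp : NoVar j p) (hq : NoVar j q) :
    NoVar j (p * q) := by
  intro m hm
  rw [coeff_mul]
  refine Finset.sum_eq_zero fun x hx => ?_
  have h1 : x.1 + x.2 = m := Finset.HasAntidiagonal.mem_antidiagonal.1 hx
  by_cases h2 : x.1 j = 0
  · have h3 : x.2 j ≠ 0 := by
      intro h3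
      apply hm
      rw [← h1, Finsupp.add_apply, h2, h3]
    rw [hq _ h3, mul_zero]
  · rw [hp _ h2, zero_mul]

theorem NoVar.one (j : V) : NoVar j (1 : MvPolynomial V ℝ) := by
  intro m hm
  rw [coeff_one, if_neg]
  rintro rfl
  simp at hm

theorem NoVar.prod {ι : Type} {j : V} (s : Finset ι) {f : ι → MvPolynomial V ℝ}
    (h : ∀ i ∈ s, NoVar j (f i)) : NoVar j (∏ i ∈ s, f i) := by
  classical
  induction s using Finset.induction_on with
  | empty => rw [Finset.prod_empty]; exact NoVar.one j
  | insert a s ha ih =>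
    rw [Finset.prod_insert ha]
    exact (h a (Finset.mem_insert_self _ _)).mul
      (ih fun i hi => h i (Finset.mem_insert_of_mem hi))

theorem NoVar.E {j : V} {p : MvPolynomial V ℝ} (h : NoVar j p) (i : V) : NoVar j (E i p) := by
  intro m hm
  rw [coeff_E]
  split_ifs
  · apply h
    rw [Finsupp.add_apply]
    omega
  · rfl

theorem NoVar.Elist {j : V} {p : MvPolynomial V ℝ} (h : NoVar j p) (l : List V) :
    NoVar j (Elist l p) := by
  induction l with
  | nil => exact h
  | cons i l ih => exact ih.E i

theorem E_mul {j : V} (p : MvPolynomial V ℝ) {q : MvPolynomial V ℝ} (hq : NoVar j q) :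
    E j (p * q) = E j p * q := by
  unfold E
  rw [pderiv_mul, hq.pderiv, mul_zero, add_zero, map_mul, hq.sub0]

theorem Elist_mul {l : List V} (p : MvPolynomial V ℝ) {q : MvPolynomial V ℝ}
    (hq : ∀ j ∈ l, NoVar j q) : Elist l (p * q) = Elist l p * q := by
  induction l with
  | nil => rfl
  | cons j l ih =>
    rw [Elist_cons, ih fun i hi => hq i (by simp [hi]), E_mul _ (hq j (by simp)), Elist_cons]

variable [Fintype V]

theorem rowForm_NoVar {a : V → ℝ} {j : V} (h : a j = 0) : NoVar j (rowForm a) := by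
  intro m hm
  unfold rowForm
  rw [coeff_sum]
  refine Finset.sum_eq_zero fun k _ => ?_
  rw [coeff_C_mul, coeff_X]
  split_ifs with h1
  · rw [← h1] at hm
    have : k = j := by
      by_contra hne
      simp [Finsupp.single_apply, hne] at hm
    rw [this, h, zero_mul]
  · rw [mul_zero]

theorem prodForm_NoVar {a : V → V → ℝ} {s : Finset V} {j : V} (h : ∀ i ∈ s, a i j = 0) :
    NoVar j (prodForm a s) :=
  NoVar.prod s fun i hi => rowForm_NoVar (h i hi)

/-! ### One gadget inside the whole graph -/

section gadget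

variable {n : ℕ}

/-- Substitution keeping only the variables of the gadget. -/
noncomputable def keep (v : Fin (n + 2) → V) (x : V → ℝ) :
    MvPolynomial V ℝ →ₐ[ℝ] MvPolynomial (Fin (n + 2)) ℝ :=
  open Classical in
  aeval (fun j => if h : ∃ a, v a = j then X h.choose else C (x j))

theorem keep_X {v : Fin (n + 2) → V} (hv : Function.Injective v) (x : V → ℝ)
    (a : Fin (n + 2)) : keep v x (X (v a)) = X a := by
  classical
  unfold keep
  rw [aeval_X]
  have h : ∃ a', v a' = v a := ⟨a, rfl⟩
  rw [dif_pos h, hv h.choose_spec]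

theorem keep_X_of_notMem (v : Fin (n + 2) → V) (x : V → ℝ) {j : V} (h : ¬ ∃ a, v a = j) :
    keep v x (X j) = C (x j) := by
  classical
  unfold keep
  rw [aeval_X, dif_neg h]

theorem keep_pderiv {v : Fin (n + 2) → V} (hv : Function.Injective v) (x : V → ℝ)
    (a : Fin (n + 2)) (p : MvPolynomial V ℝ) :
    keep v x (pderiv (v a) p) = pderiv a (keep v x p) := by
  induction p using MvPolynomial.induction_on with
  | C c => simp
  | add p q hp hq => simp only [map_add, hp, hq]
  | mul_X p i hp =>
    rw [pderiv_mul, map_add, map_mul, map_mul, map_mul, pderiv_mul, hp]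
    congr 1
    by_cases h : ∃ b, v b = i
    · obtain ⟨b, rfl⟩ := h
      rw [keep_X hv]
      by_cases hab : b = a
      · subst hab; simp
      · rw [pderiv_X_of_ne (fun h => hab (hv h)), pderiv_X_of_ne hab]
        simp
    · rw [keep_X_of_notMem v x h, pderiv_C, pderiv_X_of_ne (fun h' => h ⟨a, h'.symm⟩)]
      simp

theorem keep_pdl {v : Fin (n + 2) → V} (hv : Function.Injective v) (x : V → ℝ)
    (l : List (Fin (n + 2))) (p : MvPolynomial V ℝ) :
    keep v x (pdl (l.map v) p) = pdl l (keep v x p) := by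
  induction l with
  | nil => rfl
  | cons a l ih => rw [List.map_cons, pdl_cons, pdl_cons, keep_pderiv hv, ih]

theorem eval_keep {v : Fin (n + 2) → V} (hv : Function.Injective v) (x : V → ℝ)
    (p : MvPolynomial V ℝ) :
    eval 0 (keep v x p) =
      eval (fun i => if i ∈ (List.finRange (n + 2)).map v then 0 else x i) p := by
  induction p using MvPolynomial.induction_on with
  | C c => simp
  | add p q hp hq => simp only [map_add, hp, hq]
  | mul_X p i hp =>
    rw [map_mul, map_mul, map_mul, hp]
    congr 1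
    by_cases h : ∃ b, v b = i
    · obtain ⟨b, rfl⟩ := h
      rw [keep_X hv]
      simp
    · rw [keep_X_of_notMem v x h]
      push Not at h
      simp [h]

theorem keep_rowForm {v : Fin (n + 2) → V} (hv : Function.Injective v) (x : V → ℝ)
    (a : V → ℝ) :
    keep v x (rowForm a) = affForm (fun k => a (v k))
      (∑ j ∈ Finset.univ \ Finset.univ.image v, a j * x j) := by
  unfold rowForm affForm
  rw [map_sum]
  have h2 : ∑ j, keep v x (C (a j) * X j) =
      ∑ j ∈ Finset.univ.image v, keep v x (C (a j) * X j) +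
      ∑ j ∈ Finset.univ \ Finset.univ.image v, keep v x (C (a j) * X j) :=
    (Finset.sum_sdiff (Finset.subset_univ _)).symm.trans (add_comm _ _)
  rw [h2, Finset.sum_image (fun a _ b _ h => hv h)]
  congr 1
  · refine Finset.sum_congr rfl fun k _ => ?_
    rw [map_mul, keep_X hv]
    congr 1
    exact (keep v x).commutes _
  · rw [map_sum]
    refine Finset.sum_congr rfl fun j hj => ?_
    have hj' : ¬ ∃ k, v k = j := by
      intro ⟨k, hk⟩
      exact (Finset.mem_sdiff.1 hj).2 (Finset.mem_image.2 ⟨k, Finset.mem_univ _, hk⟩)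
    rw [map_mul, keep_X_of_notMem v x hj', C_mul]
    congr 1
    exact (keep v x).commutes _

/-- Lower bound for the polynomial of one gadget. -/
theorem gadget_ge {d : ℕ} (hd : 2 ≤ d) {a : V → V → ℝ} (ha : ∀ i j, 0 ≤ a i j)
    {N : Finset V} (hrow : ∀ i ∈ N, ∑ j, a i j = 1)
    {v : Fin (n + 2) → V} (hv : Function.Injective v) {u : Fin (n + 2) → V}
    (h : Gadget d N (fun i k => a i (v k)) u) {x : V → ℝ} (hx : ∀ i, 0 < x i) :
    Gc d ^ (n + 2) * (1 + delta d n) * Real.exp (∑ i ∈ N,
      ∑ j ∈ Finset.univ \ Finset.univ.image v, a i j * Real.log (x j)) ≤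
    eval x (Elist ((List.finRange (n + 2)).map v) (prodForm a N)) := by
  rw [eval_Elist ((List.nodup_finRange _).map hv), ← eval_keep hv, keep_pdl hv]
  set T := Finset.univ \ Finset.univ.image v with hT
  have hU : ∀ i ∈ N, 1 - ∑ k, a i (v k) = ∑ j ∈ T, a i j := by
    intro i hi
    rw [← hrow i hi]
    have h1 : (Finset.univ : Finset V) = T ∪ Finset.univ.image v := by
      rw [hT, Finset.sdiff_union_of_subset (Finset.subset_univ _)]
    conv_lhs => rw [h1]
    rw [Finset.sum_union (by rw [hT]; exact Finset.sdiff_disjoint),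
      Finset.sum_image (fun a _ b _ h => hv h)]
    ring
  -- the normalised outer weights
  set y : V → ℝ := fun i => if ∑ j ∈ T, a i j = 0 then 1 else
    (∑ j ∈ T, a i j * x j) / ∑ j ∈ T, a i j with hy
  have hpos : ∀ i, (∑ j ∈ T, a i j) ≠ 0 → 0 < ∑ j ∈ T, a i j * x j := by
    intro i hi
    obtain ⟨j, hj, hj0⟩ := Finset.exists_ne_zero_of_sum_ne_zero hi
    exact Finset.sum_pos' (fun k _ => mul_nonneg (ha i k) (hx k).le)
      ⟨j, hj, mul_pos (lt_of_le_of_ne (ha i j) (Ne.symm hj0)) (hx j)⟩
  have hypos : ∀ i, 0 < y i := by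
    intro i
    simp only [hy]
    split_ifs with h0
    · exact one_pos
    · exact div_pos (hpos i h0) (lt_of_le_of_ne (Finset.sum_nonneg fun j _ => ha i j)
        (Ne.symm h0))
  have hb : ∀ i, (∑ j ∈ T, a i j) * y i = ∑ j ∈ T, a i j * x j := by
    intro i
    simp only [hy]
    split_ifs with h0
    · rw [h0, zero_mul]
      have h1 : ∀ j ∈ T, a i j = 0 :=
        (Finset.sum_eq_zero_iff_of_nonneg fun j _ => ha i j).1 h0
      exact (Finset.sum_eq_zero fun j hj => by rw [h1 j hj, zero_mul]).symm
    · rw [mul_div_cancel₀ _ h0]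
  have hmain := local_main hd h hypos
  have hpoly : keep v x (prodForm a N) =
      ∏ i ∈ N, affForm (fun k => a i (v k)) ((1 - ∑ k, a i (v k)) * y i) := by
    unfold prodForm
    rw [map_prod]
    refine Finset.prod_congr rfl fun i hi => ?_
    rw [keep_rowForm hv, hU i hi, hb i]
  rw [hpoly]
  refine le_trans ?_ hmain
  refine mul_le_mul_of_nonneg_left (Real.exp_le_exp.2 ?_) ?_
  · refine Finset.sum_le_sum fun i hi => ?_
    rw [hU i hi]
    by_cases h0 : ∑ j ∈ T, a i j = 0
    · rw [h0, zero_mul]
      have h1 : ∀ j ∈ T, a i j = 0 :=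
        (Finset.sum_eq_zero_iff_of_nonneg fun j _ => ha i j).1 h0
      exact (Finset.sum_eq_zero fun j hj => by rw [h1 j hj, zero_mul]).le
    · -- Jensen
      have hS : 0 < ∑ j ∈ T, a i j :=
        lt_of_le_of_ne (Finset.sum_nonneg fun j _ => ha i j) (Ne.symm h0)
      set S := ∑ j ∈ T, a i j with hSdef
      have hyi : y i = (∑ j ∈ T, a i j * x j) / S := by simp only [hy]; rw [if_neg h0]
      have hJ := row_ge (ι := T) (fun j => a i j / S) (fun j => Real.log (x j))
        (fun j => div_nonneg (ha i j) hS.le) (by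
          rw [← Finset.sum_div, Finset.sum_coe_sort T (fun j => a i j), ← hSdef, div_self h0])
      have e1 : ∑ j : T, a i j / S * Real.exp (Real.log (x j)) = y i := by
        rw [hyi, Finset.sum_div, ← Finset.sum_coe_sort T]
        exact Finset.sum_congr rfl fun j _ => by rw [Real.exp_log (hx _)]; ring
      have e2 : ∑ j : T, a i j / S * Real.log (x j) =
          (∑ j ∈ T, a i j * Real.log (x j)) / S := by
        rw [Finset.sum_div, ← Finset.sum_coe_sort T]
        exact Finset.sum_congr rfl fun j _ => by ring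
      rw [e1, e2] at hJ
      have h2 := Real.log_le_log (Real.exp_pos _) hJ
      rw [Real.log_exp] at h2
      rwa [div_le_iff₀ hS, mul_comm] at h2
  · have := delta_pos (n := n) hd
    have := Gc_pos hd
    positivity

end gadget

end Pool.Agent.H37
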