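import Mathlib
import Pool.Agent.H37.Global

set_option autoImplicit false
set_option linter.unusedSectionVars false

namespace Pool.Agent.H37

open MvPolynomial Classical

variable {V : Type} [Fintype V]

/-- A cycle with its neighbourhood inside the graph. -/
structure GD (d : ℕ) (a : V → V → ℝ) (R : Finset V) where
  n : ℕ
  v : Fin (n + 2) → V
  u : Fin (n + 2) → V
  vinj : Function.Injective v
  gad : Gadget d (R.filter (fun i => ∃ k, a i (v k) ≠ 0)) (fun i k => a i (v k)) u

namespace GD

variable {d : ℕ} {a : V → V → ℝ} {R : Finset V}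

noncomputable def N (D : GD d a R) : Finset V := R.filter (fun i => ∃ k, a i (D.v k) ≠ 0)

def l (D : GD d a R) : List V := (List.finRange (D.n + 2)).map D.v

theorem mem_l {D : GD d a R} {j : V} : j ∈ D.l ↔ ∃ k, D.v k = j := by
  unfold l
  simp

theorem length_l (D : GD d a R) : D.l.length = D.n + 2 := by
  unfold l
  simp

theorem nodup_l (D : GD d a R) : D.l.Nodup := (List.nodup_finRange _).map D.vinj

theorem mem_N {D : GD d a R} {i j : V} (hi : i ∈ R) (hj : j ∈ D.l) (h : a i j ≠ 0) :
    i ∈ D.N := by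
  obtain ⟨k, rfl⟩ := mem_l.1 hj
  exact Finset.mem_filter.2 ⟨hi, k, h⟩

theorem N_sub (D : GD d a R) : D.N ⊆ R := Finset.filter_subset _ _

end GD

variable {d : ℕ} {a : V → V → ℝ} {R : Finset V}

def allCols (Ds : List (GD d a R)) : List V := Ds.flatMap GD.l

noncomputable def allN (Ds : List (GD d a R)) : Finset V := Ds.foldr (fun D s => D.N ∪ s) ∅

theorem allCols_cons (D : GD d a R) (Ds : List (GD d a R)) :
    allCols (D :: Ds) = D.l ++ allCols Ds := rfl

theorem allN_cons (D : GD d a R) (Ds : List (GD d a R)) :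
    allN (D :: Ds) = D.N ∪ allN Ds := rfl

theorem mem_allN {Ds : List (GD d a R)} {i : V} : i ∈ allN Ds ↔ ∃ D ∈ Ds, i ∈ D.N := by
  induction Ds with
  | nil => simp [allN]
  | cons D Ds ih => rw [allN_cons, Finset.mem_union, ih]; simp

theorem mem_allCols {Ds : List (GD d a R)} {i : V} : i ∈ allCols Ds ↔ ∃ D ∈ Ds, i ∈ D.l := by
  unfold allCols
  exact List.mem_flatMap

def PW (Ds : List (GD d a R)) : Prop := Ds.Pairwise (fun D D' => Disjoint D.N D'.N)

theorem PW.disj {D : GD d a R} {Ds : List (GD d a R)} (h : PW (D :: Ds)) :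
    Disjoint D.N (allN Ds) := by
  rw [Finset.disjoint_left]
  intro i hi hi'
  obtain ⟨D', hD', hi'⟩ := mem_allN.1 hi'
  exact Finset.disjoint_left.1 ((List.pairwise_cons.1 h).1 D' hD') hi hi'

theorem decomp {Ds : List (GD d a R)} (h : PW Ds) :
    Elist (allCols Ds) (prodForm a R) = prodForm a (R \ allN Ds) *
      (Ds.map (fun D => Elist D.l (prodForm a D.N))).prod := by
  induction Ds with
  | nil => simp [allCols, allN, Elist_nil]
  | cons D Ds ih =>
    have hPW : PW Ds := (List.pairwise_cons.1 h).2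
    rw [allCols_cons, Elist_append, ih hPW, List.map_cons, List.prod_cons]
    have hdisj := h.disj
    have hsplit : R \ allN Ds = D.N ∪ (R \ allN (D :: Ds)) := by
      rw [allN_cons]
      ext i
      simp only [Finset.mem_sdiff, Finset.mem_union]
      constructor
      · rintro ⟨h1, h2⟩
        by_cases h3 : i ∈ D.N
        · exact Or.inl h3
        · exact Or.inr ⟨h1, fun h4 => h4.elim h3 h2⟩
      · rintro (h1 | ⟨h1, h2⟩)
        · exact ⟨D.N_sub h1, Finset.disjoint_left.1 hdisj h1⟩
        · exact ⟨h1, fun h3 => h2 (Or.inr h3)⟩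
    have hd2 : Disjoint D.N (R \ allN (D :: Ds)) := by
      rw [allN_cons, Finset.disjoint_left]
      intro i hi hi'
      exact (Finset.mem_sdiff.1 hi').2 (Finset.mem_union_left _ hi)
    have hprod : prodForm a (R \ allN Ds) = prodForm a D.N * prodForm a (R \ allN (D :: Ds)) := by
      conv_lhs => rw [hsplit]
      unfold prodForm
      rw [Finset.prod_union hd2]
    rw [hprod, mul_assoc, Elist_mul]
    · ring
    · intro j hj
      refine NoVar.mul ?_ ?_
      · apply prodForm_NoVar
        intro i hi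
        by_contra hne
        obtain ⟨h1, h2⟩ := Finset.mem_sdiff.1 hi
        exact h2 (by rw [allN_cons]; exact Finset.mem_union_left _ (GD.mem_N h1 hj hne))
      · have key : ∀ Ds' : List (GD d a R), (∀ D' ∈ Ds', Disjoint D.N D'.N) →
            NoVar j (Ds'.map (fun D => Elist D.l (prodForm a D.N))).prod := by
          intro Ds'
          induction Ds' with
          | nil => intro _; exact NoVar.one j
          | cons D' Ds' ih' =>
            intro hd'
            rw [List.map_cons, List.prod_cons]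
            refine NoVar.mul (NoVar.Elist (prodForm_NoVar ?_) _)
              (ih' fun D'' hD'' => hd' D'' (by simp [hD'']))
            intro i hi
            by_contra hne
            exact Finset.disjoint_left.1 (hd' D' (by simp))
              (GD.mem_N (D'.N_sub hi) hj hne) hi
        exact key Ds (List.pairwise_cons.1 h).1

/-- The smallest gain for cycles of bounded length. -/
noncomputable def dmin (d : ℕ) : ℕ → ℝ
  | 0 => delta d 0
  | L + 1 => min (dmin d L) (delta d (L + 1))

theorem dmin_pos (hd : 2 ≤ d) (L : ℕ) : 0 < dmin d L := by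
  induction L with
  | zero => exact delta_pos hd
  | succ L ih => exact lt_min ih (delta_pos hd)

theorem dmin_le {L n : ℕ} (h : n ≤ L) : dmin d L ≤ delta d n := by
  induction L with
  | zero =>
    obtain rfl : n = 0 := by omega
    exact le_rfl
  | succ L ih =>
    by_cases h1 : n ≤ L
    · exact (min_le_left _ _).trans (ih h1)
    · obtain rfl : n = L + 1 := by omega
      exact min_le_right _ _

theorem multi_ge (hd : 2 ≤ d) (ha : ∀ i j, 0 ≤ a i j) (hrow : ∀ i ∈ R, ∑ j, a i j = 1)
    {L : ℕ} {Ds : List (GD d a R)} (h : PW Ds) (hL : ∀ D ∈ Ds, D.n ≤ L)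
    {x : V → ℝ} (hx : ∀ i, 0 < x i) :
    Gc d ^ (allCols Ds).length * (1 + dmin d L) ^ Ds.length *
      Real.exp (∑ i ∈ R, ∑ j ∈ Finset.univ \ (allCols Ds).toFinset, a i j * Real.log (x j)) ≤
    eval x (Elist (allCols Ds) (prodForm a R)) := by
  rw [decomp h, map_mul, prodForm_eval]
  set T := (allCols Ds).toFinset with hT
  have hG := Gc_pos hd
  have hδ := dmin_pos hd L
  -- rows outside the gadgets
  have h1 : Real.exp (∑ i ∈ R \ allN Ds, ∑ j ∈ Finset.univ \ T, a i j * Real.log (x j)) ≤
      ∏ i ∈ R \ allN Ds, ∑ j, a i j * x j := by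
    rw [Real.exp_sum]
    refine Finset.prod_le_prod (fun i _ => Real.exp_nonneg _) fun i hi => ?_
    obtain ⟨hiR, hiN⟩ := Finset.mem_sdiff.1 hi
    have h2 : ∑ j ∈ Finset.univ \ T, a i j * Real.log (x j) = ∑ j, a i j * Real.log (x j) := by
      refine Finset.sum_subset (Finset.subset_univ _) fun j _ hj => ?_
      have hjT : j ∈ T := by
        by_contra hjT
        exact hj (Finset.mem_sdiff.2 ⟨Finset.mem_univ _, hjT⟩)
      obtain ⟨D, hD, hjD⟩ := mem_allCols.1 (List.mem_toFinset.1 hjT)
      have : a i j = 0 := by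
        by_contra hne
        exact hiN (mem_allN.2 ⟨D, hD, GD.mem_N hiR hjD hne⟩)
      rw [this, zero_mul]
    rw [h2]
    have h3 := row_ge (a i) (fun j => Real.log (x j)) (ha i) (hrow i hiR)
    refine h3.trans (le_of_eq ?_)
    exact Finset.sum_congr rfl fun j _ => by rw [Real.exp_log (hx j)]
  -- the gadgets
  have h2 : ∀ Ds' : List (GD d a R), PW Ds' → (∀ D ∈ Ds', D ∈ Ds) →
      Gc d ^ (allCols Ds').length * (1 + dmin d L) ^ Ds'.length *
        Real.exp (∑ i ∈ allN Ds', ∑ j ∈ Finset.univ \ T, a i j * Real.log (x j)) ≤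
      eval x ((Ds'.map (fun D => Elist D.l (prodForm a D.N))).prod) := by
    intro Ds'
    induction Ds' with
    | nil => intro _ _; simp [allCols, allN]
    | cons D Ds' ih =>
      intro hP hsub
      have ih' := ih (List.pairwise_cons.1 hP).2 (fun D' hD' => hsub D' (by simp [hD']))
      have hDmem : D ∈ Ds := hsub D (by simp)
      rw [List.map_cons, List.prod_cons, map_mul, allN_cons, Finset.sum_union hP.disj,
        Real.exp_add, allCols_cons, List.length_append, List.length_cons, GD.length_l, pow_add,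
        pow_succ]
      have h3 := gadget_ge hd ha (N := D.N) (fun i hi => hrow i (D.N_sub hi)) D.vinj D.gad hx
      have h4 : ∑ i ∈ D.N, ∑ j ∈ Finset.univ \ T, a i j * Real.log (x j) =
          ∑ i ∈ D.N, ∑ j ∈ Finset.univ \ Finset.univ.image D.v, a i j * Real.log (x j) := by
        refine Finset.sum_congr rfl fun i hi => ?_
        refine Finset.sum_subset ?_ fun j hj1 hj2 => ?_
        · intro j hj
          rw [Finset.mem_sdiff] at hj ⊢
          refine ⟨hj.1, fun hj3 => hj.2 ?_⟩
          obtain ⟨k, _, rfl⟩ := Finset.mem_image.1 hj3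
          exact List.mem_toFinset.2 (mem_allCols.2 ⟨D, hDmem, GD.mem_l.2 ⟨k, rfl⟩⟩)
        · have hjT : j ∈ T := by
            by_contra hjT
            exact hj2 (Finset.mem_sdiff.2 ⟨Finset.mem_univ _, hjT⟩)
          obtain ⟨D', hD', hjD'⟩ := mem_allCols.1 (List.mem_toFinset.1 hjT)
          have : a i j = 0 := by
            by_contra hne
            have hiD' : i ∈ D'.N := GD.mem_N (D.N_sub hi) hjD' hne
            by_cases hDD : D' = D
            · subst hDD
              obtain ⟨k, rfl⟩ := GD.mem_l.1 hjD'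
              exact (Finset.mem_sdiff.1 hj1).2 (Finset.mem_image.2 ⟨k, Finset.mem_univ _, rfl⟩)
            · have hdis : Disjoint D.N D'.N := by
                have hsym : Std.Symm (fun D D' : GD d a R => Disjoint D.N D'.N) :=
                  ⟨fun _ _ h => h.symm⟩
                exact h.forall hDmem hD' (Ne.symm hDD)
              exact Finset.disjoint_left.1 hdis hi hiD'
          rw [this, zero_mul]
      rw [h4]
      have h5 : dmin d L ≤ delta d D.n := dmin_le (hL D hDmem)
      have h6 : Gc d ^ (D.n + 2) * (1 + dmin d L) * Real.exp (∑ i ∈ D.N,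
          ∑ j ∈ Finset.univ \ Finset.univ.image D.v, a i j * Real.log (x j)) ≤
          eval x (Elist D.l (prodForm a D.N)) := by
        refine le_trans ?_ h3
        refine mul_le_mul_of_nonneg_right ?_ (Real.exp_nonneg _)
        exact mul_le_mul_of_nonneg_left (by linarith) (by positivity)
      have h7 : 0 ≤ eval x (Elist D.l (prodForm a D.N)) := le_trans (by positivity) h6
      calc Gc d ^ (D.n + 2) * Gc d ^ (allCols Ds').length *
          ((1 + dmin d L) ^ Ds'.length * (1 + dmin d L)) *
          (Real.exp (∑ i ∈ D.N,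
            ∑ j ∈ Finset.univ \ Finset.univ.image D.v, a i j * Real.log (x j)) *
          Real.exp (∑ i ∈ allN Ds', ∑ j ∈ Finset.univ \ T, a i j * Real.log (x j)))
          = (Gc d ^ (D.n + 2) * (1 + dmin d L) * Real.exp (∑ i ∈ D.N,
          ∑ j ∈ Finset.univ \ Finset.univ.image D.v, a i j * Real.log (x j))) *
          (Gc d ^ (allCols Ds').length * (1 + dmin d L) ^ Ds'.length *
        Real.exp (∑ i ∈ allN Ds', ∑ j ∈ Finset.univ \ T, a i j * Real.log (x j))) := by ring
        _ ≤ _ := mul_le_mul h6 ih' (by positivity) h7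
  have h3 := h2 Ds h (fun D hD => hD)
  have h4 : ∑ i ∈ R, ∑ j ∈ Finset.univ \ T, a i j * Real.log (x j) =
      ∑ i ∈ R \ allN Ds, ∑ j ∈ Finset.univ \ T, a i j * Real.log (x j) +
      ∑ i ∈ allN Ds, ∑ j ∈ Finset.univ \ T, a i j * Real.log (x j) := by
    rw [Finset.sum_sdiff]
    intro i hi
    obtain ⟨D, _, hiD⟩ := mem_allN.1 hi
    exact D.N_sub hiD
  rw [h4, Real.exp_add]
  calc Gc d ^ (allCols Ds).length * (1 + dmin d L) ^ Ds.length *
      (Real.exp (∑ i ∈ R \ allN Ds, ∑ j ∈ Finset.univ \ T, a i j * Real.log (x j)) *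
      Real.exp (∑ i ∈ allN Ds, ∑ j ∈ Finset.univ \ T, a i j * Real.log (x j)))
      = Real.exp (∑ i ∈ R \ allN Ds, ∑ j ∈ Finset.univ \ T, a i j * Real.log (x j)) *
      (Gc d ^ (allCols Ds).length * (1 + dmin d L) ^ Ds.length *
      Real.exp (∑ i ∈ allN Ds, ∑ j ∈ Finset.univ \ T, a i j * Real.log (x j))) := by ring
    _ ≤ _ := mul_le_mul h1 h3 (by positivity) (le_trans (Real.exp_nonneg _) h1)

end Pool.Agent.H37
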