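import Mathlib
import Pool.Agent.H37.Global2

set_option autoImplicit false
set_option linter.unusedSectionVars false

namespace Pool.Agent.H37

open MvPolynomial Classical

variable {V : Type} [Fintype V] {d : ℕ} {a : V → V → ℝ} {R : Finset V}

theorem GD.exists_row (D : GD d a R) {j : V} (hj : j ∈ D.l) : ∃ i ∈ D.N, a i j ≠ 0 := by
  obtain ⟨k, rfl⟩ := GD.mem_l.1 hj
  have h1 := D.gad.col k
  by_contra hcon
  push Not at hcon
  have h2 : ∑ i ∈ R.filter (fun i => ∃ k, a i (D.v k) ≠ 0), a i (D.v k) = 0 :=
    Finset.sum_eq_zero fun i hi => hcon i hi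
  simp only [h2] at h1
  exact zero_ne_one h1

theorem allCols_nodup {Ds : List (GD d a R)} (h : PW Ds) : (allCols Ds).Nodup := by
  induction Ds with
  | nil => exact List.nodup_nil
  | cons D Ds ih =>
    rw [allCols_cons, List.nodup_append]
    refine ⟨D.nodup_l, ih (List.pairwise_cons.1 h).2, ?_⟩
    intro j hj j' hj' hjj
    subst hjj
    obtain ⟨D', hD', hjD'⟩ := mem_allCols.1 hj'
    obtain ⟨i, hi, hne⟩ := D.exists_row hj
    exact Finset.disjoint_left.1 ((List.pairwise_cons.1 h).1 D' hD') hi
      (GD.mem_N (D.N_sub hi) hjD' hne)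

theorem final_ge (hd : 2 ≤ d) (ha : ∀ i j, 0 ≤ a i j) (hrow : ∀ i ∈ R, ∑ j, a i j = 1)
    (Cc : Finset V) (hcol : ∀ j ∈ Cc, ∑ i ∈ R, a i j = 1)
    (hcol0 : ∀ j, j ∉ Cc → ∀ i ∈ R, a i j = 0)
    (hdeg : ∀ j ∈ Cc, (R.filter (fun i => a i j ≠ 0)).card ≤ d)
    {L : ℕ} {Ds : List (GD d a R)} (h : PW Ds) (hL : ∀ D ∈ Ds, D.n ≤ L) :
    ∃ l : List V, l.Nodup ∧ (∀ j, j ∈ l ↔ j ∈ Cc) ∧
      Gc d ^ Cc.card * (1 + dmin d L) ^ Ds.length ≤
        eval (fun _ => 1) (Elist l (prodForm a R)) := by
  set T := (allCols Ds).toFinset with hT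
  have hTC : T ⊆ Cc := by
    intro j hj
    by_contra hjC
    obtain ⟨D, _, hjD⟩ := mem_allCols.1 (List.mem_toFinset.1 hj)
    obtain ⟨i, hi, hne⟩ := D.exists_row hjD
    exact hne (hcol0 j hjC i (D.N_sub hi))
  have hnod := allCols_nodup h
  refine ⟨(Cc \ T).toList ++ allCols Ds, ?_, ?_, ?_⟩
  · rw [List.nodup_append]
    refine ⟨Finset.nodup_toList _, hnod, ?_⟩
    intro j hj j' hj' hjj
    subst hjj
    exact (Finset.mem_sdiff.1 (Finset.mem_toList.1 hj)).2 (List.mem_toFinset.2 hj')
  · intro j
    rw [List.mem_append, Finset.mem_toList, Finset.mem_sdiff, ← List.mem_toFinset, ← hT]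
    constructor
    · rintro (h1 | h1)
      · exact h1.1
      · exact hTC h1
    · intro h1
      by_cases h2 : j ∈ T
      · exact Or.inr h2
      · exact Or.inl ⟨h1, h2⟩
  · have hG := Gc_pos hd
    have hδ := dmin_pos hd L
    rw [Elist_append]
    have key := gurvits_multi hd (Cc \ T).toList (Finset.nodup_toList _)
      ((prodForm_stab ha R).Elist (allCols Ds))
      (by
        intro j hj
        have hjC : j ∈ Cc := (Finset.mem_sdiff.1 (Finset.mem_toList.1 hj)).1
        refine (degreeOf_Elist j _ _).trans ((prodForm_degreeOf a R j).trans ?_)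
        convert hdeg j hjC)
      (fun _ => 1) (fun _ => one_pos)
      (Gc d ^ (allCols Ds).length * (1 + dmin d L) ^ Ds.length) (by positivity)
      (by
        intro x' hx' _
        refine le_trans (le_of_eq ?_) (multi_ge hd ha hrow h hL hx')
        rw [← hT]
        congr 1
        rw [Finset.sum_comm]
        have h1 : ∑ j ∈ Finset.univ \ T, ∑ i ∈ R, a i j * Real.log (x' j) =
            ∑ j ∈ Cc \ T, Real.log (x' j) := by
          have h2 : ∑ j ∈ Cc \ T, Real.log (x' j) =
              ∑ j ∈ Cc \ T, ∑ i ∈ R, a i j * Real.log (x' j) :=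
            Finset.sum_congr rfl fun j hj => by
              rw [← Finset.sum_mul, hcol j (Finset.mem_sdiff.1 hj).1, one_mul]
          rw [h2]
          symm
          refine Finset.sum_subset (Finset.sdiff_subset_sdiff (Finset.subset_univ _)
            (Finset.Subset.refl _)) fun j hj1 hj2 => ?_
          have hjC : j ∉ Cc := fun hjC => hj2 (Finset.mem_sdiff.2
            ⟨hjC, (Finset.mem_sdiff.1 hj1).2⟩)
          exact Finset.sum_eq_zero fun i hi => by rw [hcol0 j hjC i hi, zero_mul]
        rw [h1, Real.exp_sum, Finset.prod_map_toList]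
        exact Finset.prod_congr rfl fun j _ => (Real.exp_log (hx' j)).symm)
    refine le_trans (le_of_eq ?_) key
    rw [Finset.length_toList, Finset.card_sdiff_of_subset hTC]
    have hcard : T.card = (allCols Ds).length := List.toFinset_card_of_nodup hnod
    have hle : T.card ≤ Cc.card := Finset.card_le_card hTC
    rw [← mul_assoc, ← pow_add, hcard]
    congr 2
    omega

/-! ### Reading off the number of bijections -/

theorem pdl_eq_zero {l : List V} {j : V} (hj : j ∈ l) {p : MvPolynomial V ℝ}
    (h : MvPolynomial.pderiv j p = 0) : pdl l p = 0 := by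
  induction l with
  | nil => simp at hj
  | cons k l ih =>
    rw [pdl_cons]
    by_cases hk : j ∈ l
    · rw [ih hk, map_zero]
    · have : j = k := by
        rcases List.mem_cons.1 hj with h1 | h1
        · exact h1
        · exact absurd h1 hk
      subst this
      rw [← pdl_pderiv, h]
      clear ih hk hj
      induction l with
      | nil => rfl
      | cons i l ih2 => rw [pdl_cons, ih2, map_zero]

theorem pdl_prod_X (l : List V) (hl : l.Nodup) :
    pdl l ((l.map (fun j => (X j : MvPolynomial V ℝ))).prod) = 1 := by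
  induction l with
  | nil => rfl
  | cons j l ih =>
    have hjl : j ∉ l := (List.nodup_cons.1 hl).1
    rw [List.map_cons, List.prod_cons, pdl_cons, ← pdl_pderiv, pderiv_mul, pderiv_X_self, one_mul]
    have h1 : MvPolynomial.pderiv j ((l.map (fun j => (X j : MvPolynomial V ℝ))).prod) = 0 := by
      have key : ∀ l' : List V, j ∉ l' →
          MvPolynomial.pderiv j ((l'.map (fun j => (X j : MvPolynomial V ℝ))).prod) = 0 := by
        intro l'
        induction l' with
        | nil => intro _; simp
        | cons k l' ih' =>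
          intro hj
          rw [List.mem_cons, not_or] at hj
          rw [List.map_cons, List.prod_cons, pderiv_mul, ih' hj.2,
            pderiv_X_of_ne (Ne.symm hj.1)]
          simp
      exact key l hjl
    rw [h1, mul_zero, add_zero, ih (List.nodup_cons.1 hl).2]

theorem pdl_C_mul (l : List V) (c : ℝ) (p : MvPolynomial V ℝ) :
    pdl l (C c * p) = C c * pdl l p := by
  induction l with
  | nil => rfl
  | cons j l ih => rw [pdl_cons, ih, pderiv_C_mul, pdl_cons]

theorem pdl_sum {ι : Type} (l : List V) (s : Finset ι) (f : ι → MvPolynomial V ℝ) :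
    pdl l (∑ i ∈ s, f i) = ∑ i ∈ s, pdl l (f i) := by
  induction l with
  | nil => rfl
  | cons j l ih => rw [pdl_cons, ih, map_sum]; rfl

/-- The good assignments: bijections from rows to columns along nonzero entries. -/
def Good (a : V → V → ℝ) (R Cc : Finset V) : Set (R → V) :=
  {f | Function.Injective f ∧ (∀ i : R, f i ∈ Cc) ∧ (∀ i : R, a i (f i) ≠ 0)}

theorem count_le (Cc : Finset V) (hcard : R.card = Cc.card) {γ : ℝ} (hγ : 0 ≤ γ)
    (ha : ∀ i j, a i j = 0 ∨ a i j = γ) {l : List V} (hl : l.Nodup)
    (hmem : ∀ j, j ∈ l ↔ j ∈ Cc) :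
    eval (fun _ => 1) (Elist l (prodForm a R)) ≤ γ ^ R.card * ((Good a R Cc).ncard : ℝ) := by
  rw [eval_Elist hl]
  have h1 : prodForm a R = ∑ f : R → V, C (∏ i : R, a i (f i)) * ∏ i : R, X (f i) := by
    unfold prodForm rowForm
    rw [← Finset.prod_coe_sort, Finset.prod_univ_sum, Fintype.piFinset_univ]
    refine Finset.sum_congr rfl fun f _ => ?_
    rw [Finset.prod_mul_distrib, map_prod]
  rw [h1, pdl_sum, map_sum]
  have h2 : ∀ f : R → V, eval (fun i => if i ∈ l then 0 else 1)
      (pdl l (C (∏ i : R, a i (f i)) * ∏ i : R, X (f i))) ≤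
      if f ∈ Good a R Cc then γ ^ R.card else 0 := by
    intro f
    rw [pdl_C_mul, map_mul, eval_C]
    by_cases hf : ∀ j ∈ l, ∃ i, f i = j
    · -- `f` is a bijection onto the columns
      have hsub : Cc ⊆ Finset.univ.image f := by
        intro j hj
        obtain ⟨i, hi⟩ := hf j ((hmem j).2 hj)
        exact Finset.mem_image.2 ⟨i, Finset.mem_univ _, hi⟩
      have hc1 : (Finset.univ.image f).card ≤ (Finset.univ : Finset R).card :=
        Finset.card_image_le
      have hc2 : (Finset.univ : Finset R).card = R.card := by simp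
      have hc3 := Finset.card_le_card hsub
      have heq : Cc = Finset.univ.image f :=
        Finset.eq_of_subset_of_card_le hsub (by omega)
      have hinj : Function.Injective f := by
        have : (Finset.univ.image f).card = (Finset.univ : Finset R).card := by omega
        have := Finset.card_image_iff.1 this
        intro x y hxy
        exact this (Finset.mem_coe.2 (Finset.mem_univ x)) (Finset.mem_coe.2 (Finset.mem_univ y)) hxy
      have hprod : (∏ i : R, X (f i) : MvPolynomial V ℝ) = (l.map (fun j => X j)).prod := by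
        rw [← List.prod_toFinset _ hl]
        have hlc : l.toFinset = Finset.univ.image f := by
          rw [← heq]
          ext j
          rw [List.mem_toFinset, hmem]
        rw [hlc, Finset.prod_image (fun x _ y _ h => hinj h)]
      rw [hprod, pdl_prod_X l hl, map_one, mul_one]
      by_cases hz : ∀ i : R, a i (f i) ≠ 0
      · have hgood : f ∈ Good a R Cc := by
          refine ⟨hinj, fun i => ?_, hz⟩
          rw [heq]
          exact Finset.mem_image.2 ⟨i, Finset.mem_univ _, rfl⟩
        rw [if_pos hgood]
        have : ∏ i : R, a i (f i) = γ ^ R.card := by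
          rw [Finset.prod_congr rfl fun (i : R) _ => (ha i (f i)).resolve_left (hz i),
            Finset.prod_const, hc2]
        rw [this]
      · push Not at hz
        obtain ⟨i, hi⟩ := hz
        rw [Finset.prod_eq_zero (Finset.mem_univ i) hi]
        split_ifs <;> positivity
    · push Not at hf
      obtain ⟨j, hj, hjf⟩ := hf
      have hp : MvPolynomial.pderiv j (∏ i : R, X (f i) : MvPolynomial V ℝ) = 0 := by
        have key : ∀ s : Finset R,
            MvPolynomial.pderiv j (∏ i ∈ s, X (f i) : MvPolynomial V ℝ) = 0 := by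
          intro s
          induction s using Finset.induction_on with
          | empty => simp
          | insert i s hi ih =>
            rw [Finset.prod_insert hi, pderiv_mul, ih, pderiv_X_of_ne (hjf i)]
            simp
        exact key _
      rw [pdl_eq_zero hj hp, map_zero, mul_zero]
      split_ifs <;> positivity
  refine (Finset.sum_le_sum fun f _ => h2 f).trans (le_of_eq ?_)
  rw [← Finset.sum_filter, Finset.sum_const, nsmul_eq_mul, mul_comm]
  congr 2
  rw [← Set.ncard_coe_finset]
  congr 1
  ext f
  simp

end Pool.Agent.H37
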