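import Mathlib
import Pool.Agent.H37.Global3

set_option autoImplicit false
set_option linter.unusedSectionVars false

namespace Pool.Agent.H37

open MvPolynomial Classical

variable {V : Type} [Fintype V]

/-- The adjacency matrix divided by the degree. -/
noncomputable def adjw (G : SimpleGraph V) (d : ℕ) (i j : V) : ℝ :=
  if G.Adj i j then 1 / (d : ℝ) else 0

theorem adjw_ne_zero {G : SimpleGraph V} {d : ℕ} {i j : V} (h : adjw G d i j ≠ 0) :
    G.Adj i j := by
  unfold adjw at h
  by_contra hc
  rw [if_neg hc] at h
  exact h rfl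

theorem adjw_nonneg (G : SimpleGraph V) (d : ℕ) (i j : V) : 0 ≤ adjw G d i j := by
  unfold adjw
  split_ifs
  · positivity
  · exact le_rfl

theorem adjw_val (G : SimpleGraph V) (d : ℕ) (i j : V) :
    adjw G d i j = 0 ∨ adjw G d i j = 1 / (d : ℝ) := by
  unfold adjw
  split_ifs
  · exact Or.inr rfl
  · exact Or.inl rfl

theorem adjw_of_adj {G : SimpleGraph V} {d : ℕ} {i j : V} (h : G.Adj i j) :
    adjw G d i j = 1 / (d : ℝ) := if_pos h

theorem adjw_symm (G : SimpleGraph V) (d : ℕ) (i j : V) : adjw G d i j = adjw G d j i := by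
  unfold adjw
  simp only [G.adj_comm]

/-- A closed cycle with `m` columns `v` and `m` rows `u`. -/
structure Cyc (G : SimpleGraph V) (R : Finset V) (W : Set V) (m : ℕ) (v u : ℕ → V) : Prop where
  vmem : ∀ t < m, v t ∈ W
  umem : ∀ t < m, u t ∈ R
  vinj : ∀ s < m, ∀ t < m, v s = v t → s = t
  uinj : ∀ s < m, ∀ t < m, u s = u t → s = t
  adj1 : ∀ t < m, G.Adj (u t) (v t)
  adj2 : ∀ t, t + 1 < m → G.Adj (u t) (v (t + 1))
  adj3 : G.Adj (u (m - 1)) (v 0)

/-- Some cycle with `m` columns exists. -/
def HasCyc (G : SimpleGraph V) (R : Finset V) (W : Set V) (m : ℕ) : Prop :=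
  2 ≤ m ∧ ∃ v u, Cyc G R W m v u

theorem shortcut {G : SimpleGraph V} {R : Finset V} {W : Set V} {m : ℕ} {v u : ℕ → V}
    (h : Cyc G R W m v u) {i : V} (hi : i ∈ R) (hiu : ∀ t < m, u t ≠ i) {p q : ℕ}
    (hpq : p < q) (hq : q < m) (hm : 3 ≤ m) (h1 : G.Adj i (v p)) (h2 : G.Adj i (v q)) :
    ∃ m' < m, HasCyc G R W m' := by
  by_cases hgap : q - p + 2 ≤ m
  · refine ⟨q - p + 1, by omega, by omega, fun s => v (p + s),
      fun s => if s = q - p then i else u (p + s), ?_⟩
    refine ⟨?_, ?_, ?_, ?_, ?_, ?_, ?_⟩
    · intro t ht
      exact h.vmem _ (by omega)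
    · intro t ht
      by_cases htq : t = q - p
      · simpa [htq] using hi
      · simpa [htq] using h.umem (p + t) (by omega)
    · intro s hs t ht hst
      have := h.vinj _ (by omega) _ (by omega) hst
      omega
    · intro s hs t ht hst
      by_cases hsq : s = q - p
      · by_cases htq : t = q - p
        · omega
        · simp only [hsq, htq, if_true, if_false] at hst
          exact absurd hst.symm (hiu _ (by omega))
      · by_cases htq : t = q - p
        · simp only [hsq, htq, if_true, if_false] at hst
          exact absurd hst (hiu _ (by omega))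
        · simp only [hsq, htq, if_false] at hst
          have := h.uinj _ (by omega) _ (by omega) hst
          omega
    · intro t ht
      by_cases htq : t = q - p
      · subst htq
        simp only [if_true]
        have : p + (q - p) = q := by omega
        rw [this]
        exact h2
      · simp only [htq, if_false]
        exact h.adj1 _ (by omega)
    · intro t ht
      have htq : t ≠ q - p := by omega
      simp only [htq, if_false]
      exact h.adj2 (p + t) (by omega)
    · simp only [Nat.add_sub_cancel, if_true, Nat.add_zero]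
      exact h1
  · have hp : p = 0 := by omega
    have hqm : q = m - 1 := by omega
    subst hp hqm
    refine ⟨2, by omega, le_rfl, fun s => if s = 0 then v (m - 1) else v 0,
      fun s => if s = 0 then u (m - 1) else i, ?_⟩
    refine ⟨?_, ?_, ?_, ?_, ?_, ?_, ?_⟩
    · intro t ht
      by_cases h0 : t = 0
      · simpa [h0] using h.vmem (m - 1) (by omega)
      · simpa [h0] using h.vmem 0 (by omega)
    · intro t ht
      by_cases h0 : t = 0
      · simpa [h0] using h.umem (m - 1) (by omega)
      · simpa [h0] using hi
    · intro s hs t ht hst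
      by_cases h0 : s = 0
      · by_cases h0' : t = 0
        · omega
        · simp only [h0, h0', if_true, if_false] at hst
          have := h.vinj _ (by omega) _ (by omega) hst
          omega
      · by_cases h0' : t = 0
        · simp only [h0, h0', if_true, if_false] at hst
          have := h.vinj _ (by omega) _ (by omega) hst
          omega
        · omega
    · intro s hs t ht hst
      by_cases h0 : s = 0
      · by_cases h0' : t = 0
        · omega
        · simp only [h0, h0', if_true, if_false] at hst
          exact absurd hst (hiu _ (by omega))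
      · by_cases h0' : t = 0
        · simp only [h0, h0', if_true, if_false] at hst
          exact absurd hst.symm (hiu _ (by omega))
        · omega
    · intro t ht
      by_cases h0 : t = 0
      · simp only [h0, if_true]
        exact h.adj1 _ (by omega)
      · simp only [h0, if_false]
        exact h1
    · intro t ht
      have h0 : t = 0 := by omega
      subst h0
      simpa using h.adj3
    · simpa using h2

/-- A shortest cycle inside a set of columns gives a gadget. -/
theorem exists_GD {G : SimpleGraph V} {d : ℕ} (hd : 2 ≤ d) {R : Finset V} {W : Set V}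
    (hRW : ∀ j ∈ W, ∀ i, G.Adj i j → i ∈ R)
    (hreg : ∀ i, (Finset.univ.filter (fun j => G.Adj i j)).card = d) {m : ℕ}
    (hm : HasCyc G R W m) :
    ∃ D : GD d (adjw G d) R, D.n ≤ m ∧ (∀ k, D.v k ∈ W) := by
  have hex : ∃ m, HasCyc G R W m := ⟨m, hm⟩
  have hmin : ∀ m' < Nat.find hex, ¬ HasCyc G R W m' := fun m' h => Nat.find_min hex h
  have hle : Nat.find hex ≤ m := Nat.find_min' hex hm
  obtain ⟨h2, v, u, hc⟩ := Nat.find_spec hex
  set M := Nat.find hex with hM
  obtain ⟨n, hn⟩ : ∃ n, M = n + 2 := ⟨M - 2, by omega⟩
  rw [hn] at hmin hle h2 hc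
  have hd0 : (0 : ℝ) < d := by exact_mod_cast (by omega : 0 < d)
  have hrowsum : ∀ i, ∑ j, adjw G d i j = 1 := by
    intro i
    unfold adjw
    rw [← Finset.sum_filter, Finset.sum_const, nsmul_eq_mul]
    have h3 := hreg i
    rw [h3]
    field_simp
  have hsucc : ∀ k : Fin (n + 2), ((k + 1 : Fin (n + 2)) : ℕ) =
      if (k : ℕ) = n + 1 then 0 else (k : ℕ) + 1 := by
    intro k
    rw [Fin.val_add_one]
    by_cases hk : k = Fin.last (n + 1)
    · subst hk; simp
    · have : (k : ℕ) ≠ n + 1 := fun h => hk (Fin.ext h)
      rw [if_neg hk, if_neg this]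
  have hvinj : Function.Injective (fun k : Fin (n + 2) => v k) := by
    intro s t hst
    exact Fin.ext (hc.vinj _ s.2 _ t.2 hst)
  have huinj : Function.Injective (fun k : Fin (n + 2) => u k) := by
    intro s t hst
    exact Fin.ext (hc.uinj _ s.2 _ t.2 hst)
  have hnm : n ≤ m := by omega
  suffices hg : Gadget d (R.filter (fun i => ∃ k : Fin (n + 2), adjw G d i (v k) ≠ 0))
      (fun i (k : Fin (n + 2)) => adjw G d i (v k)) (fun k : Fin (n + 2) => u k) from
    ⟨⟨n, fun k => v k, fun k => u k, hvinj, hg⟩, hnm, fun k => hc.vmem _ k.2⟩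
  refine ⟨?_, ?_, ?_, huinj, ?_, ?_, ?_, ?_, ?_⟩
  · exact fun i k => adjw_val G d i (v k)
  · intro k
    rw [← hrowsum (v k)]
    rw [Finset.sum_congr rfl fun i _ => adjw_symm G d i (v k)]
    refine Finset.sum_subset (Finset.subset_univ _) fun i _ hi => ?_
    by_contra hne
    refine hi (Finset.mem_filter.2 ⟨hRW _ (hc.vmem _ k.2) i (adjw_ne_zero hne).symm, k, ?_⟩)
    rw [adjw_symm]
    exact hne
  · intro i
    rw [← hrowsum i]
    have h3 : ∑ k : Fin (n + 2), adjw G d i (v k) =
        ∑ j ∈ Finset.univ.image (fun k : Fin (n + 2) => v k), adjw G d i j := by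
      rw [Finset.sum_image fun x _ y _ h => hvinj h]
    rw [h3]
    exact Finset.sum_le_sum_of_subset_of_nonneg (Finset.subset_univ _)
      fun j _ _ => adjw_nonneg G d i j
  · intro k
    refine Finset.mem_filter.2 ⟨hc.umem _ k.2, k, ?_⟩
    rw [adjw_of_adj (hc.adj1 _ k.2)]
    positivity
  · intro k
    exact adjw_of_adj (hc.adj1 _ k.2)
  · intro k
    refine adjw_of_adj ?_
    show G.Adj (u k) (v ((k + 1 : Fin (n + 2)) : ℕ))
    rw [hsucc k]
    by_cases hk : (k : ℕ) = n + 1
    · rw [if_pos hk, hk]
      exact hc.adj3
    · rw [if_neg hk]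
      exact hc.adj2 _ (by have := k.2; omega)
  · intro i hi hiu
    have hiR : i ∈ R := (Finset.mem_filter.1 hi).1
    have hiu' : ∀ t < n + 2, u t ≠ i := by
      intro t ht h
      exact hiu (Finset.mem_image.2 ⟨⟨t, ht⟩, Finset.mem_univ _, h⟩)
    by_cases hn0 : n = 0
    · -- four cycle
      subst hn0
      have hle2 : ∀ k : Fin 2, adjw G d i (v k) ≤ 1 / (d : ℝ) := by
        intro k
        rcases adjw_val G d i (v k) with h3 | h3
        · rw [h3]; positivity
        · exact h3.le
      by_cases hd3 : 3 ≤ d
      · have h3 : ∑ k : Fin 2, adjw G d i (v k) ≤ 2 / d := by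
          rw [Fin.sum_univ_two]
          have := hle2 0
          have := hle2 1
          have h4 : (2 : ℝ) / d = 1 / d + 1 / d := by ring
          linarith
        have h4 : (1 : ℝ) / d + 2 / d ≤ 1 := by
          rw [← add_div, div_le_one hd0]
          have : (3 : ℝ) ≤ d := by exact_mod_cast hd3
          linarith
        show (1 : ℝ) / d ≤ 1 - ∑ k : Fin (0 + 2), adjw G d i (v k)
        linarith
      · -- degree two: the row cannot exist
        exfalso
        have hd2 : d = 2 := by omega
        obtain ⟨_, k, hk⟩ := Finset.mem_filter.1 hi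
        have hadj : G.Adj (v k) i := (adjw_ne_zero hk).symm
        have ha0 : G.Adj (v k) (u 0) := by
          have hk2 := k.2
          rcases (by omega : (k : ℕ) = 0 ∨ (k : ℕ) = 1) with h0 | h0 <;> rw [h0]
          · exact (hc.adj1 0 (by omega)).symm
          · exact (hc.adj2 0 (by omega)).symm
        have ha1 : G.Adj (v k) (u 1) := by
          have hk2 := k.2
          rcases (by omega : (k : ℕ) = 0 ∨ (k : ℕ) = 1) with h0 | h0 <;> rw [h0]
          · exact hc.adj3.symm
          · exact (hc.adj1 1 (by omega)).symm
        have hsub : ({i, u 0, u 1} : Finset V) ⊆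
            Finset.univ.filter (fun j => G.Adj (v k) j) := by
          intro j hj
          rw [Finset.mem_insert, Finset.mem_insert, Finset.mem_singleton] at hj
          rcases hj with rfl | rfl | rfl
          · exact Finset.mem_filter.2 ⟨Finset.mem_univ _, hadj⟩
          · exact Finset.mem_filter.2 ⟨Finset.mem_univ _, ha0⟩
          · exact Finset.mem_filter.2 ⟨Finset.mem_univ _, ha1⟩
        have hcard := Finset.card_le_card hsub
        rw [hreg, hd2, Finset.card_insert_of_notMem, Finset.card_pair] at hcard
        · omega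
        · intro h
          have := hc.uinj 0 (by omega) 1 (by omega) h
          omega
        · rw [Finset.mem_insert, Finset.mem_singleton]
          rintro (h | h)
          · exact hiu' 0 (by omega) h.symm
          · exact hiu' 1 (by omega) h.symm
    · -- longer shortest cycle: at most one neighbour
      have huniq : ∀ s t : Fin (n + 2), G.Adj i (v s) → G.Adj i (v t) → s = t := by
        have key : ∀ p q : ℕ, p < q → q < n + 2 → G.Adj i (v p) → ¬ G.Adj i (v q) := by
          intro p q hpq hq hp1 hq1
          obtain ⟨m', hm', hcyc⟩ := shortcut hc hiR hiu' hpq hq (by omega) hp1 hq1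
          exact hmin m' hm' hcyc
        intro s t hs ht
        rcases lt_trichotomy (s : ℕ) (t : ℕ) with h3 | h3 | h3
        · exact absurd ht (key _ _ h3 t.2 hs)
        · exact Fin.ext h3
        · exact absurd hs (key _ _ h3 s.2 ht)
      obtain ⟨_, k, hk⟩ := Finset.mem_filter.1 hi
      have hadj := adjw_ne_zero hk
      have h3 : ∑ k : Fin (n + 2), adjw G d i (v k) = 1 / d := by
        rw [Finset.sum_eq_single k]
        · exact adjw_of_adj hadj
        · intro b _ hb
          unfold adjw
          rw [if_neg fun h => hb (huniq b k h hadj)]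
        · intro h; exact absurd (Finset.mem_univ _) h
      show (1 : ℝ) / d ≤ 1 - ∑ k : Fin (n + 2), adjw G d i (v k)
      rw [h3]
      have h4 : (1 : ℝ) / d + 1 / d ≤ 1 := by
        rw [← add_div, div_le_one hd0]
        have : (2 : ℝ) ≤ d := by exact_mod_cast hd
        linarith
      linarith
  · intro i hi
    exact (Finset.mem_filter.1 hi).2

end Pool.Agent.H37
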