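import Mathlib
import Pool.Agent.H37.Cyc

set_option autoImplicit false
set_option linter.unusedSectionVars false

namespace Pool.Agent.H37

open MvPolynomial Classical
open scoped Fin.CommRing Fin.NatCast

variable {V : Type} [Fintype V]

theorem natCast_fin_inj {n x s t : ℕ} (hs : s < n + 3) (ht : t < n + 3)
    (h : ((x + s : ℕ) : Fin (n + 3)) = ((x + t : ℕ) : Fin (n + 3))) : s = t := by
  have h1 : ((x : Fin (n + 3)) + (s : Fin (n + 3))) = (x : Fin (n + 3)) + (t : Fin (n + 3)) := by
    have := h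
    push_cast at this
    exact this
  have h2 : (s : Fin (n + 3)) = (t : Fin (n + 3)) := add_left_cancel h1
  have h3 := congrArg Fin.val h2
  rw [Fin.val_natCast, Fin.val_natCast, Nat.mod_eq_of_lt hs, Nat.mod_eq_of_lt ht] at h3
  exact h3

/-- The columns met by a copy of a cycle. -/
def colsOf {k : ℕ} {G : SimpleGraph V} (c : G.Coloring (Fin 2))
    (f : (SimpleGraph.cycleGraph k).Copy G) : Set V :=
  {j | c j = 1 ∧ ∃ x, f x = j}

theorem copy_hasCyc {n : ℕ} {G : SimpleGraph V} (c : G.Coloring (Fin 2))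
    (f : (SimpleGraph.cycleGraph (n + 3)).Copy G) :
    HasCyc G (Finset.univ.filter (fun i => c i = 0)) (colsOf c f) ((n + 3) / 2) := by
  have hfadj : ∀ x y : Fin (n + 3), (SimpleGraph.cycleGraph (n + 3)).Adj x y →
      G.Adj (f x) (f y) := fun x y h => f.toHom.map_adj h
  have hcyc : ∀ t : ℕ, (SimpleGraph.cycleGraph (n + 3)).Adj ((t : ℕ) : Fin (n + 3))
      ((t + 1 : ℕ) : Fin (n + 3)) := by
    intro t
    refine (SimpleGraph.cycleGraph_adj (n := n + 1)).2 (Or.inr ?_)
    push_cast
    ring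
  have hstep : ∀ t : ℕ, G.Adj (f ((t : ℕ) : Fin (n + 3))) (f ((t + 1 : ℕ) : Fin (n + 3))) :=
    fun t => hfadj _ _ (hcyc t)
  have hcne : ∀ x y, G.Adj x y → c x ≠ c y := fun x y h => c.valid h
  have h01 : ∀ z : Fin 2, z = 0 ∨ z = 1 := by decide
  obtain ⟨x0, hx0⟩ : ∃ x0 : ℕ, c (f (x0 : Fin (n + 3))) = 1 := by
    rcases h01 (c (f ((0 : ℕ) : Fin (n + 3)))) with h | h
    · refine ⟨1, ?_⟩
      have := hcne _ _ (hstep 0)
      rw [h] at this
      rcases h01 (c (f ((0 + 1 : ℕ) : Fin (n + 3)))) with h' | h'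
      · exact absurd h'.symm this
      · exact h'
    · exact ⟨0, h⟩
  set w : ℕ → V := fun t => f ((x0 + t : ℕ) : Fin (n + 3)) with hw
  have hwadj : ∀ t, G.Adj (w t) (w (t + 1)) := fun t => hstep (x0 + t)
  have hwinj : ∀ s < n + 3, ∀ t < n + 3, w s = w t → s = t := by
    intro s hs t ht hst
    exact natCast_fin_inj hs ht (f.injective hst)
  have hwper : w (n + 3) = w 0 := by
    show f ((x0 + (n + 3) : ℕ) : Fin (n + 3)) = f ((x0 + 0 : ℕ) : Fin (n + 3))
    congr 1
    push_cast
    have h1 := Fin.natCast_self (n + 3)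
    push_cast at h1
    rw [h1]
  have hcol : ∀ t, c (w t) = if Even t then 1 else 0 := by
    intro t
    induction t with
    | zero => simpa [hw] using hx0
    | succ t ih =>
      have hne := hcne _ _ (hwadj t)
      rw [ih] at hne
      by_cases ht : Even t
      · rw [if_pos ht] at hne
        have : ¬ Even (t + 1) := by rw [Nat.even_add_one]; simpa using ht
        rw [if_neg this]
        exact (h01 (c (w (t + 1)))).resolve_right fun h => hne h.symm
      · rw [if_neg ht] at hne
        have : Even (t + 1) := by rw [Nat.even_add_one]; exact ht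
        rw [if_pos this]
        exact (h01 (c (w (t + 1)))).resolve_left fun h => hne h.symm
  have heven : Even (n + 3) := by
    by_contra hodd
    have h1 := hcol (n + 3)
    rw [if_neg hodd, hwper, hcol 0, if_pos (by simp)] at h1
    exact absurd h1 (by decide)
  obtain ⟨m, hm⟩ := heven
  have hm2 : (n + 3) / 2 = m := by omega
  have hm2' : 2 ≤ m := by omega
  rw [hm2]
  refine ⟨hm2', fun t => w (2 * t), fun t => w (2 * t + 1), ?_⟩
  refine ⟨?_, ?_, ?_, ?_, ?_, ?_, ?_⟩
  · intro t ht
    refine ⟨?_, _, rfl⟩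
    rw [hcol, if_pos (by simp)]
  · intro t ht
    refine Finset.mem_filter.2 ⟨Finset.mem_univ _, ?_⟩
    rw [hcol, if_neg (by simp)]
  · intro s hs t ht hst
    have := hwinj _ (by omega) _ (by omega) hst
    omega
  · intro s hs t ht hst
    have := hwinj _ (by omega) _ (by omega) hst
    omega
  · intro t ht
    exact (hwadj (2 * t)).symm
  · intro t ht
    exact hwadj (2 * t + 1)
  · show G.Adj (w (2 * (m - 1) + 1)) (w (2 * 0))
    have h1 := hwadj (2 * (m - 1) + 1)
    have h2 : 2 * (m - 1) + 1 + 1 = n + 3 := by omega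
    rw [h2, hwper] at h1
    exact h1

/-- The rows next to a copy. -/
noncomputable def rowsOf {k : ℕ} {G : SimpleGraph V} (c : G.Coloring (Fin 2))
    (f : (SimpleGraph.cycleGraph k).Copy G) : Finset V :=
  Finset.univ.filter (fun i => c i = 0 ∧ ∃ x, G.Adj i (f x))

theorem copy_GD {n d : ℕ} (hd : 2 ≤ d) {G : SimpleGraph V} (c : G.Coloring (Fin 2))
    (hreg : ∀ i, (Finset.univ.filter (fun j => G.Adj i j)).card = d)
    (f : (SimpleGraph.cycleGraph (n + 3)).Copy G) :
    ∃ D : GD d (adjw G d) (Finset.univ.filter (fun i => c i = 0)),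
      D.n ≤ n + 3 ∧ D.N ⊆ rowsOf c f := by
  have h01 : ∀ z : Fin 2, z = 0 ∨ z = 1 := by decide
  obtain ⟨D, hD, hv⟩ := exists_GD hd (W := colsOf c f)
    (R := Finset.univ.filter (fun i => c i = 0)) (by
      rintro j ⟨hj, _⟩ i hij
      refine Finset.mem_filter.2 ⟨Finset.mem_univ _, ?_⟩
      have := c.valid hij
      rcases h01 (c i) with h | h
      · exact h
      · rw [h, hj] at this; exact absurd rfl this) hreg (copy_hasCyc c f)
  refine ⟨D, by omega, ?_⟩
  intro i hi
  obtain ⟨hiR, k, hk⟩ := Finset.mem_filter.1 hi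
  obtain ⟨_, x, hx⟩ := hv k
  refine Finset.mem_filter.2 ⟨Finset.mem_univ _, (Finset.mem_filter.1 hiR).2, x, ?_⟩
  rw [hx]
  exact adjw_ne_zero hk

/-! ### Balls -/

/-- Closed neighbourhood of a set. -/
noncomputable def nbs (G : SimpleGraph V) (S : Finset V) : Finset V :=
  S ∪ S.biUnion (fun i => Finset.univ.filter (fun j => G.Adj i j))

theorem subset_nbs (G : SimpleGraph V) (S : Finset V) : S ⊆ nbs G S :=
  Finset.subset_union_left

theorem mem_nbs_of_adj {G : SimpleGraph V} {S : Finset V} {i j : V} (hi : i ∈ S)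
    (h : G.Adj i j) : j ∈ nbs G S := by
  refine Finset.mem_union_right _ (Finset.mem_biUnion.2 ⟨i, hi, ?_⟩)
  exact Finset.mem_filter.2 ⟨Finset.mem_univ _, h⟩

theorem card_nbs {G : SimpleGraph V} {d : ℕ}
    (hreg : ∀ i, (Finset.univ.filter (fun j => G.Adj i j)).card = d) (S : Finset V) :
    (nbs G S).card ≤ (d + 1) * S.card := by
  unfold nbs
  refine (Finset.card_union_le _ _).trans ?_
  have h1 : (S.biUnion (fun i => Finset.univ.filter (fun j => G.Adj i j))).card ≤ S.card * d :=
    Finset.card_biUnion_le_card_mul _ _ _ fun i _ => (hreg i).le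
  calc S.card + (S.biUnion (fun i => Finset.univ.filter (fun j => G.Adj i j))).card
      ≤ S.card + S.card * d := by omega
    _ = (d + 1) * S.card := by ring

/-- Iterated closed neighbourhood. -/
noncomputable def ball (G : SimpleGraph V) (S : Finset V) : ℕ → Finset V
  | 0 => S
  | r + 1 => nbs G (ball G S r)

theorem ball_mono {G : SimpleGraph V} {S : Finset V} {r s : ℕ} (h : r ≤ s) :
    ball G S r ⊆ ball G S s := by
  induction s with
  | zero =>
    obtain rfl : r = 0 := by omega
    exact Finset.Subset.refl _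
  | succ s ih =>
    by_cases h1 : r ≤ s
    · exact (ih h1).trans (subset_nbs G _)
    · obtain rfl : r = s + 1 := by omega
      exact Finset.Subset.refl _

theorem card_ball {G : SimpleGraph V} {d : ℕ}
    (hreg : ∀ i, (Finset.univ.filter (fun j => G.Adj i j)).card = d) (S : Finset V) (r : ℕ) :
    (ball G S r).card ≤ (d + 1) ^ r * S.card := by
  induction r with
  | zero => simp [ball]
  | succ r ih =>
    calc (ball G S (r + 1)).card ≤ (d + 1) * (ball G S r).card := card_nbs hreg _
      _ ≤ (d + 1) * ((d + 1) ^ r * S.card) := Nat.mul_le_mul_left _ ih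
      _ = (d + 1) ^ (r + 1) * S.card := by ring

theorem mem_ball_step {G : SimpleGraph V} {S : Finset V} {r : ℕ} {i j : V}
    (hi : i ∈ ball G S r) (h : G.Adj i j) : j ∈ ball G S (r + 1) := mem_nbs_of_adj hi h

theorem meet_sub_ball {n : ℕ} {G : SimpleGraph V} (c : G.Coloring (Fin 2))
    (f g : (SimpleGraph.cycleGraph (n + 3)).Copy G) (h : ¬ Disjoint (rowsOf c f) (rowsOf c g))
    (x : Fin (n + 3)) :
    f x ∈ ball G (Finset.univ.image (fun y => g y)) (2 + (n + 3)) := by
  have hfadj : ∀ x y : Fin (n + 3), (SimpleGraph.cycleGraph (n + 3)).Adj x y →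
      G.Adj (f x) (f y) := fun x y h => f.toHom.map_adj h
  have hcyc : ∀ t : ℕ, (SimpleGraph.cycleGraph (n + 3)).Adj ((t : ℕ) : Fin (n + 3))
      ((t + 1 : ℕ) : Fin (n + 3)) := by
    intro t
    refine (SimpleGraph.cycleGraph_adj (n := n + 1)).2 (Or.inr ?_)
    push_cast
    ring
  rw [Finset.not_disjoint_iff] at h
  obtain ⟨i, hi, hi'⟩ := h
  obtain ⟨_, _, y, hy⟩ := Finset.mem_filter.1 hi
  obtain ⟨_, _, z, hz⟩ := Finset.mem_filter.1 hi'
  have h0 : g z ∈ ball G (Finset.univ.image (fun y => g y)) 0 :=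
    Finset.mem_image.2 ⟨z, Finset.mem_univ _, rfl⟩
  have h1 := mem_ball_step h0 hz.symm
  have h2 := mem_ball_step h1 hy
  have h3 : ∀ t : ℕ, f ((y.val + t : ℕ) : Fin (n + 3)) ∈
      ball G (Finset.univ.image (fun y => g y)) (2 + t) := by
    intro t
    induction t with
    | zero =>
      have : ((y.val + 0 : ℕ) : Fin (n + 3)) = y := Fin.cast_val_eq_self y
      rw [this]
      exact h2
    | succ t ih => exact mem_ball_step ih (hfadj _ _ (hcyc (y.val + t)))
  have h4 : ((y.val + (n + 3 + x.val - y.val) : ℕ) : Fin (n + 3)) = x ∧ True := by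
    refine ⟨?_, trivial⟩
    have : y.val + (n + 3 + x.val - y.val) = (n + 3) + x.val := by have := y.2; omega
    rw [this, Nat.cast_add, Fin.natCast_self, zero_add, Fin.cast_val_eq_self]
  by_cases hxy : y.val ≤ x.val
  · have h5 := h3 (x.val - y.val)
    have : y.val + (x.val - y.val) = x.val := by omega
    rw [this, Fin.cast_val_eq_self] at h5
    exact ball_mono (by have := x.2; omega) h5
  · have h5 := h3 (n + 3 + x.val - y.val)
    rw [h4.1] at h5
    exact ball_mono (by have := x.2; omega) h5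

end Pool.Agent.H37
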