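import Mathlib

set_option autoImplicit false

namespace Pool.Agent.H37

open Module

/-- Generic projection: in a real vector space of dimension `3 + k`, for finitely many linearly
independent triples there is a linear map onto 3-space keeping all of them independent. -/
theorem exists_generic_projection (k : ℕ) :
    ∀ (V : Type) [AddCommGroup V] [Module ℝ V] [FiniteDimensional ℝ V],
      finrank ℝ V = 3 + k → ∀ (S : Set (Fin 3 → V)), S.Finite →
      (∀ v ∈ S, LinearIndependent ℝ v) →
      ∃ f : V →ₗ[ℝ] EuclideanSpace ℝ (Fin 3),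
        ∀ v ∈ S, LinearIndependent ℝ (fun i => f (v i)) := by
  induction k with
  | zero =>
    intro V _ _ _ hV S _ hS
    have h : finrank ℝ V = finrank ℝ (EuclideanSpace ℝ (Fin 3)) := by
      rw [hV]; simp
    let e := LinearEquiv.ofFinrankEq V (EuclideanSpace ℝ (Fin 3)) h
    refine ⟨e.toLinearMap, fun v hv => ?_⟩
    exact (hS v hv).map' e.toLinearMap e.ker
  | succ k ih =>
    intro V _ _ _ hV S hSf hS
    classical
    let T : Finset (Submodule ℝ V) :=
      insert ⊥ (hSf.toFinset.image (fun v => Submodule.span ℝ (Set.range v)))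
    have hT : (⊤ : Submodule ℝ V) ∉ T := by
      intro h
      rcases Finset.mem_insert.1 h with h | h
      · have : finrank ℝ (⊤ : Submodule ℝ V) = 0 := by rw [h]; exact finrank_bot ℝ V
        rw [finrank_top] at this
        omega
      · obtain ⟨v, hv, hv'⟩ := Finset.mem_image.1 h
        have h1 : finrank ℝ (Submodule.span ℝ (Set.range v)) ≤ 3 := by
          have := finrank_range_le_card (R := ℝ) v
          simpa [Set.finrank] using this
        rw [hv', finrank_top] at h1
        omega
    obtain ⟨z, hz⟩ : ∃ z, z ∉ ⋃ p ∈ T, (p : Set V) := by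
      by_contra hcon
      push Not at hcon
      exact Subspace.biUnion_ne_univ_of_top_notMem hT (Set.eq_univ_of_forall hcon)
    have hz' : ∀ p ∈ T, z ∉ p := by
      intro p hp hzp
      exact hz (Set.mem_biUnion (x := p) hp hzp)
    have hz0 : z ≠ 0 := by
      intro h
      exact hz' ⊥ (Finset.mem_insert_self _ _) (by rw [h]; exact Submodule.zero_mem _)
    let W : Submodule ℝ V := Submodule.span ℝ {z}
    have hW : finrank ℝ (V ⧸ W) = 3 + k := by
      have h1 := Submodule.finrank_quotient_add_finrank W
      have h2 : finrank ℝ W = 1 := finrank_span_singleton hz0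
      omega
    obtain ⟨g, hg⟩ := ih (V ⧸ W) hW ((fun v i => W.mkQ (v i)) '' S) (hSf.image _) (by
      rintro _ ⟨v, hv, rfl⟩
      have hvz : z ∉ Submodule.span ℝ (Set.range v) :=
        hz' _ (Finset.mem_insert_of_mem (Finset.mem_image.2 ⟨v, hSf.mem_toFinset.2 hv, rfl⟩))
      refine (hS v hv).map (f := W.mkQ) ?_
      rw [Submodule.ker_mkQ]
      exact (Submodule.disjoint_span_singleton' hz0).2 hvz)
    refine ⟨g.comp W.mkQ, fun v hv => ?_⟩
    exact hg _ ⟨v, hv, rfl⟩

end Pool.Agent.H37
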