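import Mathlib
import Pool.Agent.H37.GenProj

set_option autoImplicit false

namespace Pool.Agent.H37

open Module

/-- The foot point of a line on the quadric `x₅ = x₁ x₄ - x₂² - x₃²` in 5-space. -/
def qbase (b c e : ℝ) : Fin 5 → ℝ := ![0, b, c, e, -(b ^ 2 + c ^ 2)]

/-- The direction of a line on that quadric. -/
def qdir (b c e p q : ℝ) : Fin 5 → ℝ :=
  ![1, p, q, p ^ 2 + q ^ 2, e - 2 * b * p - 2 * c * q]

theorem exists_comb {V : Type} [AddCommGroup V] [Module ℝ V] {x y z : V}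
    (hxy : ∀ a b : ℝ, a • x + b • y = 0 → a = 0 ∧ b = 0)
    (h : ¬ LinearIndependent ℝ ![x, y, z]) : ∃ a b : ℝ, z = a • x + b • y := by
  rw [Fintype.not_linearIndependent_iff] at h
  obtain ⟨g, hg, i, hi⟩ := h
  simp only [Fin.sum_univ_three, Matrix.cons_val_zero, Matrix.cons_val_one,
    Matrix.cons_val] at hg
  have h2 : g 2 ≠ 0 := by
    intro h2
    rw [h2, zero_smul, add_zero] at hg
    obtain ⟨h0, h1⟩ := hxy _ _ hg
    fin_cases i
    · exact hi h0
    · exact hi h1
    · exact hi h2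
  refine ⟨-(g 0 / g 2), -(g 1 / g 2), ?_⟩
  have h3 : g 2 • z = -(g 0 • x) - g 1 • y := by
    have : g 2 • z = (g 0 • x + g 1 • y + g 2 • z) - g 0 • x - g 1 • y := by abel
    rw [this, hg]; abel
  have h4 : z = (g 2)⁻¹ • (g 2 • z) := by rw [smul_smul, inv_mul_cancel₀ h2, one_smul]
  rw [h4, h3, smul_sub, smul_neg, smul_smul, smul_smul]
  rw [neg_smul, neg_smul, div_eq_inv_mul, div_eq_inv_mul]
  abel

theorem core {b₁ c₁ e₁ p₁ q₁ b₂ c₂ e₂ p₂ q₂ b₃ c₃ e₃ p₃ q₃ : ℝ}
    (hne : ¬ (p₁ = p₂ ∧ q₁ = q₂))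
    (h3 : ∃ a b : ℝ, qdir b₃ c₃ e₃ p₃ q₃ = a • qdir b₁ c₁ e₁ p₁ q₁ + b • qdir b₂ c₂ e₂ p₂ q₂)
    (hd2 : ∃ a b : ℝ, qbase b₂ c₂ e₂ - qbase b₁ c₁ e₁
      = a • qdir b₁ c₁ e₁ p₁ q₁ + b • qdir b₂ c₂ e₂ p₂ q₂)
    (hd3 : ∃ a b : ℝ, qbase b₃ c₃ e₃ - qbase b₁ c₁ e₁
      = a • qdir b₁ c₁ e₁ p₁ q₁ + b • qdir b₂ c₂ e₂ p₂ q₂) :
    (b₃ = b₁ ∧ c₃ = c₁ ∧ e₃ = e₁ ∧ p₃ = p₁ ∧ q₃ = q₁) ∨
      (b₃ = b₂ ∧ c₃ = c₂ ∧ e₃ = e₂ ∧ p₃ = p₂ ∧ q₃ = q₂) := by
  obtain ⟨a, m, h3⟩ := h3
  obtain ⟨a2, m2, hd2⟩ := hd2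
  obtain ⟨a3, m3, hd3⟩ := hd3
  have E0 := congrFun h3 0
  have E1 := congrFun h3 1
  have E2 := congrFun h3 2
  have E3 := congrFun h3 3
  have E4 := congrFun h3 4
  have F0 := congrFun hd2 0
  have F1 := congrFun hd2 1
  have F2 := congrFun hd2 2
  have F3 := congrFun hd2 3
  have G0 := congrFun hd3 0
  have G1 := congrFun hd3 1
  have G2 := congrFun hd3 2
  have G3 := congrFun hd3 3
  simp [qdir, qbase] at E0 E1 E2 E3 E4 F0 F1 F2 F3 G0 G1 G2 G3
  have ha : a = 1 - m := by linarith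
  have ha2 : a2 = -m2 := by linarith
  have ha3 : a3 = -m3 := by linarith
  subst ha ha2 ha3
  have hpos : 0 < (p₂ - p₁) ^ 2 + (q₂ - q₁) ^ 2 := by
    by_contra hcon
    push Not at hcon
    have h1 : (p₂ - p₁) ^ 2 = 0 := by nlinarith [sq_nonneg (p₂ - p₁), sq_nonneg (q₂ - q₁)]
    have h2 : (q₂ - q₁) ^ 2 = 0 := by nlinarith [sq_nonneg (p₂ - p₁), sq_nonneg (q₂ - q₁)]
    apply hne
    constructor
    · have := pow_eq_zero_iff (two_ne_zero) |>.1 h1
      linarith
    · have := pow_eq_zero_iff (two_ne_zero) |>.1 h2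
      linarith
  have hm : m * (1 - m) * ((p₂ - p₁) ^ 2 + (q₂ - q₁) ^ 2) = 0 := by
    rw [E1, E2] at E3
    linear_combination -E3
  have hm' : m = 0 ∨ m = 1 := by
    rcases mul_eq_zero.1 hm with h | h
    · rcases mul_eq_zero.1 h with h | h
      · left; exact h
      · right; linarith
    · exact absurd h hpos.ne'
  rcases hm' with hm' | hm'
  · -- third line parallel to the first
    subst hm'
    left
    have hp : p₃ = p₁ := by linarith
    have hq : q₃ = q₁ := by linarith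
    subst hp hq
    have h : m3 * ((p₂ - p₃) ^ 2 + (q₂ - q₃) ^ 2) = 0 := by
      linear_combination -G3 + E4 + 2 * p₃ * G1 + 2 * q₃ * G2
    have hm3 : m3 = 0 := by
      rcases mul_eq_zero.1 h with h | h
      · exact h
      · exact absurd h hpos.ne'
    subst hm3
    refine ⟨by linarith, by linarith, by linarith, rfl, rfl⟩
  · subst hm'
    right
    have hp : p₃ = p₂ := by linarith
    have hq : q₃ = q₂ := by linarith
    subst hp hq
    have h : (m3 - m2) * ((p₃ - p₁) ^ 2 + (q₃ - q₁) ^ 2) = 0 := by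
      linear_combination (G3 - F3) - E4 - 2 * p₃ * (G1 - F1) - 2 * q₃ * (G2 - F2)
    have hm3 : m3 = m2 := by
      rcases mul_eq_zero.1 h with h | h
      · linarith
      · exact absurd h hpos.ne'
    subst hm3
    refine ⟨by linarith, by linarith, by linarith, rfl, rfl⟩


theorem pair_dir {b₁ c₁ e₁ p₁ q₁ b₂ c₂ e₂ p₂ q₂ : ℝ}
    (hne : ¬ (p₁ = p₂ ∧ q₁ = q₂)) (a b : ℝ)
    (h : a • qdir b₁ c₁ e₁ p₁ q₁ + b • qdir b₂ c₂ e₂ p₂ q₂ = 0) : a = 0 ∧ b = 0 := by
  have E0 := congrFun h 0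
  have E1 := congrFun h 1
  have E2 := congrFun h 2
  simp [qdir] at E0 E1 E2
  have ha : a = -b := by linarith
  subst ha
  have hb : b = 0 := by
    by_contra hb
    apply hne
    constructor
    · have : b * (p₂ - p₁) = 0 := by linarith
      rcases mul_eq_zero.1 this with h | h
      · exact absurd h hb
      · linarith
    · have : b * (q₂ - q₁) = 0 := by linarith
      rcases mul_eq_zero.1 this with h | h
      · exact absurd h hb
      · linarith
  subst hb
  simp

/-- A vector with first coordinate `1` and a nonzero vector with first coordinate `0` are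
independent. -/
theorem pair_zero {x y : Fin 5 → ℝ} (hx : x 0 = 1) (hy : y 0 = 0) (hy0 : y ≠ 0) (a b : ℝ)
    (h : a • x + b • y = 0) : a = 0 ∧ b = 0 := by
  have E0 := congrFun h 0
  simp [hx, hy] at E0
  subst E0
  refine ⟨rfl, ?_⟩
  rw [zero_smul, zero_add] at h
  rcases smul_eq_zero.1 h with h | h
  · exact h
  · exact absurd h hy0

/-- If no triple among the five vectors attached to three lines is independent, then two of
the lines agree. -/
theorem three_lines {b₁ c₁ e₁ p₁ q₁ b₂ c₂ e₂ p₂ q₂ b₃ c₃ e₃ p₃ q₃ : ℝ}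
    (F : Set (Fin 5 → ℝ))
    (h1 : qdir b₁ c₁ e₁ p₁ q₁ ∈ F) (h2 : qdir b₂ c₂ e₂ p₂ q₂ ∈ F)
    (h3 : qdir b₃ c₃ e₃ p₃ q₃ ∈ F)
    (hd2 : qbase b₂ c₂ e₂ - qbase b₁ c₁ e₁ ∈ F)
    (hd3 : qbase b₃ c₃ e₃ - qbase b₁ c₁ e₁ ∈ F)
    (hF : ∀ x ∈ F, ∀ y ∈ F, ∀ z ∈ F, ¬ LinearIndependent ℝ ![x, y, z]) :
    (b₂ = b₁ ∧ c₂ = c₁ ∧ e₂ = e₁ ∧ p₂ = p₁ ∧ q₂ = q₁) ∨
    (b₃ = b₁ ∧ c₃ = c₁ ∧ e₃ = e₁ ∧ p₃ = p₁ ∧ q₃ = q₁) ∨
      (b₃ = b₂ ∧ c₃ = c₂ ∧ e₃ = e₂ ∧ p₃ = p₂ ∧ q₃ = q₂) := by
  by_cases h12 : p₁ = p₂ ∧ q₁ = q₂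
  · by_cases h13 : p₁ = p₃ ∧ q₁ = q₃
    · obtain ⟨rfl, rfl⟩ := h12
      obtain ⟨rfl, rfl⟩ := h13
      -- all three have the same slopes
      by_cases hd20 : qbase b₂ c₂ e₂ - qbase b₁ c₁ e₁ = 0
      · left
        have F1 := congrFun hd20 1
        have F2 := congrFun hd20 2
        have F3 := congrFun hd20 3
        simp [qbase] at F1 F2 F3
        exact ⟨by linarith, by linarith, by linarith, rfl, rfl⟩
      · right
        have hind := pair_zero (x := qdir b₁ c₁ e₁ p₁ q₁) (y := qbase b₂ c₂ e₂ - qbase b₁ c₁ e₁)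
          (by simp [qdir]) (by simp [qbase]) hd20
        obtain ⟨a, m, hA⟩ := exists_comb hind (hF _ h1 _ hd2 _ h2)
        obtain ⟨a', n, hB⟩ := exists_comb hind (hF _ h1 _ hd2 _ hd3)
        have A0 := congrFun hA 0
        have A1 := congrFun hA 1
        have A2 := congrFun hA 2
        have A3 := congrFun hA 3
        have A4 := congrFun hA 4
        have B0 := congrFun hB 0
        have B1 := congrFun hB 1
        have B2 := congrFun hB 2
        have B3 := congrFun hB 3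
        have B4 := congrFun hB 4
        simp [qdir, qbase] at A0 A1 A2 A3 A4 B0 B1 B2 B3 B4
        subst B0
        have ha : a = 1 := A0.symm
        subst ha
        -- the difference of the foot points
        have hnz : b₂ ≠ b₁ ∨ c₂ ≠ c₁ ∨ e₂ ≠ e₁ := by
          by_contra hcon
          push Not at hcon
          obtain ⟨rfl, rfl, rfl⟩ := hcon
          exact hd20 (sub_self _)
        by_cases hm : m = 0
        · subst hm
          have hslope : e₂ - e₁ = 2 * p₁ * (b₂ - b₁) + 2 * q₁ * (c₂ - c₁) := by linarith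
          have hsq : n * (1 - n) * ((b₂ - b₁) ^ 2 + (c₂ - c₁) ^ 2) = 0 := by
            have hb3 : b₃ = b₁ + n * (b₂ - b₁) := by linarith
            have hc3 : c₃ = c₁ + n * (c₂ - c₁) := by linarith
            rw [hb3, hc3] at B4
            linear_combination B4
          have hpos : (b₂ - b₁) ^ 2 + (c₂ - c₁) ^ 2 ≠ 0 := by
            intro h0
            have h1 : (b₂ - b₁) ^ 2 = 0 := by nlinarith [sq_nonneg (b₂ - b₁), sq_nonneg (c₂ - c₁)]
            have h2 : (c₂ - c₁) ^ 2 = 0 := by nlinarith [sq_nonneg (b₂ - b₁), sq_nonneg (c₂ - c₁)]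
            have h1' := pow_eq_zero_iff (two_ne_zero) |>.1 h1
            have h2' := pow_eq_zero_iff (two_ne_zero) |>.1 h2
            rw [h1', h2'] at hslope
            rcases hnz with h | h | h
            · exact h (by linarith)
            · exact h (by linarith)
            · exact h (by linarith)
          rcases mul_eq_zero.1 hsq with h | h
          · rcases mul_eq_zero.1 h with h | h
            · left
              subst h
              exact ⟨by linarith, by linarith, by linarith, rfl, rfl⟩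
            · right
              have hn : n = 1 := by linarith
              subst hn
              exact ⟨by linarith, by linarith, by linarith, rfl, rfl⟩
          · exact absurd h hpos
        · exfalso
          have hb : b₂ = b₁ := by
            have : m * (b₂ - b₁) = 0 := by linarith
            rcases mul_eq_zero.1 this with h | h
            · exact absurd h hm
            · linarith
          have hc : c₂ = c₁ := by
            have : m * (c₂ - c₁) = 0 := by linarith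
            rcases mul_eq_zero.1 this with h | h
            · exact absurd h hm
            · linarith
          have he : e₂ = e₁ := by
            have : m * (e₂ - e₁) = 0 := by linarith
            rcases mul_eq_zero.1 this with h | h
            · exact absurd h hm
            · linarith
          rcases hnz with h | h | h
          · exact h hb
          · exact h hc
          · exact h he
    · have hind := pair_dir (b₁ := b₁) (c₁ := c₁) (e₁ := e₁) (b₂ := b₃) (c₂ := c₃) (e₂ := e₃) h13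
      rcases core h13 (exists_comb hind (hF _ h1 _ h3 _ h2))
        (exists_comb hind (hF _ h1 _ h3 _ hd3)) (exists_comb hind (hF _ h1 _ h3 _ hd2)) with h | h
      · left; exact h
      · right; right
        obtain ⟨rfl, rfl, rfl, rfl, rfl⟩ := h
        exact ⟨rfl, rfl, rfl, rfl, rfl⟩
  · have hind := pair_dir (b₁ := b₁) (c₁ := c₁) (e₁ := e₁) (b₂ := b₂) (c₂ := c₂) (e₂ := e₂) h12
    right
    exact core h12 (exists_comb hind (hF _ h1 _ h2 _ h3))
        (exists_comb hind (hF _ h1 _ h2 _ hd2)) (exists_comb hind (hF _ h1 _ h2 _ hd3))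

end Pool.Agent.H37
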