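import Mathlib
import Pool.Agent.H37.LightLines

set_option autoImplicit false

namespace Pool.Agent.H37

open Module

abbrev E3 := EuclideanSpace ℝ (Fin 3)

abbrev Par := ℕ × ℕ × ℕ × ℕ × ℕ

def pbase (w : Par) : Fin 5 → ℝ := qbase w.1 w.2.1 w.2.2.1

def pdir (w : Par) : Fin 5 → ℝ := qdir w.1 w.2.1 w.2.2.1 w.2.2.2.1 w.2.2.2.2

def std1 : Fin 5 → ℝ := ![0, 1, 0, 0, 0]
def std2 : Fin 5 → ℝ := ![0, 0, 1, 0, 0]

/-- Points of the quadric over integer points. -/
def qpt (x : ℕ × ℕ × ℕ × ℕ) : Fin 5 → ℝ :=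
  ![x.1, x.2.1, x.2.2.1, x.2.2.2, (x.1 : ℝ) * x.2.2.2 - (x.2.1 : ℝ) ^ 2 - (x.2.2.1 : ℝ) ^ 2]

theorem on_line (w : Par) (t : ℕ) :
    pbase w + (t : ℝ) • pdir w =
      qpt (t, w.1 + t * w.2.2.2.1, w.2.1 + t * w.2.2.2.2,
        w.2.2.1 + t * (w.2.2.2.1 ^ 2 + w.2.2.2.2 ^ 2)) := by
  ext i
  fin_cases i
  · simp [pbase, pdir, qpt, qbase, qdir]
  · simp [pbase, pdir, qpt, qbase, qdir]
  · simp [pbase, pdir, qpt, qbase, qdir]
  · simp [pbase, pdir, qpt, qbase, qdir]
  · simp [pbase, pdir, qpt, qbase, qdir]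
    ring

theorem triple_exists {v y : Fin 5 → ℝ} (hv : v 0 = 1) (hy : y 0 = 0) (hy0 : y ≠ 0) :
    LinearIndependent ℝ ![v, y, std1] ∨ LinearIndependent ℝ ![v, y, std2] := by
  by_contra hcon
  push Not at hcon
  obtain ⟨h1, h2⟩ := hcon
  have hind := pair_zero hv hy hy0
  obtain ⟨a, b, hA⟩ := exists_comb hind h1
  obtain ⟨a', b', hB⟩ := exists_comb hind h2
  have A0 := congrFun hA 0
  have A1 := congrFun hA 1
  have A2 := congrFun hA 2
  have B0 := congrFun hB 0
  have B1 := congrFun hB 1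
  have B2 := congrFun hB 2
  simp [std1, std2, hv, hy] at A0 A1 A2 B0 B1 B2
  subst A0 B0
  simp at A1 A2 B1 B2
  rcases A2 with h | h
  · rw [h] at A1; simp at A1
  · rw [h] at B2; simp at B2

theorem dir_std {v : Fin 5 → ℝ} (hv : v 0 = 1) : LinearIndependent ℝ ![v, std1, std2] := by
  by_contra h
  have hind := pair_zero (x := v) (y := std1) hv (by simp [std1])
    (by intro h0; have := congrFun h0 1; simp [std1] at this)
  obtain ⟨a, b, hA⟩ := exists_comb hind h
  have A0 := congrFun hA 0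
  have A2 := congrFun hA 2
  simp [std1, std2, hv] at A0 A2
  subst A0
  simp at A2

def grid (N : ℕ) : Finset Par :=
  Finset.range (N ^ 2) ×ˢ Finset.range (N ^ 2) ×ˢ Finset.range (N ^ 3) ×ˢ
    Finset.range N ×ˢ Finset.range N

def pgrid (N : ℕ) : Finset (ℕ × ℕ × ℕ × ℕ) :=
  Finset.range N ×ˢ Finset.range (2 * N ^ 2) ×ˢ Finset.range (2 * N ^ 2) ×ˢ
    Finset.range (3 * N ^ 3)

theorem card_grid (N : ℕ) : (grid N).card = N ^ 9 := by
  simp [grid, Finset.card_product]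
  ring

theorem card_pgrid (N : ℕ) : (pgrid N).card = 12 * N ^ 8 := by
  simp [pgrid, Finset.card_product]
  ring

theorem on_grid {N : ℕ} {w : Par} (hw : w ∈ grid N) {t : ℕ} (ht : t < N) :
    (t, w.1 + t * w.2.2.2.1, w.2.1 + t * w.2.2.2.2,
        w.2.2.1 + t * (w.2.2.2.1 ^ 2 + w.2.2.2.2 ^ 2)) ∈ pgrid N := by
  obtain ⟨b, c, e, p, q⟩ := w
  simp only [grid, Finset.mem_product, Finset.mem_range] at hw
  obtain ⟨hb, hc, he, hp, hq⟩ := hw
  simp only [pgrid, Finset.mem_product, Finset.mem_range]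
  have h1 : t * p ≤ N ^ 2 := by
    rw [pow_two]; exact Nat.mul_le_mul ht.le hp.le
  have h2 : t * q ≤ N ^ 2 := by
    rw [pow_two]; exact Nat.mul_le_mul ht.le hq.le
  have hp2 : p ^ 2 ≤ N ^ 2 := Nat.pow_le_pow_left hp.le 2
  have hq2 : q ^ 2 ≤ N ^ 2 := Nat.pow_le_pow_left hq.le 2
  have h3 : t * (p ^ 2 + q ^ 2) ≤ 2 * N ^ 3 := by
    calc t * (p ^ 2 + q ^ 2) ≤ N * (N ^ 2 + N ^ 2) := Nat.mul_le_mul ht.le (Nat.add_le_add hp2 hq2)
      _ = 2 * N ^ 3 := by ring
  exact ⟨ht, by omega, by omega, by omega⟩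

/-- The finite set of vectors whose independence the projection must respect. -/
def fam (N : ℕ) : Set (Fin 5 → ℝ) :=
  (pdir '' (grid N : Set Par)) ∪
    ((fun x : Par × Par => pbase x.2 - pbase x.1) '' ((grid N : Set Par) ×ˢ (grid N : Set Par))) ∪
    ((fun x : Par × Par => pdir x.2 - pdir x.1) '' ((grid N : Set Par) ×ˢ (grid N : Set Par))) ∪
    {std1, std2}

theorem fam_finite (N : ℕ) : (fam N).Finite := by
  unfold fam
  refine Set.Finite.union (Set.Finite.union (Set.Finite.union ?_ ?_) ?_) ?_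
  · exact (Finset.finite_toSet _).image _
  · exact ((Finset.finite_toSet _).prod (Finset.finite_toSet _)).image _
  · exact ((Finset.finite_toSet _).prod (Finset.finite_toSet _)).image _
  · exact Set.toFinite _

theorem exists_proj (N : ℕ) : ∃ f : (Fin 5 → ℝ) →ₗ[ℝ] E3,
    ∀ x ∈ fam N, ∀ y ∈ fam N, ∀ z ∈ fam N,
      LinearIndependent ℝ ![x, y, z] → LinearIndependent ℝ ![f x, f y, f z] := by
  obtain ⟨f, hf⟩ := exists_generic_projection 2 (Fin 5 → ℝ) (by simp)
    {v | (∀ i, v i ∈ fam N) ∧ LinearIndependent ℝ v}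
    ((Set.Finite.pi' (fun _ : Fin 3 => fam_finite N)).subset (fun v hv => hv.1))
    (fun v hv => hv.2)
  refine ⟨f, fun x hx y hy z hz h => ?_⟩
  have h1 := hf ![x, y, z] ⟨fun i => by fin_cases i <;> simp [hx, hy, hz], h⟩
  have h2 : (fun i => f (![x, y, z] i)) = ![f x, f y, f z] := by
    ext i : 1
    fin_cases i <;> rfl
  rwa [h2] at h1

theorem mem_fam_dir {N : ℕ} {w : Par} (hw : w ∈ grid N) : pdir w ∈ fam N :=
  Or.inl (Or.inl (Or.inl ⟨w, hw, rfl⟩))

theorem mem_fam_base {N : ℕ} {w w' : Par} (hw : w ∈ grid N) (hw' : w' ∈ grid N) :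
    pbase w' - pbase w ∈ fam N :=
  Or.inl (Or.inl (Or.inr ⟨(w, w'), ⟨hw, hw'⟩, rfl⟩))

theorem mem_fam_ddir {N : ℕ} {w w' : Par} (hw : w ∈ grid N) (hw' : w' ∈ grid N) :
    pdir w' - pdir w ∈ fam N :=
  Or.inl (Or.inr ⟨(w, w'), ⟨hw, hw'⟩, rfl⟩)

theorem mem_fam_std1 {N : ℕ} : std1 ∈ fam N := Or.inr (by simp)
theorem mem_fam_std2 {N : ℕ} : std2 ∈ fam N := Or.inr (by simp)

theorem not_li_of_finrank {V : Type} [AddCommGroup V] [Module ℝ V] [FiniteDimensional ℝ V]
    (D : Submodule ℝ V) (hD : finrank ℝ D ≤ 2) {x y z : V} (hx : x ∈ D) (hy : y ∈ D)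
    (hz : z ∈ D) : ¬ LinearIndependent ℝ ![x, y, z] := by
  intro h
  have h1 : ∀ i, ![x, y, z] i ∈ D := by
    intro i; fin_cases i <;> simp [hx, hy, hz]
  have h2 : LinearIndependent ℝ (fun i => (⟨![x, y, z] i, h1 i⟩ : D)) := by
    apply LinearIndependent.of_comp D.subtype
    exact h
  have h3 := h2.fintype_card_le_finrank
  simp at h3
  omega

/-- The construction. -/
theorem construction (N : ℕ) : ∃ (P : Finset E3) (L : Finset (AffineSubspace ℝ E3)),
    (∀ l ∈ L, finrank ℝ l.direction = 1) ∧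
    (∀ π : AffineSubspace ℝ E3, finrank ℝ π.direction = 2 →
      {l : AffineSubspace ℝ E3 | l ∈ L ∧ l ≤ π}.ncard ≤ 2) ∧
    P.card ≤ 12 * N ^ 8 ∧ L.card ≤ N ^ 9 ∧
    N ^ 10 ≤ {x : E3 × AffineSubspace ℝ E3 | x.1 ∈ P ∧ x.2 ∈ L ∧ x.1 ∈ x.2}.ncard := by
  classical
  obtain ⟨f, hf⟩ := exists_proj N
  let line : Par → AffineSubspace ℝ E3 := fun w =>
    AffineSubspace.mk' (f (pbase w)) (Submodule.span ℝ {f (pdir w)})
  have hdir : ∀ w ∈ grid N, f (pdir w) ≠ 0 := by
    intro w hw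
    have h := hf _ (mem_fam_dir hw) _ mem_fam_std1 _ mem_fam_std2
      (dir_std (by simp [pdir, qdir]))
    exact h.ne_zero 0
  -- injectivity of the family of lines
  have hinj : ∀ w ∈ grid N, ∀ w' ∈ grid N, line w = line w' → w = w' := by
    intro w hw w' hw' hl
    have hd : f (pdir w') ∈ Submodule.span ℝ {f (pdir w)} := by
      have h1 : (line w).direction = (line w').direction := by rw [hl]
      simp only [line, AffineSubspace.direction_mk'] at h1
      rw [h1]; exact Submodule.mem_span_singleton_self _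
    have hb : f (pbase w') - f (pbase w) ∈ Submodule.span ℝ {f (pdir w)} := by
      have h1 : f (pbase w') ∈ line w := by
        rw [hl]; exact AffineSubspace.self_mem_mk' _ _
      simp only [line] at h1
      rw [AffineSubspace.mem_mk'] at h1
      exact h1
    have hkey : ∀ y ∈ fam N, y 0 = 0 → f y ∈ Submodule.span ℝ {f (pdir w)} → y = 0 := by
      intro y hy hy0 hfy
      by_contra hne
      have hD : finrank ℝ (Submodule.span ℝ {f (pdir w)}) ≤ 1 := by
        rw [finrank_span_singleton (hdir w hw)]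
      -- use the two-dimensional span
      have gen : ∀ e ∈ fam N, ¬ LinearIndependent ℝ ![f (pdir w), f y, f e] := by
        intro e _ hli
        have h1 := hli.ne_zero
        rw [Submodule.mem_span_singleton] at hfy
        obtain ⟨a, ha⟩ := hfy
        rw [Fintype.linearIndependent_iff] at hli
        have h2 := hli ![a, -1, 0] (by simp [Fin.sum_univ_three, ha])
        have h3 := h2 1
        simp at h3
      rcases triple_exists (v := pdir w) (y := y) (by simp [pdir, qdir]) hy0 hne with h | h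
      · exact gen _ mem_fam_std1 (hf _ (mem_fam_dir hw) _ hy _ mem_fam_std1 h)
      · exact gen _ mem_fam_std2 (hf _ (mem_fam_dir hw) _ hy _ mem_fam_std2 h)
    have h1 : pbase w' - pbase w = 0 := hkey _ (mem_fam_base hw hw') (by simp [pbase, qbase])
      (by rw [map_sub]; exact hb)
    have h2 : pdir w' - pdir w = 0 := hkey _ (mem_fam_ddir hw hw') (by simp [pdir, qdir])
      (by rw [map_sub]; exact Submodule.sub_mem _ hd (Submodule.mem_span_singleton_self _))
    obtain ⟨b, c, e, p, q⟩ := w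
    obtain ⟨b', c', e', p', q'⟩ := w'
    have A1 := congrFun h1 1
    have A2 := congrFun h1 2
    have A3 := congrFun h1 3
    have B1 := congrFun h2 1
    have B2 := congrFun h2 2
    simp [pbase, pdir, qbase, qdir, sub_eq_zero] at A1 A2 A3 B1 B2
    simp [A1, A2, A3, B1, B2]
  let L : Finset (AffineSubspace ℝ E3) := (grid N).image line
  let P : Finset E3 := (pgrid N).image (fun x => f (qpt x))
  refine ⟨P, L, ?_, ?_, ?_, ?_, ?_⟩
  · intro l hl
    obtain ⟨w, hw, hwl⟩ := Finset.mem_image.1 hl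
    have h1 : l.direction = Submodule.span ℝ {f (pdir w)} := by
      rw [← hwl]
      exact AffineSubspace.direction_mk' _ _
    rw [h1]
    exact finrank_span_singleton (hdir w hw)
  · intro π hπ
    by_contra hcon
    push Not at hcon
    have hfin : {l : AffineSubspace ℝ E3 | l ∈ L ∧ l ≤ π}.Finite :=
      (Finset.finite_toSet L).subset (fun l hl => hl.1)
    obtain ⟨l₁, l₂, l₃, ⟨hl₁, hp₁⟩, ⟨hl₂, hp₂⟩, ⟨hl₃, hp₃⟩, h12, h13, h23⟩ :=
      (Set.two_lt_ncard_iff hfin).1 hcon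
    obtain ⟨w₁, hw₁, rfl⟩ := Finset.mem_image.1 hl₁
    obtain ⟨w₂, hw₂, rfl⟩ := Finset.mem_image.1 hl₂
    obtain ⟨w₃, hw₃, rfl⟩ := Finset.mem_image.1 hl₃
    have hdm : ∀ w, line w ≤ π → f (pdir w) ∈ π.direction := by
      intro w hle
      have h1 := AffineSubspace.direction_le hle
      simp only [line, AffineSubspace.direction_mk'] at h1
      exact h1 (Submodule.mem_span_singleton_self _)
    have hbm : ∀ w w', line w ≤ π → line w' ≤ π → f (pbase w' - pbase w) ∈ π.direction := by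
      intro w w' hle hle'
      rw [map_sub]
      have h1 : f (pbase w) ∈ π := hle (AffineSubspace.self_mem_mk' _ _)
      have h2 : f (pbase w') ∈ π := hle' (AffineSubspace.self_mem_mk' _ _)
      exact AffineSubspace.vsub_mem_direction h2 h1
    have h3 := three_lines (b₁ := (w₁.1 : ℝ)) (c₁ := w₁.2.1) (e₁ := w₁.2.2.1)
      (p₁ := w₁.2.2.2.1) (q₁ := w₁.2.2.2.2) (b₂ := (w₂.1 : ℝ)) (c₂ := w₂.2.1)
      (e₂ := w₂.2.2.1) (p₂ := w₂.2.2.2.1) (q₂ := w₂.2.2.2.2) (b₃ := (w₃.1 : ℝ))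
      (c₃ := w₃.2.1) (e₃ := w₃.2.2.1) (p₃ := w₃.2.2.2.1) (q₃ := w₃.2.2.2.2)
      {x | x ∈ fam N ∧ f x ∈ π.direction}
      ⟨mem_fam_dir hw₁, hdm _ hp₁⟩ ⟨mem_fam_dir hw₂, hdm _ hp₂⟩ ⟨mem_fam_dir hw₃, hdm _ hp₃⟩
      ⟨mem_fam_base hw₁ hw₂, hbm _ _ hp₁ hp₂⟩ ⟨mem_fam_base hw₁ hw₃, hbm _ _ hp₁ hp₃⟩
      (fun x hx y hy z hz hli => not_li_of_finrank π.direction hπ.le hx.2 hy.2 hz.2
        (hf x hx.1 y hy.1 z hz.1 hli))
    obtain ⟨b₁, c₁, e₁, p₁, q₁⟩ := w₁
    obtain ⟨b₂, c₂, e₂, p₂, q₂⟩ := w₂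
    obtain ⟨b₃, c₃, e₃, p₃, q₃⟩ := w₃
    simp only [Nat.cast_inj] at h3
    rcases h3 with ⟨rfl, rfl, rfl, rfl, rfl⟩ | ⟨rfl, rfl, rfl, rfl, rfl⟩ | ⟨rfl, rfl, rfl, rfl, rfl⟩
    · exact h12 rfl
    · exact h13 rfl
    · exact h23 rfl
  · calc P.card ≤ (pgrid N).card := Finset.card_image_le
      _ = 12 * N ^ 8 := card_pgrid N
  · calc L.card ≤ (grid N).card := Finset.card_image_le
      _ = N ^ 9 := card_grid N
  · let T : Finset (Par × ℕ) := grid N ×ˢ Finset.range N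
    have hT : T.card = N ^ 10 := by
      simp only [T, Finset.card_product, card_grid, Finset.card_range]
      ring
    let Φ : Par × ℕ → E3 × AffineSubspace ℝ E3 := fun x =>
      (f (pbase x.1 + (x.2 : ℝ) • pdir x.1), line x.1)
    have hΦ : Set.InjOn Φ (T : Set (Par × ℕ)) := by
      rintro ⟨w, t⟩ hx ⟨w', t'⟩ hx' h
      have hx1 := Finset.mem_product.1 (Finset.mem_coe.1 hx)
      have hx1' := Finset.mem_product.1 (Finset.mem_coe.1 hx')
      have h1 : line w = line w' := congrArg Prod.snd h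
      have h2 : w = w' := hinj w hx1.1 w' hx1'.1 h1
      subst h2
      have h3 : f (pbase w + (t : ℝ) • pdir w) = f (pbase w + (t' : ℝ) • pdir w) :=
        congrArg Prod.fst h
      simp only [map_add, map_smul, add_right_inj] at h3
      have h4 : ((t : ℝ) - t') • f (pdir w) = 0 := by rw [sub_smul, h3, sub_self]
      rcases smul_eq_zero.1 h4 with h5 | h5
      · have : (t : ℝ) = t' := by linarith
        have : t = t' := by exact_mod_cast this
        rw [this]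
      · exact absurd h5 (hdir w hx1.1)
    have hfin : {x : E3 × AffineSubspace ℝ E3 | x.1 ∈ P ∧ x.2 ∈ L ∧ x.1 ∈ x.2}.Finite :=
      ((Finset.finite_toSet P).prod (Finset.finite_toSet L)).subset
        (fun x hx => ⟨hx.1, hx.2.1⟩)
    have himg : Φ '' (T : Set (Par × ℕ)) ⊆
        {x : E3 × AffineSubspace ℝ E3 | x.1 ∈ P ∧ x.2 ∈ L ∧ x.1 ∈ x.2} := by
      rintro _ ⟨⟨w, t⟩, hx, rfl⟩
      have hx1 := Finset.mem_product.1 (Finset.mem_coe.1 hx)
      refine ⟨?_, ?_, ?_⟩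
      · refine Finset.mem_image.2 ⟨_, on_grid hx1.1 (Finset.mem_range.1 hx1.2), ?_⟩
        simp only [Φ]
        rw [on_line]
      · exact Finset.mem_image.2 ⟨w, hx1.1, rfl⟩
      · simp only [Φ, line]
        rw [AffineSubspace.mem_mk', map_add, map_smul]
        simp only [vsub_eq_sub, add_sub_cancel_left]
        exact Submodule.smul_mem _ _ (Submodule.mem_span_singleton_self _)
    calc N ^ 10 = T.card := hT.symm
      _ = (T : Set (Par × ℕ)).ncard := (Set.ncard_coe_finset T).symm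
      _ = (Φ '' (T : Set (Par × ℕ))).ncard := hΦ.ncard_image.symm
      _ ≤ _ := Set.ncard_le_ncard himg hfin

end Pool.Agent.H37
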