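import Mathlib
import Pool.Agent.H37.Extract

set_option autoImplicit false
set_option linter.unusedSectionVars false

namespace Pool.Agent.H37

open MvPolynomial Classical

variable {V : Type} [Fintype V]

/-- The subgraph with all vertices and the edges joining `i` to `f i`. -/
def matchOf (G : SimpleGraph V) (R : Finset V) (f : R → V) : G.Subgraph where
  verts := Set.univ
  Adj x y := G.Adj x y ∧ ∃ i : R, (x = i ∧ y = f i) ∨ (y = i ∧ x = f i)
  adj_sub := fun h => h.1
  edge_vert := fun _ => trivial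
  symm := ⟨fun x y h => by
    obtain ⟨h1, i, h2⟩ := h
    exact ⟨h1.symm, i, h2.symm⟩⟩

theorem good_le {G : SimpleGraph V} {d : ℕ} {R Cc : Finset V} (hRC : Disjoint R Cc)
    (hall : ∀ j, j ∈ R ∨ j ∈ Cc) (hcard : R.card = Cc.card) :
    (Good (adjw G d) R Cc).ncard ≤ {M : G.Subgraph | M.IsPerfectMatching}.ncard := by
  refine Set.ncard_le_ncard_of_injOn (matchOf G R) ?_ ?_ (Set.toFinite _)
  · rintro f ⟨hinj, hmem, hne⟩
    have hadj : ∀ i : R, G.Adj i (f i) := fun i => adjw_ne_zero (hne i)
    have hsurj : ∀ j ∈ Cc, ∃ i : R, f i = j := by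
      have h1 : (Finset.univ.image f) ⊆ Cc := by
        intro j hj
        obtain ⟨i, _, rfl⟩ := Finset.mem_image.1 hj
        exact hmem i
      have h2 : (Finset.univ.image f).card = R.card := by
        rw [Finset.card_image_of_injective _ hinj]
        simp
      have h3 : Finset.univ.image f = Cc := Finset.eq_of_subset_of_card_le h1 (by omega)
      intro j hj
      rw [← h3] at hj
      obtain ⟨i, _, hi⟩ := Finset.mem_image.1 hj
      exact ⟨i, hi⟩
    show (matchOf G R f).IsPerfectMatching
    rw [SimpleGraph.Subgraph.isPerfectMatching_iff]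
    intro x
    rcases hall x with hx | hx
    · refine ⟨f ⟨x, hx⟩, ⟨hadj ⟨x, hx⟩, ⟨x, hx⟩, Or.inl ⟨rfl, rfl⟩⟩, ?_⟩
      rintro y ⟨_, i, h | h⟩
      · obtain ⟨h1, h2⟩ := h
        rw [h2]
        congr 1
        exact Subtype.ext h1.symm
      · obtain ⟨h1, h2⟩ := h
        exfalso
        rw [h2] at hx
        exact Finset.disjoint_left.1 hRC hx (hmem i)
    · obtain ⟨i, hi⟩ := hsurj x hx
      refine ⟨i, ⟨?_, i, Or.inr ⟨rfl, hi.symm⟩⟩, ?_⟩
      · rw [← hi]
        exact (hadj i).symm
      · rintro y ⟨_, i', h | h⟩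
        · obtain ⟨h1, h2⟩ := h
          exfalso
          rw [h1] at hx
          exact Finset.disjoint_left.1 hRC i'.2 hx
        · obtain ⟨h1, h2⟩ := h
          rw [h1]
          rw [← hi] at h2
          rw [hinj h2]
  · rintro f ⟨_, hmem, hne⟩ g ⟨_, hmemg, _⟩ hfg
    funext i
    have h1 : (matchOf G R f).Adj i (f i) := ⟨adjw_ne_zero (hne i), i, Or.inl ⟨rfl, rfl⟩⟩
    rw [hfg] at h1
    obtain ⟨_, i', h | h⟩ := h1
    · obtain ⟨h2, h3⟩ := h
      rw [h3]
      congr 1
      exact Subtype.ext h2.symm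
    · exfalso
      obtain ⟨h2, h3⟩ := h
      have h4 := hmem i
      rw [h2] at h4
      exact Finset.disjoint_left.1 hRC i'.2 h4

/-- The logarithmic constant of the lower bound. -/
noncomputable def lam (d : ℕ) : ℝ :=
  1 / 2 * Real.log (((d : ℝ) - 1) ^ (d - 1) / (d : ℝ) ^ ((d : ℤ) - 2))

theorem lam_eq {d : ℕ} (hd : 2 ≤ d) : lam d = 1 / 2 * Real.log (d * Gc d) := by
  unfold lam Gc
  congr 2
  have hd0 : (d : ℝ) ≠ 0 := by
    have : (0 : ℝ) < d := by exact_mod_cast (by omega : 0 < d)
    exact this.ne'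
  obtain ⟨e, rfl⟩ : ∃ e, d = e + 2 := ⟨d - 2, by omega⟩
  have h1 : (((e + 2 : ℕ) : ℤ) - 2) = (e : ℤ) := by push_cast; ring
  rw [h1, zpow_natCast, show e + 2 - 1 = e + 1 from rfl, div_pow]
  field_simp
  ring

/-- A maximal subfamily with disjoint row sets. -/
theorem family_aux {X : Type} [Fintype X] (rows : X → Finset V) (hne : ∀ f, (rows f).Nonempty)
    (K : ℕ) (hK : ∀ g, (Finset.univ.filter (fun f => ¬ Disjoint (rows f) (rows g))).card ≤ K) :
    ∃ S : Finset X, (∀ f ∈ S, ∀ g ∈ S, f ≠ g → Disjoint (rows f) (rows g)) ∧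
      Fintype.card X ≤ S.card * K := by
  obtain ⟨S, hS, hmax⟩ := Finset.exists_max_image
    ((Finset.univ : Finset (Finset X)).filter
      (fun S => ∀ f ∈ S, ∀ g ∈ S, f ≠ g → Disjoint (rows f) (rows g)))
    Finset.card ⟨∅, by simp⟩
  have hdis := (Finset.mem_filter.1 hS).2
  refine ⟨S, hdis, ?_⟩
  have hcov : ∀ f : X, ∃ g ∈ S, ¬ Disjoint (rows f) (rows g) := by
    intro f
    by_contra hcon
    push Not at hcon
    have hfS : f ∉ S := by
      intro hf
      have h1 := hcon f hf
      rw [disjoint_self] at h1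
      obtain ⟨i, hi⟩ := hne f
      rw [h1] at hi
      exact absurd hi (Finset.notMem_empty i)
    have h2 := hmax (insert f S) (by
      refine Finset.mem_filter.2 ⟨Finset.mem_univ _, ?_⟩
      intro f1 hf1 f2 hf2 hne12
      rcases Finset.mem_insert.1 hf1 with rfl | h1
      · rcases Finset.mem_insert.1 hf2 with rfl | h2
        · exact absurd rfl hne12
        · exact hcon f2 h2
      · rcases Finset.mem_insert.1 hf2 with rfl | h2
        · exact (hcon f1 h1).symm
        · exact hdis f1 h1 f2 h2 hne12)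
    rw [Finset.card_insert_of_notMem hfS] at h2
    omega
  rw [← Finset.card_univ]
  have hsub : (Finset.univ : Finset X) ⊆
      S.biUnion (fun g => Finset.univ.filter (fun f => ¬ Disjoint (rows f) (rows g))) := by
    intro f _
    obtain ⟨g, hg, h⟩ := hcov f
    exact Finset.mem_biUnion.2 ⟨g, hg, Finset.mem_filter.2 ⟨Finset.mem_univ _, h⟩⟩
  exact (Finset.card_le_card hsub).trans (Finset.card_biUnion_le_card_mul _ _ _ fun g _ => hK g)

theorem conflict_card {n d : ℕ} {G : SimpleGraph V} (c : G.Coloring (Fin 2))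
    (hreg : ∀ i, (Finset.univ.filter (fun j => G.Adj i j)).card = d)
    (T : Finset ((SimpleGraph.cycleGraph (n + 3)).Copy G))
    (g : (SimpleGraph.cycleGraph (n + 3)).Copy G)
    (hT : ∀ f ∈ T, ¬ Disjoint (rowsOf c f) (rowsOf c g)) :
    T.card ≤ ((d + 1) ^ (2 + (n + 3)) * (n + 3)) ^ (n + 3) := by
  have h1 : T.card ≤ (Fintype.piFinset (fun _ : Fin (n + 3) =>
      ball G (Finset.univ.image (fun y => g y)) (2 + (n + 3)))).card := by
    refine Finset.card_le_card_of_injOn (fun f => fun x => f x) ?_ ?_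
    · intro f hf
      rw [Finset.mem_coe] at hf ⊢
      rw [Fintype.mem_piFinset]
      intro x
      exact meet_sub_ball c f g (hT f hf) x
    · intro f _ g' _ h
      exact DFunLike.ext _ _ fun x => congrFun h x
  refine h1.trans ?_
  rw [Fintype.card_piFinset, Finset.prod_const, Finset.card_univ, Fintype.card_fin]
  refine Nat.pow_le_pow_left ?_ _
  refine (card_ball hreg _ _).trans (Nat.mul_le_mul_left _ ?_)
  refine Finset.card_image_le.trans ?_
  rw [Finset.card_univ, Fintype.card_fin]

/-- A maximal family of copies with disjoint row sets. -/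
theorem exists_family {n d : ℕ} (hd : 2 ≤ d) {G : SimpleGraph V} (c : G.Coloring (Fin 2))
    (hreg : ∀ i, (Finset.univ.filter (fun j => G.Adj i j)).card = d) :
    ∃ S : Finset ((SimpleGraph.cycleGraph (n + 3)).Copy G),
      (∀ f ∈ S, ∀ g ∈ S, f ≠ g → Disjoint (rowsOf c f) (rowsOf c g)) ∧
      G.copyCount (SimpleGraph.cycleGraph (n + 3)) ≤
        S.card * ((d + 1) ^ (2 + (n + 3)) * (n + 3)) ^ (n + 3) := by
  have hne : ∀ f : (SimpleGraph.cycleGraph (n + 3)).Copy G, (rowsOf c f).Nonempty := by
    intro f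
    obtain ⟨D, _, hD⟩ := copy_GD hd c hreg f
    obtain ⟨i, hi, _⟩ := D.exists_row (GD.mem_l.2 ⟨0, rfl⟩)
    exact ⟨i, hD hi⟩
  have hlab : G.labelledCopyCount (SimpleGraph.cycleGraph (n + 3)) =
      Nat.card ((SimpleGraph.cycleGraph (n + 3)).Copy G) := by
    unfold SimpleGraph.labelledCopyCount
    exact (@Nat.card_eq_fintype_card _ (_)).symm
  have key : ∀ (X : Type) (_ : Finite X) (e : X ≃ (SimpleGraph.cycleGraph (n + 3)).Copy G),
      ∃ S : Finset ((SimpleGraph.cycleGraph (n + 3)).Copy G),
      (∀ f ∈ S, ∀ g ∈ S, f ≠ g → Disjoint (rowsOf c f) (rowsOf c g)) ∧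
      Nat.card X ≤ S.card * ((d + 1) ^ (2 + (n + 3)) * (n + 3)) ^ (n + 3) := by
    intro X hX e
    have : Fintype X := Fintype.ofFinite X
    obtain ⟨S, hS, hcard⟩ := family_aux (fun x => rowsOf c (e x)) (fun x => hne (e x))
      (((d + 1) ^ (2 + (n + 3)) * (n + 3)) ^ (n + 3)) (by
        intro g
        have h1 := conflict_card c hreg ((Finset.univ.filter
          (fun f => ¬ Disjoint (rowsOf c (e f)) (rowsOf c (e g)))).map e.toEmbedding) (e g) (by
            intro f hf
            obtain ⟨x, hx, rfl⟩ := Finset.mem_map.1 hf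
            exact (Finset.mem_filter.1 hx).2)
        rw [Finset.card_map] at h1
        exact h1)
    refine ⟨S.map e.toEmbedding, ?_, ?_⟩
    · intro f hf g hg hfg
      obtain ⟨x, hx, rfl⟩ := Finset.mem_map.1 hf
      obtain ⟨y, hy, rfl⟩ := Finset.mem_map.1 hg
      exact hS x hx y hy fun h => hfg (by rw [h])
    · rw [Finset.card_map, Nat.card_eq_fintype_card]
      exact hcard
  have hfin : Finite ((SimpleGraph.cycleGraph (n + 3)).Copy G) := by
    refine Finite.of_injective (fun f => fun x : Fin (n + 3) => f x) ?_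
    intro f g h
    exact DFunLike.ext _ _ fun x => congrFun h x
  obtain ⟨S, hS, hcard⟩ := key _ hfin (Equiv.refl _)
  refine ⟨S, hS, ?_⟩
  refine SimpleGraph.copyCount_le_labelledCopyCount.trans ?_
  rw [hlab]
  exact hcard

theorem card_parts {G : SimpleGraph V} {d : ℕ} (hd : 1 ≤ d) (c : G.Coloring (Fin 2))
    (hreg : ∀ i, (Finset.univ.filter (fun j => G.Adj i j)).card = d) :
    (Finset.univ.filter (fun i => c i = 0)).card =
      (Finset.univ.filter (fun i => c i = 1)).card := by
  have h01 : ∀ z : Fin 2, z = 0 ∨ z = 1 := by decide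
  have h1 : ∀ i, c i = 0 → ∑ j ∈ Finset.univ.filter (fun j => c j = 1),
      (if G.Adj i j then 1 else 0) = d := by
    intro i hi
    rw [← hreg i, Finset.card_filter]
    refine Finset.sum_subset (Finset.subset_univ _) fun j _ hj => if_neg fun hij => hj ?_
    refine Finset.mem_filter.2 ⟨Finset.mem_univ _, ?_⟩
    have := c.valid hij
    rcases h01 (c j) with h | h
    · rw [hi, h] at this; exact absurd rfl this
    · exact h
  have h2 : ∀ j, c j = 1 → ∑ i ∈ Finset.univ.filter (fun i => c i = 0),
      (if G.Adj i j then 1 else 0) = d := by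
    intro j hj
    rw [← hreg j, Finset.card_filter]
    simp only [G.adj_comm j]
    refine Finset.sum_subset (Finset.subset_univ _) fun i _ hi => if_neg fun hij => hi ?_
    refine Finset.mem_filter.2 ⟨Finset.mem_univ _, ?_⟩
    have := c.valid hij
    rcases h01 (c i) with h | h
    · exact h
    · rw [h, hj] at this; exact absurd rfl this
  have h3 : (Finset.univ.filter (fun i => c i = 0)).card * d =
      (Finset.univ.filter (fun i => c i = 1)).card * d := by
    calc (Finset.univ.filter (fun i => c i = 0)).card * d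
        = ∑ i ∈ Finset.univ.filter (fun i => c i = 0),
          ∑ j ∈ Finset.univ.filter (fun j => c j = 1), (if G.Adj i j then 1 else 0) := by
          rw [Finset.sum_congr rfl fun i hi => h1 i (Finset.mem_filter.1 hi).2,
            Finset.sum_const, smul_eq_mul]
      _ = ∑ j ∈ Finset.univ.filter (fun j => c j = 1),
          ∑ i ∈ Finset.univ.filter (fun i => c i = 0), (if G.Adj i j then 1 else 0) :=
          Finset.sum_comm
      _ = _ := by
          rw [Finset.sum_congr rfl fun j hj => h2 j (Finset.mem_filter.1 hj).2,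
            Finset.sum_const, smul_eq_mul]
  exact Nat.eq_of_mul_eq_mul_right (by omega) h3

theorem graph_bound_two {d n : ℕ} (hd : 2 ≤ d) :
    ∃ ε : ℝ, 0 < ε ∧ ∀ (V : Type) [Fintype V] (G : SimpleGraph V),
      (∀ i, (Finset.univ.filter (fun j => G.Adj i j)).card = d) → G.IsBipartite →
      ε * (G.copyCount (SimpleGraph.cycleGraph (n + 3)) : ℝ) + (Fintype.card V : ℝ) * lam d ≤
        Real.log ({M : G.Subgraph | M.IsPerfectMatching}.ncard : ℝ) := by
  have hδ := dmin_pos hd (n + 3)
  have hG := Gc_pos hd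
  set K : ℕ := ((d + 1) ^ (2 + (n + 3)) * (n + 3)) ^ (n + 3) with hK
  have hKpos : (0 : ℝ) < K := by
    have : 0 < K := by positivity
    exact_mod_cast this
  have hlog : 0 < Real.log (1 + dmin d (n + 3)) := Real.log_pos (by linarith)
  refine ⟨Real.log (1 + dmin d (n + 3)) / K, by positivity, ?_⟩
  intro V _ G hreg hbip
  obtain ⟨c⟩ := hbip
  have h01 : ∀ z : Fin 2, z = 0 ∨ z = 1 := by decide
  set R := Finset.univ.filter (fun i => c i = 0) with hR
  set Cc := Finset.univ.filter (fun i => c i = 1) with hCc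
  have hparts : R.card = Cc.card := card_parts (by omega) c hreg
  have hRC : Disjoint R Cc := by
    rw [Finset.disjoint_left]
    intro i hi hi'
    have h1 := (Finset.mem_filter.1 hi).2
    have h2 := (Finset.mem_filter.1 hi').2
    rw [h1] at h2
    exact absurd h2 (by decide)
  have hall : ∀ j, j ∈ R ∨ j ∈ Cc := by
    intro j
    rcases h01 (c j) with h | h
    · exact Or.inl (Finset.mem_filter.2 ⟨Finset.mem_univ _, h⟩)
    · exact Or.inr (Finset.mem_filter.2 ⟨Finset.mem_univ _, h⟩)
  have hcardV : (Fintype.card V : ℝ) = 2 * R.card := by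
    have h1 : (R ∪ Cc).card = R.card + Cc.card := Finset.card_union_of_disjoint hRC
    have h2 : R ∪ Cc = Finset.univ := by
      ext j
      simp only [Finset.mem_union, Finset.mem_univ, iff_true]
      exact hall j
    rw [h2, Finset.card_univ, ← hparts] at h1
    rw [h1]
    push_cast
    ring
  obtain ⟨S, hSdis, hScard⟩ := exists_family (n := n) hd c hreg
  choose D hDn hDN using copy_GD (n := n) hd c hreg
  have hPW : PW (S.toList.map D) := by
    unfold PW
    rw [List.pairwise_map]
    refine List.Nodup.pairwise_of_forall_ne (Finset.nodup_toList S) ?_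
    intro f hf g hg hne
    exact Disjoint.mono (hDN f) (hDN g)
      (hSdis f (Finset.mem_toList.1 hf) g (Finset.mem_toList.1 hg) hne)
  have hd0 : (0 : ℝ) < d := by exact_mod_cast (by omega : 0 < d)
  have hrow : ∀ i, ∑ j, adjw G d i j = 1 := by
    intro i
    unfold adjw
    rw [← Finset.sum_filter, Finset.sum_const, nsmul_eq_mul]
    have h3 := hreg i
    rw [h3]
    field_simp
  have hzero : ∀ i j, i ∈ R → j ∈ R → ¬ G.Adj i j := by
    intro i j hi hj hij
    exact c.valid hij ((Finset.mem_filter.1 hi).2.trans (Finset.mem_filter.1 hj).2.symm)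
  have hzero' : ∀ i j, i ∈ Cc → j ∈ Cc → ¬ G.Adj i j := by
    intro i j hi hj hij
    exact c.valid hij ((Finset.mem_filter.1 hi).2.trans (Finset.mem_filter.1 hj).2.symm)
  obtain ⟨l, hl, hmem, hge⟩ := final_ge (a := adjw G d) (R := R) hd (adjw_nonneg G d)
    (fun i _ => hrow i) Cc (by
      intro j hj
      rw [← hrow j, Finset.sum_congr rfl fun i _ => adjw_symm G d i j]
      refine Finset.sum_subset (Finset.subset_univ _) fun i _ hi => ?_
      unfold adjw
      refine if_neg (hzero' j i hj ((hall i).resolve_left hi))) (by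
      intro j hj i hi
      unfold adjw
      exact if_neg (hzero i j hi ((hall j).resolve_right hj))) (by
      intro j hj
      rw [← hreg j]
      refine Finset.card_le_card fun i hi => ?_
      refine Finset.mem_filter.2 ⟨Finset.mem_univ _, ?_⟩
      exact (adjw_ne_zero (Finset.mem_filter.1 hi).2).symm)
    hPW (L := n + 3) (by
      intro D' hD'
      obtain ⟨f, _, rfl⟩ := List.mem_map.1 hD'
      exact hDn f)
  have hcount := count_le (a := adjw G d) (R := R) Cc hparts (γ := 1 / (d : ℝ)) (by positivity)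
    (adjw_val G d) hl hmem
  have hgood := good_le (G := G) (d := d) hRC hall hparts
  have hmain := hge.trans hcount
  rw [List.length_map, Finset.length_toList, ← hparts] at hmain
  set P := {M : G.Subgraph | M.IsPerfectMatching}.ncard with hP
  have h1 : (d * Gc d) ^ R.card * (1 + dmin d (n + 3)) ^ S.card ≤ (P : ℝ) := by
    have h2 : ((Good (adjw G d) R Cc).ncard : ℝ) ≤ P := by exact_mod_cast hgood
    have h3 : (0 : ℝ) < (d : ℝ) ^ R.card := by positivity
    have h4 : (d : ℝ) ^ R.card * (1 / (d : ℝ)) ^ R.card = 1 := by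
      rw [← mul_pow]
      field_simp
      simp
    calc (d * Gc d) ^ R.card * (1 + dmin d (n + 3)) ^ S.card
        = (d : ℝ) ^ R.card * (Gc d ^ R.card * (1 + dmin d (n + 3)) ^ S.card) := by
          rw [mul_pow]; ring
      _ ≤ (d : ℝ) ^ R.card * ((1 / (d : ℝ)) ^ R.card * ((Good (adjw G d) R Cc).ncard : ℝ)) :=
          mul_le_mul_of_nonneg_left hmain h3.le
      _ = ((Good (adjw G d) R Cc).ncard : ℝ) := by rw [← mul_assoc, h4, one_mul]
      _ ≤ P := h2
  have h2 : Real.log ((d * Gc d) ^ R.card * (1 + dmin d (n + 3)) ^ S.card) ≤ Real.log P :=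
    Real.log_le_log (by positivity) h1
  rw [Real.log_mul (by positivity) (by positivity), Real.log_pow, Real.log_pow] at h2
  refine le_trans ?_ h2
  rw [hcardV, lam_eq hd]
  have h5 : Real.log (1 + dmin d (n + 3)) / K *
      (G.copyCount (SimpleGraph.cycleGraph (n + 3)) : ℝ) ≤
      S.card * Real.log (1 + dmin d (n + 3)) := by
    have h6 : (G.copyCount (SimpleGraph.cycleGraph (n + 3)) : ℝ) ≤ S.card * K := by
      rw [hK]; exact_mod_cast hScard
    calc Real.log (1 + dmin d (n + 3)) / K *
        (G.copyCount (SimpleGraph.cycleGraph (n + 3)) : ℝ)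
        ≤ Real.log (1 + dmin d (n + 3)) / K * (S.card * K) :=
          mul_le_mul_of_nonneg_left h6 (by positivity)
      _ = S.card * Real.log (1 + dmin d (n + 3)) := by field_simp
  have h7 : (2 * (R.card : ℝ)) * (1 / 2 * Real.log (d * Gc d)) =
      R.card * Real.log (d * Gc d) := by ring
  rw [h7]
  linarith

/-- A quantitative stability form of the lower bound, for every degree. -/
theorem graph_bound {d : ℕ} (hd : 1 ≤ d) (k : ℕ) (hk : 3 ≤ k) :
    ∃ ε : ℝ, 0 < ε ∧ ∀ (V : Type) [Fintype V] (G : SimpleGraph V),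
      (∀ i, (Finset.univ.filter (fun j => G.Adj i j)).card = d) → G.IsBipartite →
      ε * (G.copyCount (SimpleGraph.cycleGraph k) : ℝ) + (Fintype.card V : ℝ) * lam d ≤
        Real.log ({M : G.Subgraph | M.IsPerfectMatching}.ncard : ℝ) := by
  obtain ⟨n, rfl⟩ : ∃ n, k = n + 3 := ⟨k - 3, by omega⟩
  by_cases hd2 : 2 ≤ d
  · exact graph_bound_two hd2
  · obtain rfl : d = 1 := by omega
    refine ⟨1, one_pos, ?_⟩
    intro V _ G hreg hbip
    obtain ⟨c⟩ := hbip
    have h0 : G.copyCount (SimpleGraph.cycleGraph (n + 3)) = 0 := by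
      rw [SimpleGraph.copyCount_eq_zero]
      rintro ⟨f⟩
      obtain ⟨hm, v, u, hc⟩ := copy_hasCyc c f
      have h1 := hc.adj1 0 (by omega)
      have h2 := hc.adj2 0 (by omega)
      have hsub : ({v 0, v 1} : Finset V) ⊆ Finset.univ.filter (fun j => G.Adj (u 0) j) := by
        intro j hj
        rw [Finset.mem_insert, Finset.mem_singleton] at hj
        rcases hj with rfl | rfl
        · exact Finset.mem_filter.2 ⟨Finset.mem_univ _, h1⟩
        · exact Finset.mem_filter.2 ⟨Finset.mem_univ _, h2⟩
      have hcard := Finset.card_le_card hsub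
      rw [hreg, Finset.card_pair] at hcard
      · omega
      · intro h
        have := hc.vinj 0 (by omega) 1 (by omega) h
        omega
    have hlam : lam 1 = 0 := by
      unfold lam
      norm_num
    rw [h0, hlam]
    simp only [Nat.cast_zero, mul_zero, add_zero]
    exact Real.log_natCast_nonneg _

end Pool.Agent.H37
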